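import Pool.Agent.Y118.HP.Main2

/-!
# Conversions for the final statement
-/

set_option autoImplicit false

open Matrix Polynomial NumberField

namespace Pool.Agent.Y118.HP

variable {n N : ℕ}

theorem inGap_of_er {a : Fin n → ℝ} {m : Fin (n + 1)} {t : ℝ} (h : StrictMono (er a m t)) :
    StrictMono a ∧ InGap a m t := by
  have h1 : ∀ i, er a m t (m.succAbove i) = a i := fun i => by simp [er]
  have h2 : er a m t m = t := by simp [er]
  refine ⟨fun i k hik => ?_, fun i => ⟨fun hi => ?_, fun hi => ?_⟩⟩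
  · rw [← h1 i, ← h1 k]
    exact h ((Fin.succAbove_lt_succAbove_iff).2 hik)
  · have h3 := h ((Fin.succAbove_lt_iff_castSucc_lt _ _).2 hi)
    rwa [h1, h2] at h3
  · have h3 := h ((Fin.lt_succAbove_iff_le_castSucc _ _).2 hi)
    rwa [h1, h2] at h3

/-- the matrix of the loops: `-2 J` -/
def bm (K : Type*) [Ring K] (n : ℕ) : Matrix (Fin n) (Fin n) K :=
  Matrix.of fun r s => if (r : ℕ) = s + 1 ∨ (s : ℕ) = r + 1 then 2 * (-1) ^ (r : ℕ) else 0

theorem bm_eq : (bm ℚ n).map (algebraMap ℚ ℂ) = (-2 : ℂ) • jm ℂ n := by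
  ext r s
  rw [Matrix.map_apply, Matrix.smul_apply, jm_apply]
  unfold bm
  rw [Matrix.of_apply]
  split_ifs <;> simp

theorem qm_eq (f : ℚ[X]) (t : ℚ) :
    (qm n (f * (X - C t))).map (algebraMap ℚ ℂ) = (Qp n f).map (aeval (t : ℂ)) := by
  rw [Qp_eval]
  ext i j
  rw [Matrix.map_apply]
  unfold qm
  rw [Matrix.of_apply, Matrix.of_apply]
  have h1 : (f.map (algebraMap ℚ ℂ) * (X - C ((t : ℚ) : ℂ))) = (f * (X - C t)).map (algebraMap ℚ ℂ) := by
    rw [Polynomial.map_mul, Polynomial.map_sub, Polynomial.map_X, Polynomial.map_C, eq_ratCast]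
  rw [h1, coeff_map]
  simp

/-- the torsor, in the normalisation of the final statement -/
def TorF (F : Fin N → ℚ[X]) : Set ((Fin N → Matrix (Fin n) (Fin n) ℂ) × ℂ) :=
  {x | x.2 ≠ 0 ∧ ∀ j, x.1 j * (qm n (F j)).map (algebraMap ℚ ℂ) * (x.1 j).transpose =
    x.2 • (bm ℚ n).map (algebraMap ℚ ℂ)}

theorem TorF_eq (f : Fin N → ℚ[X]) (t : Fin N → ℚ) :
    TorF (n := n) (fun j => f j * (X - C (t j))) = Tor (fun j => (-1 / 2 : ℂ) • (Qp n (f j)).map (aeval (t j : ℂ))) := by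
  ext x
  unfold TorF Tor
  simp only [Set.mem_ofPred_eq, qm_eq, bm_eq]
  refine and_congr_right fun _ => forall_congr' fun j => ?_
  rw [Matrix.mul_smul, Matrix.smul_mul]
  constructor
  · intro h
    rw [h, smul_smul, smul_smul]
    congr 1
    ring
  · intro h
    calc x.1 j * (Qp n (f j)).map (aeval (t j : ℂ)) * (x.1 j).transpose =
        (-2 : ℂ) • ((-1 / 2 : ℂ) • (x.1 j * (Qp n (f j)).map (aeval (t j : ℂ)) * (x.1 j).transpose)) := by
          rw [smul_smul]; norm_num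
      _ = x.2 • (-2 : ℂ) • jm ℂ n := by rw [h, smul_comm]

/-- the period point is on the torsor -/
theorem CM_mem (hn : Even n) {a : Fin n → ℝ} (ha : StrictMono a) {m : Fin (n + 1)} {f : ℚ[X]}
    (hf : f.map (algebraMap ℚ ℝ) = ∏ i, (X - C (a i))) {t : ℚ} (ht : InGap a m (t : ℝ)) :
    CM a m (t : ℝ) * ((-1 / 2 : ℂ) • (Qp n f).map (aeval (t : ℂ))) * (CM a m (t : ℝ)).transpose =
      (2 * Real.pi * Complex.I : ℂ) • jm ℂ n := by
  have h1 := RM_legC hn ha hf ht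
  have h2 : (((t : ℚ) : ℝ) : ℂ) = ((t : ℚ) : ℂ) := by simp
  rw [h2] at h1
  set Q := (Qp n f).map (aeval ((t : ℚ) : ℂ)) with hQ
  have h3 : ∀ r s, (CM a m (t : ℝ) * ((-1 / 2 : ℂ) • Q) * (CM a m (t : ℝ)).transpose) r s =
      (-1 / 2 : ℂ) * (dl r * dl s) * ((RM a m (t : ℝ)).map (algebraMap ℝ ℂ) * Q *
        ((RM a m (t : ℝ)).map (algebraMap ℝ ℂ)).transpose) r s := by
    intro r s
    rw [Matrix.mul_smul, Matrix.smul_mul, Matrix.smul_apply, smul_eq_mul, mul_assoc (-1 / 2 : ℂ) (dl r * dl s)]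
    congr 1
    simp only [Matrix.mul_apply, Matrix.transpose_apply, Finset.mul_sum, Finset.sum_mul, Matrix.map_apply,
      CM_apply hn ha ht]
    refine Finset.sum_congr rfl fun i _ => Finset.sum_congr rfl fun j _ => ?_
    show dl r * ((RM a m (t : ℝ) r j : ℝ) : ℂ) * Q j i * (dl s * ((RM a m (t : ℝ) s i : ℝ) : ℂ)) =
      dl r * dl s * (((RM a m (t : ℝ) r j : ℝ) : ℂ) * Q j i * ((RM a m (t : ℝ) s i : ℝ) : ℂ))
    ring
  ext r s
  rw [h3, h1, Matrix.smul_apply, Matrix.smul_apply, jm_apply, smul_eq_mul, smul_eq_mul]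
  by_cases h : (r : ℕ) = s + 1 ∨ (s : ℕ) = r + 1
  · rw [if_pos h, dl_mul h]
    ring
  · rw [if_neg h, mul_zero, mul_zero, mul_zero]

/-- relations of bounded degree and size over number fields of bounded degree -/
def BG (F : Fin N → ℚ[X]) (c : Option (Fin N × Fin n × Fin n) → ℂ) (D d : ℕ) (H ε : ℝ) : Prop :=
  ∀ (K : Type) [Field K] [NumberField K] (φ : K →+* ℂ) (P : MvPolynomial (Option (Fin N × Fin n × Fin n)) (𝓞 K)),
    Module.finrank ℚ K ≤ D → P.totalDegree ≤ d →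
    (∀ s (ψ : K →+* ℂ), ‖ψ (algebraMap (𝓞 K) K (P.coeff s))‖ ≤ H) →
    ‖(P.map (φ.comp (algebraMap (𝓞 K) K))).eval c‖ ≤ ε →
    ∀ x ∈ TorF (n := n) F, (P.map (φ.comp (algebraMap (𝓞 K) K))).eval (pt x.1 x.2) = 0

theorem fin_main (hn : Even n) (hN : 1 ≤ N) (a : Fin N → Fin n → ℝ) (f : Fin N → ℚ[X])
    (hf : ∀ j, (f j).map (algebraMap ℚ ℝ) = ∏ i, (X - C (a j i))) (m : Fin N → Fin (n + 1)) (α β : Fin N → ℝ)
    (hαβ : ∀ j, α j < β j) (hgap : ∀ j, ∀ t ∈ Set.Icc (α j) (β j), StrictMono (er (a j) (m j) t))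
    (D d : ℕ) (A : ℝ) :
    ∃ γ B M : ℝ, γ < 2 ∧ ∀ T : ℝ, 1 ≤ T → ∃ S : Set (Fin N → ℚ), S.Finite ∧
      (S.ncard : ℝ) ≤ M * T ^ (2 * ((N : ℝ) - 1) + γ) ∧
      ∀ t : Fin N → ℚ, (∀ j, (t j : ℝ) ∈ Set.Icc (α j) (β j) ∧ ((t j).den : ℝ) ≤ T) →
        ((fun j => Matrix.of (cper (er (a j) (m j) (t j : ℝ)))), (2 * Real.pi * Complex.I : ℂ)) ∈
          TorF (n := n) (fun j => f j * (X - C (t j))) ∧
        (t ∉ S → BG (fun j => f j * (X - C (t j)))
          (pt (fun j => Matrix.of (cper (er (a j) (m j) (t j : ℝ)))) (2 * Real.pi * Complex.I)) D d (T ^ A) (T ^ (-B))) := by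
  have ha : ∀ j, StrictMono (a j) := fun j => (inGap_of_er (hgap j (α j) ⟨le_rfl, (hαβ j).le⟩)).1
  have hgap' : ∀ j, ∀ t ∈ Set.Icc (α j) (β j), InGap (a j) (m j) t := fun j t ht => (inGap_of_er (hgap j t ht)).2
  obtain ⟨γ, B, C, -, hγ, hmain⟩ := main2 hn hN a ha m f hf α β hαβ hgap' D d (max A 0) (le_max_right _ _)
  refine ⟨γ, B, C, hγ, fun T hT => ?_⟩
  obtain ⟨S, hS1, hS2, hS3⟩ := hmain T hT
  refine ⟨S, hS1, hS2, fun t ht => ⟨?_, fun hnot => ?_⟩⟩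
  · rw [TorF_eq]
    refine ⟨?_, fun j => CM_mem hn (ha j) (hf j) (hgap' j _ (ht j).1)⟩
    have := Complex.I_ne_zero
    have h2 : (Real.pi : ℂ) ≠ 0 := by exact_mod_cast Real.pi_ne_zero
    exact mul_ne_zero (mul_ne_zero two_ne_zero h2) this
  · intro K _ _ φ P hK hd hc hsmall x hx
    rw [TorF_eq] at hx
    have h1 := hS3 t ht hnot K hK φ P hd
      (fun s ψ => (hc s ψ).trans (Real.rpow_le_rpow_of_exponent_le hT (le_max_left _ _))) (by
        rw [MvPolynomial.aeval_eq_eval]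
        exact hsmall) x hx
    rw [MvPolynomial.aeval_eq_eval] at h1
    exact h1

end Pool.Agent.Y118.HP
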