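import Pool.Agent.Y118.HP.Ana

/-!
# Periods of hyperelliptic curves: real branch points
-/

set_option autoImplicit false

open Complex Set MeasureTheory Filter Topology

namespace Pool.Agent.Y118.HP

variable {n : ℕ}

/-- the factor at the point `e i` -/
noncomputable def rfac (e : Fin (n + 1) → ℝ) (l : Fin n) (i : Fin (n + 1)) (x : ℝ) : ℝ :=
  if i < l.castSucc then x - e i else if l.succ < i then e i - x else 1

/-- the product of the factors at the points other than the endpoints of the gap -/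
noncomputable def Wf (e : Fin (n + 1) → ℝ) (l : Fin n) (x : ℝ) : ℝ := ∏ i, rfac e l i x

/-- the parametrisation of the gap -/
noncomputable def xs (e : Fin (n + 1) → ℝ) (l : Fin n) (θ : ℝ) : ℝ :=
  e l.castSucc + (e l.succ - e l.castSucc) * Real.sin θ ^ 2

/-- the period as an integral over `[0, π/2]` -/
noncomputable def perT (e : Fin (n + 1) → ℝ) (l : Fin n) (j : ℕ) : ℝ :=
  ∫ θ in (0 : ℝ)..(Real.pi / 2), 2 * (xs e l θ ^ j / √(Wf e l (xs e l θ)))

theorem len_pos {e : Fin (n + 1) → ℝ} (he : StrictMono e) (l : Fin n) : 0 < e l.succ - e l.castSucc :=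
  sub_pos.2 (he Fin.castSucc_lt_succ)

theorem rfac_pos {e : Fin (n + 1) → ℝ} (he : StrictMono e) {l : Fin n} (i : Fin (n + 1)) {x : ℝ}
    (h1 : e l.castSucc ≤ x) (h2 : x ≤ e l.succ) : 0 < rfac e l i x := by
  unfold rfac
  split_ifs with h3 h4
  · have := he h3; linarith
  · have := he h4; linarith
  · exact one_pos

theorem Wf_pos {e : Fin (n + 1) → ℝ} (he : StrictMono e) {l : Fin n} {x : ℝ}
    (h1 : e l.castSucc ≤ x) (h2 : x ≤ e l.succ) : 0 < Wf e l x :=
  Finset.prod_pos fun i _ => rfac_pos he i h1 h2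

theorem xs_mem {e : Fin (n + 1) → ℝ} (he : StrictMono e) (l : Fin n) (θ : ℝ) :
    e l.castSucc ≤ xs e l θ ∧ xs e l θ ≤ e l.succ := by
  have h := len_pos he l
  have h1 := sin_sq_mem θ
  unfold xs
  constructor
  · nlinarith [mul_nonneg h.le h1.1]
  · nlinarith [mul_nonneg h.le (sub_nonneg.2 h1.2)]

theorem continuous_Wf (e : Fin (n + 1) → ℝ) (l : Fin n) : Continuous (Wf e l) := by
  unfold Wf
  refine continuous_finsetProd _ fun i _ => ?_
  unfold rfac
  split_ifs <;> fun_prop

theorem continuous_xs (e : Fin (n + 1) → ℝ) (l : Fin n) : Continuous (xs e l) := by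
  unfold xs; fun_prop

theorem prod_eq_Wf (e : Fin (n + 1) → ℝ) (he : StrictMono e) (l : Fin n) {x : ℝ}
    (h1 : e l.castSucc ≤ x) (h2 : x ≤ e l.succ) :
    |∏ i, (x - e i)| = (x - e l.castSucc) * (e l.succ - x) * Wf e l x := by
  classical
  have hne : l.castSucc ≠ l.succ := Fin.castSucc_lt_succ.ne
  have key : ∀ i : Fin (n + 1), |x - e i| = (if i = l.castSucc then x - e l.castSucc else 1) *
      (if i = l.succ then e l.succ - x else 1) * rfac e l i x := by
    intro i
    unfold rfac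
    rcases lt_trichotomy i l.castSucc with h | h | h
    · have h3 : e i < e l.castSucc := he h
      rw [if_pos h, if_neg h.ne, if_neg (h.trans Fin.castSucc_lt_succ).ne, abs_of_nonneg (by linarith)]
      ring
    · subst h
      rw [if_neg (lt_irrefl _), if_pos rfl, if_neg hne, if_neg (not_lt.2 Fin.castSucc_lt_succ.le),
        abs_of_nonneg (by linarith)]
      ring
    · have h' : l.succ ≤ i := by
        rw [Fin.le_def]; rw [Fin.lt_def] at h; simp at h ⊢; omega
      rcases eq_or_lt_of_le h' with h4 | h4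
      · subst h4
        rw [if_neg hne.symm, if_pos rfl, if_neg (not_lt.2 Fin.castSucc_lt_succ.le), if_neg (lt_irrefl _),
          abs_of_nonpos (by linarith)]
        ring
      · have h5 : e l.succ < e i := he h4
        rw [if_neg h.ne', if_neg h4.ne', if_neg (not_lt.2 h.le), if_pos h4, abs_of_nonpos (by linarith)]
        ring
  rw [Finset.abs_prod, Finset.prod_congr rfl fun i _ => key i, Finset.prod_mul_distrib,
    Finset.prod_mul_distrib, Finset.prod_ite_eq' Finset.univ l.castSucc, Finset.prod_ite_eq' Finset.univ l.succ]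
  simp [Wf]

theorem hasDerivAt_xs (e : Fin (n + 1) → ℝ) (l : Fin n) (θ : ℝ) :
    HasDerivAt (xs e l) ((e l.succ - e l.castSucc) * (2 * Real.sin θ * Real.cos θ)) θ := by
  unfold xs
  have h1 := (Real.hasDerivAt_sin θ).pow 2
  have h2 := (h1.const_mul (e l.succ - e l.castSucc)).const_add (e l.castSucc)
  refine h2.congr_deriv ?_
  norm_num

theorem xs_sub (e : Fin (n + 1) → ℝ) (l : Fin n) (θ : ℝ) :
    (xs e l θ - e l.castSucc) * (e l.succ - xs e l θ) =
      ((e l.succ - e l.castSucc) * (Real.sin θ * Real.cos θ)) ^ 2 := by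
  unfold xs
  have := Real.sin_sq_add_cos_sq θ
  have h2 : Real.cos θ ^ 2 = 1 - Real.sin θ ^ 2 := by linarith
  have : e l.succ - (e l.castSucc + (e l.succ - e l.castSucc) * Real.sin θ ^ 2) =
      (e l.succ - e l.castSucc) * Real.cos θ ^ 2 := by rw [h2]; ring
  rw [this]
  ring

theorem injOn_xs {e : Fin (n + 1) → ℝ} (he : StrictMono e) (l : Fin n) :
    InjOn (xs e l) (Ioo 0 (Real.pi / 2)) := by
  intro θ hθ θ' hθ' h
  unfold xs at h
  have hL := len_pos he l
  have h1 : Real.sin θ ^ 2 = Real.sin θ' ^ 2 := by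
    have := add_left_cancel h
    exact mul_left_cancel₀ hL.ne' this
  have hp : 0 < Real.pi := Real.pi_pos
  have s1 : 0 < Real.sin θ := Real.sin_pos_of_pos_of_lt_pi hθ.1 (by linarith [hθ.2])
  have s2 : 0 < Real.sin θ' := Real.sin_pos_of_pos_of_lt_pi hθ'.1 (by linarith [hθ'.2])
  have h2 : Real.sin θ = Real.sin θ' := by
    have := (sq_eq_sq₀ s1.le s2.le).1 h1
    exact this
  exact Real.injOn_sin ⟨by linarith [hθ.1], hθ.2.le⟩ ⟨by linarith [hθ'.1], hθ'.2.le⟩ h2

theorem image_xs {e : Fin (n + 1) → ℝ} (he : StrictMono e) (l : Fin n) :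
    xs e l '' (Ioo 0 (Real.pi / 2)) = Ioo (e l.castSucc) (e l.succ) := by
  have hL := len_pos he l
  have hp : 0 < Real.pi := Real.pi_pos
  apply Subset.antisymm
  · rintro _ ⟨θ, hθ, rfl⟩
    have s1 : 0 < Real.sin θ := Real.sin_pos_of_pos_of_lt_pi hθ.1 (by linarith [hθ.2])
    have c1 : 0 < Real.cos θ := Real.cos_pos_of_mem_Ioo ⟨by linarith [hθ.1], hθ.2⟩
    have h2 : Real.sin θ ^ 2 < 1 := by nlinarith [Real.sin_sq_add_cos_sq θ]
    unfold xs
    constructor
    · nlinarith [mul_pos hL (pow_pos s1 2)]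
    · nlinarith [mul_pos hL (sub_pos.2 h2)]
  · intro x hx
    set u := (x - e l.castSucc) / (e l.succ - e l.castSucc) with hu
    have hu0 : 0 < u := div_pos (by linarith [hx.1]) hL
    have hu1 : u < 1 := by rw [hu, div_lt_one hL]; linarith [hx.2]
    have hs0 : 0 < √u := Real.sqrt_pos.2 hu0
    have hs1 : √u < 1 := by rw [Real.sqrt_lt' one_pos]; simpa using hu1
    refine ⟨Real.arcsin (√u), ⟨Real.arcsin_pos.2 hs0, ?_⟩, ?_⟩
    · rw [Real.arcsin_lt_pi_div_two]; exact hs1
    · unfold xs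
      rw [Real.sin_arcsin (by linarith) hs1.le, Real.sq_sqrt hu0.le, hu]
      field_simp
      ring

theorem per_eq_perT {e : Fin (n + 1) → ℝ} (he : StrictMono e) (l j : Fin n) :
    per e l j = perT e l (j : ℕ) := by
  have hL := len_pos he l
  have hp : 0 < Real.pi := Real.pi_pos
  unfold per perT
  rw [intervalIntegral.integral_of_le (he Fin.castSucc_lt_succ).le,
    intervalIntegral.integral_of_le (by positivity : (0 : ℝ) ≤ Real.pi / 2), integral_Ioc_eq_integral_Ioo,
    integral_Ioc_eq_integral_Ioo, ← image_xs he l,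
    integral_image_eq_integral_abs_deriv_smul measurableSet_Ioo
      (fun θ _ => (hasDerivAt_xs e l θ).hasDerivWithinAt) (injOn_xs he l)]
  refine setIntegral_congr_fun measurableSet_Ioo fun θ hθ => ?_
  have s1 : 0 < Real.sin θ := Real.sin_pos_of_pos_of_lt_pi hθ.1 (by linarith [hθ.2])
  have c1 : 0 < Real.cos θ := Real.cos_pos_of_mem_Ioo ⟨by linarith [hθ.1], hθ.2⟩
  have hx := xs_mem he l θ
  have hW := Wf_pos he hx.1 hx.2
  simp only [smul_eq_mul]
  rw [prod_eq_Wf e he l hx.1 hx.2, xs_sub, Real.sqrt_mul (sq_nonneg _), Real.sqrt_sq (by positivity),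
    abs_of_pos (by positivity)]
  have hW' : √(Wf e l (xs e l θ)) ≠ 0 := (Real.sqrt_pos.2 hW).ne'
  field_simp

theorem perC_eq_perT {e : Fin (n + 1) → ℝ} (he : StrictMono e) (l : Fin n) (j : ℕ) :
    perC (fun i => (e i : ℂ)) l j = (perT e l j : ℂ) := by
  unfold perC perT
  rw [← intervalIntegral.integral_ofReal]
  refine intervalIntegral.integral_congr fun θ _ => ?_
  have hx := xs_mem he l θ
  have hW := Wf_pos he hx.1 hx.2
  have hseg : seg (e l.castSucc : ℂ) (e l.succ : ℂ) (Real.sin θ ^ 2) = ((xs e l θ : ℝ) : ℂ) := by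
    unfold seg xs
    push_cast
    ring
  simp only
  rw [hseg]
  unfold ker
  have hfac : ∀ i, fac (fun i => (e i : ℂ)) l i ((xs e l θ : ℝ) : ℂ) = (((rfac e l i (xs e l θ)) ^ (-(1 / 2) : ℝ) : ℝ) : ℂ) := by
    intro i
    have hpos := rfac_pos he (l := l) i hx.1 hx.2
    rw [ofReal_cpow hpos.le]
    unfold fac rfac
    have : ((-(1 / 2) : ℝ) : ℂ) = (-(1 / 2) : ℂ) := by push_cast; ring
    rw [this]
    split_ifs
    · push_cast; rfl
    · push_cast; rfl
    · simp
  rw [Finset.prod_congr rfl fun i _ => hfac i, ← ofReal_prod,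
    Real.finsetProd_rpow _ _ (fun i _ => (rfac_pos he i hx.1 hx.2).le)]
  have : (∏ i, rfac e l i (xs e l θ)) ^ (-(1 / 2) : ℝ) = (√(Wf e l (xs e l θ)))⁻¹ := by
    rw [Real.rpow_neg (by exact hW.le), ← Real.sqrt_eq_rpow]
    rfl
  rw [this]
  push_cast
  ring

/-- the real points with `t` inserted -/
noncomputable def er (a : Fin n → ℝ) (m : Fin (n + 1)) (t : ℝ) : Fin (n + 1) → ℝ :=
  Fin.insertNth (α := fun _ => ℝ) m t a

theorem ee_ofReal (a : Fin n → ℝ) (m : Fin (n + 1)) (t : ℝ) : ee a m (t : ℂ) = fun i => ((er a m t i : ℝ) : ℂ) := by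
  funext i
  rcases Fin.eq_self_or_eq_succAbove m i with rfl | ⟨i', rfl⟩
  · simp [ee, er]
  · simp [ee, er]

theorem er_strictMono {a : Fin n → ℝ} (ha : StrictMono a) {m : Fin (n + 1)} {t : ℝ} (h : InGap a m t) :
    StrictMono (er a m t) := by
  intro i k hik
  rcases Fin.eq_self_or_eq_succAbove m i with rfl | ⟨i', rfl⟩
  · rcases Fin.eq_self_or_eq_succAbove i k with h1 | ⟨k', rfl⟩
    · exact absurd h1 hik.ne'
    · simp only [er, Fin.insertNth_apply_same, Fin.insertNth_apply_succAbove]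
      exact (h k').2 ((Fin.lt_succAbove_iff_le_castSucc _ _).1 hik)
  · rcases Fin.eq_self_or_eq_succAbove m k with rfl | ⟨k', rfl⟩
    · simp only [er, Fin.insertNth_apply_same, Fin.insertNth_apply_succAbove]
      exact (h i').1 ((Fin.succAbove_lt_iff_castSucc_lt _ _).1 hik)
    · simp only [er, Fin.insertNth_apply_succAbove]
      exact ha ((Fin.succAbove_lt_succAbove_iff).1 hik)

theorem perC_eq_per {a : Fin n → ℝ} (ha : StrictMono a) {m : Fin (n + 1)} {t : ℝ} (h : InGap a m t) (l j : Fin n) :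
    perC (ee a m (t : ℂ)) l (j : ℕ) = (per (er a m t) l j : ℂ) := by
  rw [ee_ofReal, perC_eq_perT (er_strictMono ha h), per_eq_perT (er_strictMono ha h)]

theorem prod_er (a : Fin n → ℝ) (m : Fin (n + 1)) (t : ℝ) :
    (∏ i, (Polynomial.X - Polynomial.C (er a m t i)) : Polynomial ℝ) =
      (∏ i, (Polynomial.X - Polynomial.C (a i))) * (Polynomial.X - Polynomial.C t) := by
  rw [Fin.prod_univ_succAbove _ m, mul_comm]
  simp [er]

/-- analyticity of the real periods in the moving branch point -/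
theorem per_analytic {a : Fin n → ℝ} (ha : StrictMono a) (m : Fin (n + 1)) (l j : Fin n) {t : ℝ}
    (h : InGap a m t) : AnalyticAt ℝ (fun t => per (er a m t) l j) t := by
  have h1 : AnalyticAt ℂ (fun z => perC (ee a m z) l (j : ℕ)) (t : ℂ) :=
    (differentiableOn_perC ha m l (j : ℕ)).analyticOnNhd (isOpen_Dm a m) _ h.mem_Dm
  have h2 : AnalyticAt ℝ (fun t : ℝ => perC (ee a m (t : ℂ)) l (j : ℕ)) t :=
    AnalyticAt.comp (g := fun z => perC (ee a m z) l (j : ℕ)) (f := fun t : ℝ => (t : ℂ))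
      (h1.restrictScalars (𝕜 := ℝ)) (ofRealCLM.analyticAt t)
  have h3 : AnalyticAt ℝ (fun t : ℝ => (perC (ee a m (t : ℂ)) l (j : ℕ)).re) t :=
    AnalyticAt.comp (g := fun z : ℂ => z.re) (f := fun t : ℝ => perC (ee a m (t : ℂ)) l (j : ℕ))
      (reCLM.analyticAt _) h2
  refine h3.congr ?_
  have hopen : ∀ᶠ s in 𝓝 t, InGap a m s := by
    have h4 : IsOpen {s : ℝ | InGap a m s} := by
      have : {s : ℝ | InGap a m s} = ⋂ i : Fin n, ({s : ℝ | i.castSucc < m → a i < s} ∩
          {s : ℝ | m ≤ i.castSucc → s < a i}) := by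
        ext s; simp [InGap]
      rw [this]
      refine isOpen_iInter_of_finite fun i => IsOpen.inter ?_ ?_
      · by_cases h5 : i.castSucc < m
        · simp only [h5, true_imp_iff]; exact isOpen_Ioi
        · simp only [h5, false_imp_iff]; exact isOpen_univ
      · by_cases h5 : m ≤ i.castSucc
        · simp only [h5, true_imp_iff]; exact isOpen_Iio
        · simp only [h5, false_imp_iff]; exact isOpen_univ
    exact h4.mem_nhds h
  filter_upwards [hopen] with s hs
  rw [perC_eq_per ha hs, ofReal_re]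

end Pool.Agent.Y118.HP
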