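import Pool.Agent.Y118.HP.Alg4

/-!
# Normal form of a polynomial on a product of torsors
-/

set_option autoImplicit false

open Matrix Polynomial

namespace Pool.Agent.Y118.HP

variable {n N : ℕ}

/-- the point with coordinates the entries of the matrices `X j` and `lam` -/
def pt {K : Type*} (X : Fin N → Matrix (Fin n) (Fin n) K) (lam : K) : Option (Fin N × Fin n × Fin n) → K :=
  fun o => o.elim lam fun x => X x.1 x.2.1 x.2.2

/-- the exponents of the `j`-th matrix -/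
def sj (s : Option (Fin N × Fin n × Fin n) → ℕ) (j : Fin N) : Fin n × Fin n → ℕ := fun x => s (some (j, x.1, x.2))

theorem prod_pt {K : Type*} [CommRing K] (X : Fin N → Matrix (Fin n) (Fin n) K) (lam : K)
    (s : Option (Fin N × Fin n × Fin n) → ℕ) :
    ∏ o, pt X lam o ^ s o = lam ^ s none * ∏ j, mnm (X j) (sj s j) := by
  rw [Fintype.prod_option]
  congr 1
  rw [Fintype.prod_prod_type]
  rfl

theorem dg_sj_le {s : Option (Fin N × Fin n × Fin n) →₀ ℕ} (j : Fin N) : dg (sj s j) ≤ s.degree := by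
  rw [Finsupp.degree_eq_sum, Fintype.sum_option, Fintype.sum_prod_type]
  have : dg (sj s j) ≤ ∑ j, ∑ y : Fin n × Fin n, s (some (j, y)) :=
    Finset.single_le_sum (f := fun j => ∑ y : Fin n × Fin n, s (some (j, y))) (fun _ _ => Nat.zero_le _)
      (Finset.mem_univ j)
  omega

theorem none_le {s : Option (Fin N × Fin n × Fin n) →₀ ℕ} : s none ≤ s.degree := Finsupp.le_degree _ _

/-- the data of the trivialisations -/
structure Dat (n N : ℕ) where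
  κ : Type
  [fin : Fintype κ]
  D : ℕ
  D1 : ℕ
  b : κ → Fin n × Fin n → ℕ
  w : (Fin n × Fin n → ℕ) → κ → ℚ
  hw1 : ∀ s, (∀ x, s x ≤ D) → ∀ g ∈ SpS ℂ n, mnm g s = ∑ k, (w s k : ℂ) * mnm g (b k)
  hw2 : ∀ s, (∀ x, s x ≤ D) → ∀ k, w s k ≠ 0 → Even (dg s + dg (b k))
  hD1 : D ≤ D1
  hb : ∀ k, dg (b k) ≤ D1
  f : Fin N → ℚ[X]
  c : Fin N → ℚ[X]
  U : Fin N → Matrix (Fin n) (Fin n) ℚ[X]
  V : Fin N → Matrix (Fin n) (Fin n) ℚ[X]
  hVU : ∀ j, V j * U j = c j ^ 2 • (1 : Matrix (Fin n) (Fin n) ℚ[X])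
  hVJ : ∀ j, V j * jm ℚ[X] n * (V j).transpose = c j ^ 2 • Qp n (f j)

attribute [instance] Dat.fin

namespace Dat

variable (Δ : Dat n N)

/-- the bound for the exponent of `lam` -/
def E : ℕ := Δ.D + N * (2 * Δ.D1)

/-- the exponent of `lam` -/
def ex (s : Option (Fin N × Fin n × Fin n) → ℕ) (e : Fin N → Δ.κ) : ℕ :=
  s none + ∑ j, exo Δ.D1 (dg (sj s j)) (dg (Δ.b (e j)))

/-- the values of the coefficients -/
noncomputable def zv (j : Fin N) (s : Fin n × Fin n → ℕ) (k : Δ.κ) (t : ℚ) : ℚ :=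
  (zc (Δ.c j) (Δ.U j) Δ.D1 Δ.b Δ.w s k).eval t

/-- the coefficients of the normal form -/
noncomputable def Cf (P : MvPolynomial (Option (Fin N × Fin n × Fin n)) ℤ) (t : Fin N → ℚ)
    (e : (Fin N → Δ.κ) × Fin (Δ.E + 1)) : ℚ :=
  ∑ s ∈ P.support, if Δ.ex s e.1 = (e.2 : ℕ) then
    ((P.coeff s : ℤ) : ℚ) * ∏ j, Δ.zv j (sj s j) (e.1 j) (t j) else 0

theorem ex_le {s : Option (Fin N × Fin n × Fin n) →₀ ℕ} (hs : s.degree ≤ Δ.D) (e : Fin N → Δ.κ) :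
    Δ.ex s e ≤ Δ.E := by
  unfold ex E
  have h1 : ∑ j : Fin N, exo Δ.D1 (dg (sj s j)) (dg (Δ.b (e j))) ≤ ∑ _j : Fin N, 2 * Δ.D1 := by
    refine Finset.sum_le_sum fun j _ => ?_
    unfold exo
    have := dg_sj_le (s := s) j
    have := Δ.hD1
    omega
  rw [Finset.sum_const, Finset.card_univ, Fintype.card_fin, smul_eq_mul] at h1
  have := none_le (s := s)
  omega

theorem multi (P : MvPolynomial (Option (Fin N × Fin n × Fin n)) ℤ) (hP : P.totalDegree ≤ Δ.D) (t : Fin N → ℚ)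
    (hct : ∀ j, aeval (t j : ℂ) (Δ.c j) ≠ 0) {X : Fin N → Matrix (Fin n) (Fin n) ℂ} {lam : ℂ} (hlam : lam ≠ 0)
    (hX : ∀ j, X j * (Qp n (Δ.f j)).map (aeval (t j : ℂ)) * (X j).transpose = lam • jm ℂ n) :
    (∏ j, (aeval (t j : ℂ) (Δ.c j)) ^ (4 * Δ.D1 + 1)) * lam ^ (N * Δ.D1) * MvPolynomial.aeval (pt X lam) P =
      ∑ e, (Δ.Cf P t e : ℂ) * ((∏ j, (aeval (t j : ℂ) (Δ.c j) *
        mnm (X j * (Δ.V j).map (aeval (t j : ℂ))) (Δ.b (e.1 j)))) * lam ^ (e.2 : ℕ)) := by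
  classical
  set ct : Fin N → ℂ := fun j => aeval (t j : ℂ) (Δ.c j) with hctd
  set Y : Fin N → Δ.κ → ℂ := fun j k => ct j * mnm (X j * (Δ.V j).map (aeval (t j : ℂ))) (Δ.b k) with hY
  have hdeg : ∀ s ∈ P.support, s.degree ≤ Δ.D := by
    intro s hs
    have h1 := MvPolynomial.le_totalDegree hs
    have h2 : (s.sum fun _ e => e) = s.degree := rfl
    omega
  -- one monomial
  have hmon : ∀ s ∈ P.support, (∏ j, ct j ^ (4 * Δ.D1 + 1)) * lam ^ (N * Δ.D1) * ∏ o, pt X lam o ^ s o =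
      ∑ p : Fin N → Δ.κ, (∏ j, ((Δ.zv j (sj s j) (p j) (t j) : ℚ) : ℂ)) *
        lam ^ Δ.ex s p * ∏ j, Y j (p j) := by
    intro s hs
    have hsd := hdeg s hs
    rw [prod_pt]
    have h1 : (∏ j, ct j ^ (4 * Δ.D1 + 1)) * lam ^ (N * Δ.D1) * (lam ^ s none * ∏ j, mnm (X j) (sj s j)) =
        lam ^ s none * ∏ j, (ct j ^ (4 * Δ.D1 + 1) * lam ^ Δ.D1 * mnm (X j) (sj s j)) := by
      rw [Finset.prod_mul_distrib, Finset.prod_mul_distrib, Finset.prod_const, Finset.card_univ, Fintype.card_fin,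
        ← pow_mul, mul_comm Δ.D1 N]
      ring
    rw [h1]
    have h2 : ∀ j, ct j ^ (4 * Δ.D1 + 1) * lam ^ Δ.D1 * mnm (X j) (sj s j) = ∑ k,
        aeval (t j : ℂ) (zc (Δ.c j) (Δ.U j) Δ.D1 Δ.b Δ.w (sj s j) k) * lam ^ exo Δ.D1 (dg (sj s j)) (dg (Δ.b k)) *
          Y j k := by
      intro j
      exact single Δ.hw1 Δ.hw2 Δ.hD1 Δ.hb (Δ.hVU j) (Δ.hVJ j) (hct j) hlam (hX j) ((dg_sj_le j).trans hsd)
    rw [Finset.prod_congr rfl fun j _ => h2 j, Finset.prod_univ_sum, Fintype.piFinset_univ, Finset.mul_sum]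
    refine Finset.sum_congr rfl fun p _ => ?_
    rw [Finset.prod_mul_distrib, Finset.prod_mul_distrib, Finset.prod_pow_eq_pow_sum]
    unfold ex
    rw [pow_add]
    have h3 : ∀ j, aeval (t j : ℂ) (zc (Δ.c j) (Δ.U j) Δ.D1 Δ.b Δ.w (sj s j) (p j)) =
        ((Δ.zv j (sj s j) (p j) (t j) : ℚ) : ℂ) := by
      intro j
      unfold zv
      have := Polynomial.aeval_algebraMap_apply ℂ (t j) (zc (Δ.c j) (Δ.U j) Δ.D1 Δ.b Δ.w (sj s j) (p j))
      simpa using this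
    simp only [h3]
    ring
  have hPe : MvPolynomial.aeval (pt X lam) P = ∑ s ∈ P.support, ((P.coeff s : ℤ) : ℂ) * ∏ o, pt X lam o ^ s o := by
    rw [MvPolynomial.aeval_def, MvPolynomial.eval₂_eq']
    rfl
  rw [hPe, Finset.mul_sum]
  have h4 : ∀ s ∈ P.support, (∏ j, ct j ^ (4 * Δ.D1 + 1)) * lam ^ (N * Δ.D1) *
      (((P.coeff s : ℤ) : ℂ) * ∏ o, pt X lam o ^ s o) = ∑ p : Fin N → Δ.κ, ((P.coeff s : ℤ) : ℂ) *
        ((∏ j, ((Δ.zv j (sj s j) (p j) (t j) : ℚ) : ℂ)) *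
        lam ^ Δ.ex s p * ∏ j, Y j (p j)) := by
    intro s hs
    rw [← Finset.mul_sum, ← hmon s hs]
    ring
  rw [Finset.sum_congr rfl h4, Finset.sum_comm, Fintype.sum_prod_type]
  refine Finset.sum_congr rfl fun p _ => ?_
  unfold Cf
  push_cast
  simp only [Finset.sum_mul]
  rw [Finset.sum_comm]
  refine Finset.sum_congr rfl fun s hs => ?_
  have h5 : ∀ e : Fin (Δ.E + 1), (((if Δ.ex s p = (e : ℕ) then ((P.coeff s : ℤ) : ℚ) *
      ∏ j, Δ.zv j (sj s j) (p j) (t j) else 0 : ℚ)) : ℂ) *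
      ((∏ j, (ct j * mnm (X j * (Δ.V j).map (aeval (t j : ℂ))) (Δ.b (p j)))) * lam ^ (e : ℕ)) =
      if (⟨Δ.ex s p, Nat.lt_succ_of_le (Δ.ex_le (hdeg s hs) p)⟩ : Fin (Δ.E + 1)) = e then ((P.coeff s : ℤ) : ℂ) *
        ((∏ j, ((Δ.zv j (sj s j) (p j) (t j) : ℚ) : ℂ)) *
        lam ^ Δ.ex s p * ∏ j, Y j (p j)) else 0 := by
    intro e
    by_cases he : Δ.ex s p = (e : ℕ)
    · rw [if_pos he, if_pos (Fin.ext he), he]
      push_cast
      ring
    · rw [if_neg he, if_neg (fun h => he (congrArg Fin.val h)), Rat.cast_zero, zero_mul]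
  refine Eq.trans ?_ (Finset.sum_congr rfl fun e _ => (h5 e).symm)
  rw [Finset.sum_ite_eq Finset.univ]
  simp

end Dat

end Pool.Agent.Y118.HP
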