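import Pool.Agent.Y118.HP.Sp

/-!
# The relation ideal is invariant under the symplectic group, III: real intervals
-/

set_option autoImplicit false

open Complex Set Filter Topology Matrix

namespace Pool.Agent.Y118.HP

variable {n : ℕ}

/-- identity theorem, with zeros on a real interval -/
theorem eq_zero_of_real {a : Fin n → ℝ} (ha : StrictMono a) (m : Fin (n + 1)) {f : ℂ → ℂ}
    (hf : DifferentiableOn ℂ f (Dm a m)) {α β : ℝ} (hαβ : α < β) (hgap : ∀ t ∈ Icc α β, InGap a m t)
    (h : ∀ t ∈ Icc α β, f (t : ℂ) = 0) : ∀ z ∈ Dm a m, f z = 0 := by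
  have h1 := hf.analyticOnNhd (isOpen_Dm a m)
  have hα : (α : ℂ) ∈ Dm a m := (hgap α ⟨le_rfl, hαβ.le⟩).mem_Dm
  refine h1.eqOn_zero_of_preconnected_of_frequently_eq_zero (isPreconnected_Dm ha m) hα ?_
  have h2 : Tendsto (fun t : ℝ => (t : ℂ)) (𝓝[>] α) (𝓝[≠] (α : ℂ)) := by
    refine tendsto_nhdsWithin_iff.2 ⟨?_, ?_⟩
    · exact (continuous_ofReal.tendsto α).mono_left nhdsWithin_le_nhds
    · filter_upwards [self_mem_nhdsWithin] with t ht
      simp only [mem_compl_iff, mem_singleton_iff, ofReal_inj]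
      exact (ne_of_gt ht)
  refine h2.frequently ?_
  refine Eventually.frequently ?_
  filter_upwards [Ioo_mem_nhdsGT hαβ] with t ht
  exact h t ⟨ht.1.le, ht.2.le⟩

/-- a relation between the periods on an interval is invariant under the symplectic group -/
theorem func_inv (hn : Even n) {a : Fin n → ℝ} (ha : StrictMono a) (m : Fin (n + 1))
    (P : MvPolynomial (Option (Fin n × Fin n)) ℂ) {α β : ℝ} (hαβ : α < β) (hgap : ∀ t ∈ Icc α β, InGap a m t)
    (hP : ∀ t ∈ Icc α β, ev P (t : ℂ) (PM a m t) = 0)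
    (g : Matrix (Fin n) (Fin n) ℂ) (hg : g * jm ℂ n * g.transpose = jm ℂ n) :
    ∀ z ∈ Dm a m, ev P z (g * PM a m z) = 0 := by
  have hId : P ∈ Id a m := eq_zero_of_real ha m (differentiableOn_ev ha m P) hαβ hgap hP
  have hM := sp_mem hn ha m g hg
  intro z hz
  have := hM P hId z hz
  rwa [ev_sb] at this

end Pool.Agent.Y118.HP
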