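import Pool.Agent.Y118.HP.Mono

/-!
# The relation ideal is invariant under the symplectic group, II
-/

set_option autoImplicit false

open Complex Set Filter Topology Matrix

namespace Pool.Agent.Y118.HP

section jm

variable {K : Type*} [Field K] {n : ℕ}

theorem jm_apply (r s : Fin n) :
    jm K n r s = if (r : ℕ) = s + 1 ∨ (s : ℕ) = r + 1 then -(-1) ^ (r : ℕ) else 0 := rfl

theorem jm_symm (r s : Fin n) : jm K n s r = -jm K n r s := by
  rw [jm_apply, jm_apply]
  by_cases h : (r : ℕ) = s + 1 ∨ (s : ℕ) = r + 1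
  · rw [if_pos h, if_pos (by tauto)]
    rcases h with h | h
    · rw [h, pow_succ]; ring
    · rw [h, pow_succ]; ring
  · rw [if_neg h, if_neg (by tauto), neg_zero]

theorem jm_transpose : (jm K n).transpose = -jm K n := by
  ext r s
  rw [Matrix.transpose_apply, Matrix.neg_apply, jm_symm]

theorem jm_diag (r : Fin n) : jm K n r r = 0 := by
  rw [jm_apply, if_neg]; omega

/-- a vector as a sequence -/
def ext0 (v : Fin n → K) (i : ℕ) : K := if h : i < n then v ⟨i, h⟩ else 0

theorem jm_mulVec (v : Fin n → K) (r : Fin n) :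
    (jm K n *ᵥ v) r = -(-1) ^ (r : ℕ) * ((if (r : ℕ) = 0 then 0 else ext0 v (r - 1)) + ext0 v (r + 1)) := by
  rw [Matrix.mulVec, dotProduct]
  have h : ∀ s : Fin n, jm K n r s * v s =
      -(-1) ^ (r : ℕ) * ((if (r : ℕ) = s + 1 then v s else 0) + (if (s : ℕ) = r + 1 then v s else 0)) := by
    intro s
    rw [jm_apply]
    by_cases h1 : (r : ℕ) = s + 1
    · have h2 : ¬ (s : ℕ) = r + 1 := by omega
      rw [if_pos (Or.inl h1), if_pos h1, if_neg h2, add_zero]
    · by_cases h2 : (s : ℕ) = r + 1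
      · rw [if_pos (Or.inr h2), if_neg h1, if_pos h2, zero_add]
      · rw [if_neg (by tauto), if_neg h1, if_neg h2, add_zero, zero_mul, mul_zero]
  simp only [h]
  rw [← Finset.mul_sum, Finset.sum_add_distrib]
  congr 2
  · by_cases hr : (r : ℕ) = 0
    · rw [if_pos hr]
      refine Finset.sum_eq_zero fun s _ => ?_
      rw [if_neg]; omega
    · rw [if_neg hr]
      have hr' : (r : ℕ) - 1 < n := by have := r.2; omega
      rw [ext0, dif_pos hr', Finset.sum_eq_single (⟨(r : ℕ) - 1, hr'⟩ : Fin n)]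
      · rw [if_pos]; simp only; omega
      · intro s _ hs
        rw [if_neg]
        intro h2
        apply hs
        ext
        simp only; omega
      · simp
  · by_cases hr : (r : ℕ) + 1 < n
    · rw [ext0, dif_pos hr, Finset.sum_eq_single (⟨(r : ℕ) + 1, hr⟩ : Fin n)]
      · simp
      · intro s _ hs
        rw [if_neg]
        intro h2
        exact hs (Fin.ext h2)
      · simp
    · rw [ext0, dif_neg hr]
      refine Finset.sum_eq_zero fun s _ => ?_
      rw [if_neg]
      have := s.2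
      omega

theorem jm_det (hn : Even n) : (jm K n).det ≠ 0 := by
  intro h0
  obtain ⟨v, hv0, hv⟩ := Matrix.exists_mulVec_eq_zero_iff.2 h0
  apply hv0
  have hrel : ∀ r : ℕ, r < n → (if r = 0 then 0 else ext0 v (r - 1)) + ext0 v (r + 1) = 0 := by
    intro r hr
    have h1 := congrFun hv ⟨r, hr⟩
    rw [jm_mulVec] at h1
    simp only [Pi.zero_apply, mul_eq_zero, neg_eq_zero, pow_eq_zero_iff', one_ne_zero, ne_eq, false_and,
      false_or] at h1
    exact h1
  have hbig : ∀ i, n ≤ i → ext0 v i = 0 := fun i hi => by rw [ext0, dif_neg (not_lt.2 hi)]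
  have hodd : ∀ i, ext0 v (2 * i + 1) = 0 := by
    intro i
    induction i with
    | zero =>
      rcases Nat.eq_zero_or_pos n with h | h
      · exact hbig _ (by omega)
      · simpa using hrel 0 h
    | succ i ih =>
      by_cases h : 2 * i + 2 < n
      · have := hrel (2 * i + 2) h
        rw [if_neg (by omega)] at this
        have e1 : 2 * i + 2 - 1 = 2 * i + 1 := by omega
        rw [e1, ih, zero_add] at this
        exact this
      · exact hbig _ (by omega)
  obtain ⟨g, hg⟩ := hn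
  have heven : ∀ i, i ≤ g → ext0 v (n - 2 * i) = 0 := by
    intro i
    induction i with
    | zero => intro _; exact hbig _ (by omega)
    | succ i ih =>
      intro hi
      have h1 := ih (by omega)
      have h2 := hrel (n - 2 * i - 1) (by omega)
      rw [if_neg (by omega)] at h2
      have e1 : n - 2 * i - 1 + 1 = n - 2 * i := by omega
      have e2 : n - 2 * i - 1 - 1 = n - 2 * (i + 1) := by omega
      rw [e1, e2, h1, add_zero] at h2
      exact h2
  funext i
  have hi := i.2
  have key : ext0 v (i : ℕ) = 0 := by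
    rcases Nat.even_or_odd' (i : ℕ) with ⟨c, hc | hc⟩
    · have := heven (g - c) (by omega)
      have e : n - 2 * (g - c) = i := by omega
      rwa [e] at this
    · rw [hc]; exact hodd c
  rw [ext0, dif_pos hi] at key
  exact key

end jm

variable {n : ℕ}

/-- transvections -/
noncomputable def TV (v : Fin n → ℂ) (s : ℂ) : Matrix (Fin n) (Fin n) ℂ :=
  1 + s • vecMulVec (jm ℂ n *ᵥ v) v

/-- the bilinear form -/
noncomputable def om (u v : Fin n → ℂ) : ℂ := u ⬝ᵥ (jm ℂ n *ᵥ v)

theorem om_skew (u v : Fin n → ℂ) : om v u = -om u v := by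
  unfold om
  have h1 : v ⬝ᵥ (jm ℂ n *ᵥ u) = u ⬝ᵥ ((jm ℂ n).transpose *ᵥ v) := by
    rw [mulVec_transpose, dotProduct_comm u, ← dotProduct_mulVec]
  rw [h1, jm_transpose, neg_mulVec, dotProduct_neg]

theorem om_self (u : Fin n → ℂ) : om u u = 0 := by
  have h := om_skew u u
  have : (2 : ℂ) * om u u = 0 := by linear_combination h
  simpa using this

theorem TV_mulVec (u : Fin n → ℂ) (s : ℂ) (x : Fin n → ℂ) :
    TV u s *ᵥ x = x + (s * (u ⬝ᵥ x)) • (jm ℂ n *ᵥ u) := by
  unfold TV
  rw [add_mulVec, one_mulVec, smul_mulVec, vecMulVec_mulVec]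
  congr 1
  ext i
  simp
  ring

theorem vecMul_TV (u : Fin n → ℂ) (s : ℂ) (x : Fin n → ℂ) :
    x ᵥ* TV u s = x + (s * om x u) • u := by
  unfold TV om
  rw [vecMul_add, vecMul_one, vecMul_smul, vecMul_vecMulVec]
  congr 1
  ext i
  simp
  ring

theorem TV_mul_neg (u : Fin n → ℂ) (s : ℂ) : TV u s * TV u (-s) = 1 := by
  have h : vecMulVec (jm ℂ n *ᵥ u) u * vecMulVec (jm ℂ n *ᵥ u) u = 0 := by
    rw [vecMulVec_mul_vecMulVec]
    have := om_self u
    unfold om at this
    rw [this]
    simp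
  unfold TV
  rw [mul_add, add_mul, add_mul, mul_one, one_mul, mul_one, smul_mul_smul_comm, h, smul_zero, add_zero,
    neg_smul]
  abel

theorem TV_conj (u v : Fin n → ℂ) (s r : ℂ) :
    TV u s * TV v r * TV u (-s) = TV (v + (s * om u v) • u) r := by
  have h1 : TV v r = 1 + r • vecMulVec (jm ℂ n *ᵥ v) v := rfl
  rw [h1, mul_add, mul_one, add_mul, TV_mul_neg]
  have h2 : TV (v + (s * om u v) • u) r = 1 + r • vecMulVec (jm ℂ n *ᵥ (v + (s * om u v) • u))
    (v + (s * om u v) • u) := rfl
  rw [h2]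
  congr 1
  rw [mul_smul_comm, smul_mul_assoc, mul_vecMulVec, vecMulVec_mul, TV_mulVec, vecMul_TV]
  congr 2
  · rw [mulVec_add, mulVec_smul]
    rfl
  · rw [om_skew u v]
    congr 2
    ring

theorem TV_smul (v : Fin n → ℂ) (c s : ℂ) : TV (c • v) s = TV v (c ^ 2 * s) := by
  unfold TV
  rw [mulVec_smul, smul_vecMulVec, vecMulVec_smul, smul_smul, smul_smul]
  congr 2
  ring

theorem TV_single (k : Fin n) (s : ℂ) : TV (Pi.single k 1) s = Tk k ((-1) ^ (k : ℕ) * s) := by
  unfold TV Tk
  congr 1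
  ext l c
  rw [Matrix.smul_apply, Matrix.smul_apply, vecMulVec_apply, mulVec_single_one]
  unfold Nk
  rw [Matrix.of_apply]
  by_cases hc : c = k
  · subst hc
    rw [Pi.single_eq_same]
    show s • ((jm ℂ n) l c * 1) = _
    rw [jm_apply]
    by_cases h : (l : ℕ) + 1 = c ∨ (l : ℕ) = c + 1
    · rw [if_pos (by tauto), if_pos ⟨rfl, h⟩]
      simp only [smul_eq_mul]
      rcases h with h | h
      · rw [← h, pow_succ]; ring
      · rw [h, pow_succ]; ring
    · rw [if_neg (by tauto), if_neg (by tauto)]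
      simp
  · rw [Pi.single_eq_of_ne hc, if_neg (by tauto)]
    simp

/-- the vectors whose transvections preserve the relations -/
def VV (a : Fin n → ℝ) (m : Fin (n + 1)) : Set (Fin n → ℂ) := {v | ∀ s, TV v s ∈ Mon a m}

theorem single_mem {a : Fin n → ℝ} (ha : StrictMono a) (m : Fin (n + 1)) (k : Fin n) :
    (Pi.single k 1 : Fin n → ℂ) ∈ VV a m := by
  intro s
  rw [TV_single]
  exact Tk_mem ha m k _

theorem smul_mem {a : Fin n → ℝ} {m : Fin (n + 1)} {v : Fin n → ℂ} (hv : v ∈ VV a m) (c : ℂ) :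
    c • v ∈ VV a m := by
  intro s
  rw [TV_smul]
  exact hv _

theorem add_mem' {a : Fin n → ℝ} {m : Fin (n + 1)} {u v : Fin n → ℂ} (hu : u ∈ VV a m) (hv : v ∈ VV a m)
    (h : om u v ≠ 0) (c : ℂ) : v + c • u ∈ VV a m := by
  intro r
  have h1 := TV_conj u v (c / om u v) r
  rw [div_mul_cancel₀ _ h] at h1
  rw [← h1]
  exact mul_mem (mul_mem (hu _) (hv _)) (hu _)

theorem closed_mem {a : Fin n → ℝ} {m : Fin (n + 1)} {v w : Fin n → ℂ}
    (h : ∀ c : ℂ, c ≠ 0 → v + c • w ∈ VV a m) : v ∈ VV a m := by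
  intro s
  set M : Matrix (Fin n) (Fin n) (Polynomial ℂ) :=
    1 + (Polynomial.C s : Polynomial ℂ) • vecMulVec
      (fun l => Polynomial.C ((jm ℂ n *ᵥ v) l) + Polynomial.X * Polynomial.C ((jm ℂ n *ᵥ w) l))
      (fun l => Polynomial.C (v l) + Polynomial.X * Polynomial.C (w l)) with hM
  have hMe : ∀ c : ℂ, M.map (Polynomial.eval c) = TV (v + c • w) s := by
    intro c
    ext l k
    unfold TV
    rw [hM]
    simp only [Matrix.map_apply, Matrix.add_apply, Matrix.smul_apply, smul_eq_mul, vecMulVec_apply,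
      Polynomial.eval_add, Polynomial.eval_mul, Polynomial.eval_X, Polynomial.eval_C, mulVec_add, mulVec_smul,
      Pi.add_apply, Pi.smul_apply]
    congr 1
    rw [Matrix.one_apply, Matrix.one_apply]
    split_ifs <;> simp
  have h1 := poly_family (a := a) (m := m) M (S := {c | c ≠ 0}) (by
    have : ({c : ℂ | c ≠ 0}) = ({0} : Set ℂ)ᶜ := by ext; simp
    rw [this]
    exact (Set.finite_singleton (0 : ℂ)).infinite_compl) (fun c hc => by rw [hMe]; exact h c hc s) 0
  rw [hMe] at h1
  simpa using h1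

theorem om_single (v : Fin n → ℂ) (k : Fin n) : om (Pi.single k 1) v = (jm ℂ n *ᵥ v) k := by
  unfold om
  rw [single_one_dotProduct]

theorem supp_mem {a : Fin n → ℝ} (ha : StrictMono a) (m : Fin (n + 1)) (r : ℕ) :
    r ≤ n → ∀ v : Fin n → ℂ, (∀ i : Fin n, r ≤ i → v i = 0) → v ∈ VV a m := by
  induction r with
  | zero =>
    intro _ v hv s
    have : v = 0 := by funext i; exact hv i (Nat.zero_le _)
    rw [this]
    have h2 : TV (0 : Fin n → ℂ) s = 1 := by unfold TV; simp
    rw [h2]
    exact one_mem _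
  | succ r ih =>
    intro hr v hv
    have hrn : r < n := hr
    set k : Fin n := ⟨r, hrn⟩ with hk
    -- the first part
    set w : Fin n → ℂ := fun i => if (i : ℕ) < r then v i else 0 with hw
    have hvw : v = w + v k • (Pi.single k 1 : Fin n → ℂ) := by
      funext i
      rw [hw]
      simp only [Pi.add_apply, Pi.smul_apply, smul_eq_mul]
      rcases lt_trichotomy (i : ℕ) r with h | h | h
      · have : i ≠ k := by intro hh; rw [hh] at h; simp [hk] at h
        rw [if_pos h, Pi.single_eq_of_ne this]; ring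
      · have : i = k := Fin.ext h
        rw [if_neg (by omega), this, Pi.single_eq_same]; ring
      · have : i ≠ k := by intro hh; rw [hh] at h; simp [hk] at h
        rw [if_neg (by omega), Pi.single_eq_of_ne this, hv i h]; ring
    have hwV : w ∈ VV a m := ih (by omega) w fun i hi => by rw [hw]; simp only; rw [if_neg (by omega)]
    have hsk := single_mem ha m k
    rw [hvw]
    rcases Nat.eq_zero_or_pos r with h0 | hpos
    · have hw0 : w = 0 := by
        funext i; rw [hw]; simp only; rw [if_neg (by omega)]; rfl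
      rw [hw0, zero_add]
      exact smul_mem hsk _
    · -- the previous basis vector
      set k' : Fin n := ⟨r - 1, by omega⟩ with hk'
      have hk'V := single_mem ha m k'
      have homk : om (Pi.single k 1) (Pi.single k' 1 : Fin n → ℂ) ≠ 0 := by
        rw [om_single, mulVec_single_one]
        show jm ℂ n k k' ≠ 0
        rw [jm_apply, if_pos (by left; simp [hk, hk']; omega)]
        simp
      have hlin : ∀ c : ℂ, om (Pi.single k 1) (w + c • (Pi.single k' 1 : Fin n → ℂ)) =
          om (Pi.single k 1) w + c * om (Pi.single k 1) (Pi.single k' 1 : Fin n → ℂ) := by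
        intro c
        unfold om
        rw [mulVec_add, mulVec_smul, dotProduct_add, dotProduct_smul, smul_eq_mul]
      by_cases h1 : om (Pi.single k 1) w = 0
      · refine closed_mem (w := (Pi.single k' 1 : Fin n → ℂ)) fun c hc => ?_
        have h2 : w + c • (Pi.single k' 1 : Fin n → ℂ) ∈ VV a m := by
          refine ih (by omega) _ fun i hi => ?_
          have : i ≠ k' := by
            intro hh; rw [hh] at hi; simp [hk'] at hi; omega
          rw [hw]
          simp only [Pi.add_apply, Pi.smul_apply, smul_eq_mul]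
          rw [if_neg (by omega), Pi.single_eq_of_ne this]; ring
        have h3 : om (Pi.single k 1) (w + c • (Pi.single k' 1 : Fin n → ℂ)) ≠ 0 := by
          rw [hlin, h1, zero_add]
          exact mul_ne_zero hc homk
        have h4 := add_mem' hsk h2 h3 (v k)
        have e : w + v k • (Pi.single k 1 : Fin n → ℂ) + c • (Pi.single k' 1 : Fin n → ℂ) =
            w + c • (Pi.single k' 1 : Fin n → ℂ) + v k • (Pi.single k 1 : Fin n → ℂ) := by abel
        rw [e]
        exact h4
      · exact add_mem' hsk hwV h1 (v k)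

theorem all_mem {a : Fin n → ℝ} (ha : StrictMono a) (m : Fin (n + 1)) (v : Fin n → ℂ) : v ∈ VV a m :=
  supp_mem ha m n le_rfl v fun i hi => absurd i.2 (not_lt.2 hi)

/-- symplectic matrices preserve the relations -/
theorem sp_mem (hn : Even n) {a : Fin n → ℝ} (ha : StrictMono a) (m : Fin (n + 1))
    (g : Matrix (Fin n) (Fin n) ℂ) (hg : g * jm ℂ n * g.transpose = jm ℂ n) : g ∈ Mon a m := by
  have hdet : IsUnit (jm ℂ n).det := (jm_det hn).isUnit
  set ω : (Fin n → ℂ) →ₗ[ℂ] (Fin n → ℂ) →ₗ[ℂ] ℂ := Matrix.toLinearMap₂' ℂ (-(jm ℂ n)⁻¹) with hω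
  have hωa : ∀ u v, ω u v = -(u ⬝ᵥ ((jm ℂ n)⁻¹ *ᵥ v)) := by
    intro u v
    rw [hω, Matrix.toLinearMap₂'_apply', neg_mulVec, dotProduct_neg]
  have hJinvT : ((jm ℂ n)⁻¹).transpose = -(jm ℂ n)⁻¹ := by
    rw [transpose_nonsing_inv, jm_transpose]
    apply inv_eq_left_inv
    rw [neg_mul_neg, nonsing_inv_mul _ hdet]
  have h0 : ∀ v, ω v v = 0 := by
    intro v
    have h1 : v ⬝ᵥ ((jm ℂ n)⁻¹ *ᵥ v) = v ⬝ᵥ (((jm ℂ n)⁻¹).transpose *ᵥ v) := by
      rw [mulVec_transpose, dotProduct_comm v (v ᵥ* _), ← dotProduct_mulVec]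
    rw [hJinvT, neg_mulVec, dotProduct_neg] at h1
    rw [hωa]
    have : (2 : ℂ) * (v ⬝ᵥ ((jm ℂ n)⁻¹ *ᵥ v)) = 0 := by linear_combination h1
    simp only [mul_eq_zero, OfNat.ofNat_ne_zero, false_or] at this
    rw [this, neg_zero]
  have hnd : ∀ u, (∀ v, ω u v = 0) → u = 0 := by
    intro u hu
    have h1 : ∀ w : Fin n → ℂ, u ⬝ᵥ w = 0 := by
      intro w
      have h2 := hu (jm ℂ n *ᵥ w)
      rw [hωa, mulVec_mulVec, nonsing_inv_mul _ hdet, one_mulVec, neg_eq_zero] at h2
      exact h2
    funext i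
    have := h1 (Pi.single i 1)
    rwa [dotProduct_single_one] at this
  have hg' : g.transpose * (jm ℂ n)⁻¹ * g = (jm ℂ n)⁻¹ := by
    have h1 : g * (jm ℂ n * g.transpose * (jm ℂ n)⁻¹) = 1 := by
      rw [← mul_assoc, ← mul_assoc, hg, mul_nonsing_inv _ hdet]
    have h2 : (jm ℂ n * g.transpose * (jm ℂ n)⁻¹) * g = 1 := mul_eq_one_comm.1 h1
    calc g.transpose * (jm ℂ n)⁻¹ * g = (jm ℂ n)⁻¹ * ((jm ℂ n * g.transpose * (jm ℂ n)⁻¹) * g) := by
          rw [← mul_assoc, ← mul_assoc, ← mul_assoc, nonsing_inv_mul _ hdet, one_mul]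
      _ = (jm ℂ n)⁻¹ := by rw [h2, mul_one]
  have hpres : ∀ u v, ω (Matrix.toLin' g u) (Matrix.toLin' g v) = ω u v := by
    intro u v
    rw [hωa, hωa, toLin'_apply, toLin'_apply, mulVec_mulVec, dotProduct_mulVec, ← vecMul_transpose,
      vecMul_vecMul, ← mul_assoc, hg', ← dotProduct_mulVec]
  have hmem := Pool.Agent.W948.ZC.TR.aux ℂ _ (Fin n → ℂ) ω rfl h0 hnd (Matrix.toLin' g) hpres
  have key : ∀ T ∈ Pool.Agent.W948.ZC.TR.G ω, LinearMap.toMatrix' T ∈ Mon a m := by
    intro T hT
    unfold Pool.Agent.W948.ZC.TR.G at hT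
    induction hT using Submonoid.closure_induction with
    | mem T h =>
      obtain ⟨c, u, rfl⟩ := h
      have h1 : LinearMap.toMatrix' (1 + c • (ω u).smulRight u) = TV ((jm ℂ n)⁻¹ *ᵥ u) c := by
        apply (Matrix.toLin'.injective)
        rw [toLin'_toMatrix']
        ext x i
        have h2 : (Matrix.toLin' (TV ((jm ℂ n)⁻¹ *ᵥ u) c)) (Pi.single x 1) =
            TV ((jm ℂ n)⁻¹ *ᵥ u) c *ᵥ (Pi.single x 1) := rfl
        rw [LinearMap.comp_apply, LinearMap.comp_apply, LinearMap.single_apply, h2, TV_mulVec, mulVec_mulVec,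
          mul_nonsing_inv _ hdet, one_mulVec]
        have h3 : ((jm ℂ n)⁻¹ *ᵥ u) ⬝ᵥ (Pi.single x (1 : ℂ)) = ω u (Pi.single x 1) := by
          rw [hωa, dotProduct_comm, ← vecMul_transpose, hJinvT, dotProduct_comm, ← dotProduct_mulVec, neg_mulVec,
            dotProduct_neg]
        rw [h3]
        simp [LinearMap.add_apply, mul_assoc]
      rw [h1]
      exact all_mem ha m _ c
    | one =>
      have : LinearMap.toMatrix' (1 : Module.End ℂ (Fin n → ℂ)) = 1 := LinearMap.toMatrix'_id
      rw [this]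
      exact one_mem _
    | mul A B _ _ hA hB =>
      have : LinearMap.toMatrix' (A * B) = LinearMap.toMatrix' A * LinearMap.toMatrix' B :=
        LinearMap.toMatrix'_mul A B
      rw [this]
      exact mul_mem hA hB
  have := key _ hmem
  rwa [LinearMap.toMatrix'_toLin'] at this

end Pool.Agent.Y118.HP
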