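import Pool.Agent.Y118.HP.LegB
import Pool.Agent.Y118.HP.Sp

/-!
# The Riemann-Legendre relations, III
-/

set_option autoImplicit false

open Set MeasureTheory Filter Topology Polynomial

namespace Pool.Agent.Y118.HP

variable {n : ℕ}

theorem xs_refl (e : Fin (n + 1) → ℝ) (l : Fin n) (θ : ℝ) :
    xs e l (Real.pi / 2 - θ) = e l.succ - (e l.succ - e l.castSucc) * Real.sin θ ^ 2 := by
  unfold xs
  rw [Real.sin_pi_div_two_sub]
  have h2 : Real.cos θ ^ 2 = 1 - Real.sin θ ^ 2 := by linarith [Real.sin_sq_add_cos_sq θ]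
  rw [h2]; ring

theorem integral_L {L : ℝ} (hL : 0 < L) : ∫ u in Ioi (0 : ℝ), (1 + L * u ^ 2)⁻¹ = Real.pi / (2 * √L) := by
  have hs : 0 < √L := Real.sqrt_pos.2 hL
  have h := MeasureTheory.integral_comp_mul_left_Ioi (fun x : ℝ => (1 + x ^ 2)⁻¹) 0 hs
  rw [mul_zero, integral_Ioi_inv_one_add_sq] at h
  have h2 : (fun x : ℝ => (1 + (√L * x) ^ 2)⁻¹) = fun u => (1 + L * u ^ 2)⁻¹ := by
    funext u
    rw [mul_pow, Real.sq_sqrt hL.le]
  rw [h2] at h
  rw [h, smul_eq_mul, Real.arctan_zero, sub_zero]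
  field_simp

theorem integrable_L {c : ℝ} (hc : 0 < c) : Integrable fun u : ℝ => (1 + c * u ^ 2)⁻¹ := by
  have hs : √c ≠ 0 := (Real.sqrt_pos.2 hc).ne'
  have h := (integrable_comp_mul_left_iff (fun x : ℝ => (1 + x ^ 2)⁻¹) hs).2 integrable_inv_one_add_sq
  have h2 : (fun x : ℝ => (1 + (√c * x) ^ 2)⁻¹) = fun u => (1 + c * u ^ 2)⁻¹ := by
    funext u
    rw [mul_pow, Real.sq_sqrt hc.le]
  rwa [h2] at h

/-- the integrand after the change of variables `θ = π/2 - κ u` -/
noncomputable def gk (e : Fin (n + 1) → ℝ) (l : Fin n) (κ u : ℝ) : ℝ :=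
  2 / √(Wf e l (xs e l (Real.pi / 2 - κ * u))) *
    (κ ^ 2 / (κ ^ 2 + (e l.succ - e l.castSucc) * Real.sin (κ * u) ^ 2))

theorem HH_change {e : Fin (n + 1) → ℝ} (l : Fin n) {κ : ℝ} (hκ : 0 < κ) :
    κ * HH e l (e l.succ + κ ^ 2) = ∫ u, (Ioc 0 (Real.pi / 2 / κ)).indicator (gk e l κ) u := by
  have hp : 0 < Real.pi := Real.pi_pos
  rw [integral_indicator measurableSet_Ioc, ← intervalIntegral.integral_of_le (by positivity)]
  unfold HH
  set f : ℝ → ℝ := fun θ => 2 / √(Wf e l (xs e l θ)) * (e l.succ + κ ^ 2 - xs e l θ)⁻¹ with hf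
  have h1 : ∫ θ in (0 : ℝ)..(Real.pi / 2), f θ = ∫ θ in (0 : ℝ)..(Real.pi / 2), f (Real.pi / 2 - θ) := by
    rw [intervalIntegral.integral_comp_sub_left]
    simp
  rw [h1]
  have h2 := intervalIntegral.smul_integral_comp_mul_left (fun θ => f (Real.pi / 2 - θ)) κ (a := 0)
    (b := Real.pi / 2 / κ)
  rw [mul_zero, mul_div_cancel₀ _ hκ.ne'] at h2
  rw [← h2, smul_eq_mul, ← intervalIntegral.integral_const_mul, ← intervalIntegral.integral_const_mul]
  refine intervalIntegral.integral_congr fun u _ => ?_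
  simp only [hf, gk]
  have h3 : e l.succ + κ ^ 2 - xs e l (Real.pi / 2 - κ * u) =
      κ ^ 2 + (e l.succ - e l.castSucc) * Real.sin (κ * u) ^ 2 := by
    rw [xs_refl]; ring
  rw [h3]
  ring

theorem tendsto_gk {e : Fin (n + 1) → ℝ} (he : StrictMono e) (l : Fin n) (u : ℝ) :
    Tendsto (fun κ => gk e l κ u) (𝓝[>] 0) (𝓝 (2 / √(Wf e l (e l.succ)) *
      (1 + (e l.succ - e l.castSucc) * u ^ 2)⁻¹)) := by
  have hL := len_pos he l
  unfold gk
  refine Tendsto.mul ?_ ?_
  · have h1 : Continuous fun κ : ℝ => 2 / √(Wf e l (xs e l (Real.pi / 2 - κ * u))) :=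
      (continuous_psi he l).comp (by fun_prop : Continuous fun κ : ℝ => Real.pi / 2 - κ * u)
    have h2 := h1.tendsto 0
    have h3 : xs e l (Real.pi / 2 - 0 * u) = e l.succ := by
      rw [xs_refl]; simp
    rw [h3] at h2
    exact h2.mono_left nhdsWithin_le_nhds
  · have h1 : HasDerivAt (fun κ : ℝ => Real.sin (κ * u)) u 0 := by
      have h2 := (Real.hasDerivAt_sin (0 * u)).comp (0 : ℝ) ((hasDerivAt_id (0 : ℝ)).mul_const u)
      refine h2.congr_deriv ?_
      simp
    have h2 := (hasDerivAt_iff_tendsto_slope_zero.1 h1).mono_left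
      (nhdsWithin_mono (0 : ℝ) (fun x (hx : 0 < x) => hx.ne'))
    simp only [zero_add, zero_mul, Real.sin_zero, sub_zero, smul_eq_mul] at h2
    have h3 : Tendsto (fun κ : ℝ => (1 + (e l.succ - e l.castSucc) * (κ⁻¹ * Real.sin (κ * u)) ^ 2)⁻¹) (𝓝[>] 0)
        (𝓝 (1 + (e l.succ - e l.castSucc) * u ^ 2)⁻¹) := by
      refine Tendsto.inv₀ (tendsto_const_nhds.add (tendsto_const_nhds.mul (h2.pow 2))) ?_
      positivity
    refine h3.congr' ?_
    filter_upwards [self_mem_nhdsWithin] with κ hκ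
    have hκ' : (0 : ℝ) < κ := hκ
    have h4 : κ ^ 2 + (e l.succ - e l.castSucc) * Real.sin (κ * u) ^ 2 ≠ 0 := by positivity
    have h5 : 1 + (e l.succ - e l.castSucc) * (κ⁻¹ * Real.sin (κ * u)) ^ 2 ≠ 0 := by positivity
    field_simp

theorem tendsto_HH {e : Fin (n + 1) → ℝ} (he : StrictMono e) (l : Fin n) :
    Tendsto (fun κ : ℝ => κ * HH e l (e l.succ + κ ^ 2)) (𝓝[>] 0)
      (𝓝 (Real.pi / (√(e l.succ - e l.castSucc) * √(Wf e l (e l.succ))))) := by
  have hL := len_pos he l
  have hp : 0 < Real.pi := Real.pi_pos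
  obtain ⟨C, hC⟩ := isCompact_Icc.exists_bound_of_continuousOn (s := Icc 0 (Real.pi / 2))
    (continuous_psi he l).continuousOn
  set L := e l.succ - e l.castSucc with hLd
  set c : ℝ := 4 * L / Real.pi ^ 2 with hc
  have hc0 : 0 < c := by rw [hc]; positivity
  have hlim : ∫ u, (Ioi (0 : ℝ)).indicator (fun u => 2 / √(Wf e l (e l.succ)) * (1 + L * u ^ 2)⁻¹) u =
      Real.pi / (√L * √(Wf e l (e l.succ))) := by
    rw [integral_indicator measurableSet_Ioi, integral_const_mul, integral_L hL]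
    have h1 : 0 < √(Wf e l (e l.succ)) :=
      Real.sqrt_pos.2 (Wf_pos he (he Fin.castSucc_lt_succ).le le_rfl)
    field_simp
  rw [← hlim]
  have key := tendsto_integral_filter_of_dominated_convergence (μ := volume) (l := 𝓝[>] (0 : ℝ))
    (F := fun κ => (Ioc 0 (Real.pi / 2 / κ)).indicator (gk e l κ))
    (f := (Ioi (0 : ℝ)).indicator (fun u => 2 / √(Wf e l (e l.succ)) * (1 + L * u ^ 2)⁻¹))
    (fun u => C * (1 + c * u ^ 2)⁻¹) ?_ ?_ ((integrable_L hc0).const_mul C) ?_
  · refine key.congr' ?_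
    filter_upwards [self_mem_nhdsWithin] with κ hκ
    exact (HH_change l hκ).symm
  · filter_upwards [self_mem_nhdsWithin] with κ hκ
    have hκ' : (0 : ℝ) < κ := hκ
    refine AEStronglyMeasurable.indicator ?_ measurableSet_Ioc
    refine Continuous.aestronglyMeasurable ?_
    unfold gk
    refine ((continuous_psi he l).comp (by fun_prop : Continuous fun u : ℝ => Real.pi / 2 - κ * u)).mul ?_
    refine continuous_const.div (by fun_prop) fun u => ?_
    have : 0 < κ ^ 2 + L * Real.sin (κ * u) ^ 2 := by positivity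
    exact this.ne'
  · filter_upwards [self_mem_nhdsWithin] with κ hκ
    have hκ' : (0 : ℝ) < κ := hκ
    refine Eventually.of_forall fun u => ?_
    have hC0 : 0 ≤ C := (norm_nonneg _).trans (hC 0 ⟨le_rfl, by positivity⟩)
    by_cases hu : u ∈ Ioc 0 (Real.pi / 2 / κ)
    · rw [indicator_of_mem hu]
      have hu0 := hu.1
      have h1 : κ * u ≤ Real.pi / 2 := by
        have := hu.2
        rw [le_div_iff₀ hκ'] at this
        linarith
      have h0 : 0 ≤ κ * u := by positivity
      have h2 : 2 / Real.pi * (κ * u) ≤ Real.sin (κ * u) := Real.mul_le_sin h0 h1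
      unfold gk
      rw [norm_mul]
      refine mul_le_mul (hC _ ⟨by linarith, by linarith⟩) ?_ (norm_nonneg _) hC0
      have h3 : 0 < κ ^ 2 + L * Real.sin (κ * u) ^ 2 := by positivity
      rw [Real.norm_of_nonneg (by positivity), div_le_iff₀ h3, ← div_eq_inv_mul, le_div_iff₀ (by positivity)]
      have h4 : (2 / Real.pi * (κ * u)) ^ 2 ≤ Real.sin (κ * u) ^ 2 := pow_le_pow_left₀ (by positivity) h2 2
      have h5 : c * u ^ 2 * κ ^ 2 = L * (2 / Real.pi * (κ * u)) ^ 2 := by
        rw [hc]; field_simp; ring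
      nlinarith [mul_le_mul_of_nonneg_left h4 hL.le]
    · rw [indicator_of_notMem hu, norm_zero]
      positivity
  · refine Eventually.of_forall fun u => ?_
    by_cases hu : 0 < u
    · rw [indicator_of_mem (mem_Ioi.2 hu)]
      refine (tendsto_gk he l u).congr' ?_
      have h1 : (0 : ℝ) < Real.pi / 2 / u := by positivity
      filter_upwards [Ioo_mem_nhdsGT h1] with κ hκ
      rw [indicator_of_mem]
      refine ⟨hu, ?_⟩
      rw [le_div_iff₀ hκ.1]
      have := hκ.2
      rw [lt_div_iff₀ hu] at this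
      linarith
    · rw [indicator_of_notMem (by simpa using hu)]
      refine tendsto_const_nhds.congr fun κ => ?_
      rw [indicator_of_notMem]
      intro h
      exact hu h.1

theorem V_left {e : Fin (n + 1) → ℝ} (he : StrictMono e) (l : Fin n) :
    (e l.succ - e l.castSucc) * Wf e l (e l.succ) =
      ∏ i, if i = l.succ then 1 else |e l.succ - e i| := by
  have h : (e l.succ - e l.castSucc) = ∏ i : Fin (n + 1), if i = l.castSucc then (e l.succ - e l.castSucc) else 1 := by
    rw [Finset.prod_ite_eq']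
    simp
  unfold Wf
  rw [h, ← Finset.prod_mul_distrib]
  refine Finset.prod_congr rfl fun i _ => ?_
  unfold rfac
  have hne : l.castSucc ≠ l.succ := Fin.castSucc_lt_succ.ne
  rcases lt_trichotomy i l.castSucc with h1 | h1 | h1
  · have h3 : e i < e l.castSucc := he h1
    have h4 : e l.castSucc < e l.succ := he Fin.castSucc_lt_succ
    rw [if_neg h1.ne, if_pos h1, if_neg (h1.trans Fin.castSucc_lt_succ).ne, abs_of_nonneg (by linarith)]
    ring
  · subst h1
    have h4 : e l.castSucc < e l.succ := he Fin.castSucc_lt_succ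
    rw [if_pos rfl, if_neg (lt_irrefl _), if_neg (not_lt.2 Fin.castSucc_lt_succ.le), if_neg hne,
      abs_of_nonneg (by linarith)]
    ring
  · have h' : l.succ ≤ i := by
      rw [Fin.le_def]; rw [Fin.lt_def] at h1; simp at h1 ⊢; omega
    rcases eq_or_lt_of_le h' with h4 | h4
    · subst h4
      rw [if_neg hne.symm, if_neg (not_lt.2 Fin.castSucc_lt_succ.le), if_neg (lt_irrefl _), if_pos rfl]
      ring
    · have h5 : e l.succ < e i := he h4
      rw [if_neg h1.ne', if_neg (not_lt.2 h1.le), if_pos h4, if_neg h4.ne', abs_of_nonpos (by linarith)]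
      ring

theorem V_right {e : Fin (n + 1) → ℝ} (he : StrictMono e) (m : Fin n) :
    (e m.succ - e m.castSucc) * Wf e m (e m.castSucc) =
      ∏ i, if i = m.castSucc then 1 else |e m.castSucc - e i| := by
  have h : (e m.succ - e m.castSucc) = ∏ i : Fin (n + 1), if i = m.succ then (e m.succ - e m.castSucc) else 1 := by
    rw [Finset.prod_ite_eq']
    simp
  unfold Wf
  rw [h, ← Finset.prod_mul_distrib]
  refine Finset.prod_congr rfl fun i _ => ?_
  unfold rfac
  have hne : m.castSucc ≠ m.succ := Fin.castSucc_lt_succ.ne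
  rcases lt_trichotomy i m.castSucc with h1 | h1 | h1
  · have h3 : e i < e m.castSucc := he h1
    rw [if_neg (h1.trans Fin.castSucc_lt_succ).ne, if_pos h1, if_neg h1.ne, abs_of_nonneg (by linarith)]
    ring
  · subst h1
    rw [if_neg hne, if_neg (lt_irrefl _), if_neg (not_lt.2 Fin.castSucc_lt_succ.le), if_pos rfl]
    ring
  · have h' : m.succ ≤ i := by
      rw [Fin.le_def]; rw [Fin.lt_def] at h1; simp at h1 ⊢; omega
    rcases eq_or_lt_of_le h' with h4 | h4
    · subst h4
      have h5 : e m.castSucc < e m.succ := he Fin.castSucc_lt_succ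
      rw [if_pos rfl, if_neg (not_lt.2 Fin.castSucc_lt_succ.le), if_neg (lt_irrefl _), if_neg hne.symm,
        abs_of_nonpos (by linarith)]
      ring
    · have h5 : e m.succ < e i := he h4
      have h6 : e m.castSucc < e m.succ := he Fin.castSucc_lt_succ
      rw [if_neg h4.ne', if_neg (not_lt.2 h1.le), if_pos h4, if_neg h1.ne', abs_of_nonpos (by linarith)]
      ring

/-- the pairing of two gaps -/
theorem leg_lt {e : Fin (n + 1) → ℝ} (he : StrictMono e) {l m : Fin n} (hlm : l < m) :
    ∑ i : Fin n, ∑ j : Fin n, perT e m (i : ℕ) * qm n (FF e) i j * perT e l (j : ℕ) =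
      if (m : ℕ) = l + 1 then -(-1) ^ (n - (m : ℕ)) * Real.pi else 0 := by
  have hL := len_pos he m
  have hp : 0 < Real.pi := Real.pi_pos
  set σ : ℝ := (-1) ^ (n - (m : ℕ)) with hσ
  have hσ2 : σ * σ = 1 := sigma_sq _
  have hle : l.succ ≤ m.castSucc := by
    rw [Fin.le_def]; rw [Fin.lt_def] at hlm; simp; omega
  have hle' : e l.succ ≤ e m.castSucc := he.monotone hle
  have hF : ∀ φ, σ * (FF e).eval (xs e m φ) =
      ((e m.succ - e m.castSucc) * (Real.sin φ * Real.cos φ)) ^ 2 * Wf e m (xs e m φ) := by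
    intro φ
    rw [hσ, sign_F he m (xs_mem he m φ).1 (xs_mem he m φ).2, xs_sub]
  have hgt : ∀ φ ∈ Ioo (0 : ℝ) (Real.pi / 2), e l.succ < xs e m φ := by
    intro φ hφ
    have : xs e m φ ∈ Ioo (e m.castSucc) (e m.succ) := by
      rw [← image_xs he m]; exact ⟨φ, hφ, rfl⟩
    exact lt_of_le_of_lt hle' this.1
  set Kf : ℝ → ℝ := fun φ => √(σ * (FF e).eval (xs e m φ)) * HH e l (xs e m φ) with hK
  have hderiv : ∀ φ ∈ Ioo (0 : ℝ) (Real.pi / 2), HasDerivAt Kf (∑ i : Fin n, ∑ j : Fin n,
      σ * (qm n (FF e) i j * perT e l (j : ℕ)) * (2 * (xs e m φ ^ (i : ℕ) / √(Wf e m (xs e m φ))))) φ := by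
    intro φ hφ
    have s1 : 0 < Real.sin φ := Real.sin_pos_of_pos_of_lt_pi hφ.1 (by linarith [hφ.2])
    have c1 : 0 < Real.cos φ := Real.cos_pos_of_mem_Ioo ⟨by linarith [hφ.1], hφ.2⟩
    have hW := Wf_pos he (xs_mem he m φ).1 (xs_mem he m φ).2
    have hWs := Real.sqrt_pos.2 hW
    have hx := hasDerivAt_xs e m φ
    have hpos : 0 < σ * (FF e).eval (xs e m φ) := by rw [hF]; positivity
    have hsq : √(σ * (FF e).eval (xs e m φ)) =
        (e m.succ - e m.castSucc) * (Real.sin φ * Real.cos φ) * √(Wf e m (xs e m φ)) := by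
      rw [hF, Real.sqrt_mul (sq_nonneg _), Real.sqrt_sq (by positivity)]
    have h1 : HasDerivAt (fun φ => (FF e).eval (xs e m φ)) ((derivative (FF e)).eval (xs e m φ) *
        ((e m.succ - e m.castSucc) * (2 * Real.sin φ * Real.cos φ))) φ :=
      ((FF e).hasDerivAt _).comp φ hx
    have h3 : HasDerivAt (fun φ => HH e l (xs e m φ)) (HH' e l (xs e m φ) *
        ((e m.succ - e m.castSucc) * (2 * Real.sin φ * Real.cos φ))) φ :=
      (hasDerivAt_HH he l (hgt φ hφ)).comp φ hx
    refine (((h1.const_mul σ).sqrt hpos.ne').mul h3).congr_deriv ?_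
    have hode := ode_HH he l (hgt φ hφ)
    have h4 : ∑ i : Fin n, ∑ j : Fin n, σ * (qm n (FF e) i j * perT e l (j : ℕ)) *
        (2 * (xs e m φ ^ (i : ℕ) / √(Wf e m (xs e m φ)))) = σ * (2 / √(Wf e m (xs e m φ))) *
        ((FF e).eval (xs e m φ) * HH' e l (xs e m φ) + (derivative (FF e)).eval (xs e m φ) / 2 *
          HH e l (xs e m φ)) := by
      rw [hode, Finset.mul_sum]
      refine Finset.sum_congr rfl fun i _ => ?_
      rw [Finset.mul_sum]
      refine Finset.sum_congr rfl fun j _ => ?_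
      ring
    rw [h4]
    have hFe := hF φ
    have hWW : √(Wf e m (xs e m φ)) ^ 2 = Wf e m (xs e m φ) := Real.sq_sqrt hW.le
    rw [← hWW] at hFe
    rw [hsq]
    set s := √(Wf e m (xs e m φ)) with hs
    set L := e m.succ - e m.castSucc with hLd
    have hs0 : s ≠ 0 := hWs.ne'
    have hs10 := s1.ne'
    have hc10 := c1.ne'
    have hL0 := hL.ne'
    generalize (FF e).eval (xs e m φ) = Fz at *
    generalize (derivative (FF e)).eval (xs e m φ) = Dz at *
    generalize HH' e l (xs e m φ) = H1 at *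
    generalize HH e l (xs e m φ) = H0 at *
    have e1 : σ * (Dz * (L * (2 * Real.sin φ * Real.cos φ))) / (2 * (L * (Real.sin φ * Real.cos φ) * s)) * H0 =
        σ * Dz * H0 / s := by
      field_simp
    have e2 : L * (Real.sin φ * Real.cos φ) * s * (H1 * (L * (2 * Real.sin φ * Real.cos φ))) =
        (2 / s) * (σ * Fz) * H1 := by
      rw [hFe]
      field_simp
    rw [e1, e2]
    ring
  have hcont : Continuous fun φ => ∑ i : Fin n, ∑ j : Fin n,
      σ * (qm n (FF e) i j * perT e l (j : ℕ)) * (2 * (xs e m φ ^ (i : ℕ) / √(Wf e m (xs e m φ)))) := by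
    refine continuous_finsetSum _ fun i _ => continuous_finsetSum _ fun j _ => continuous_const.mul ?_
    have : (fun θ => 2 * (xs e m θ ^ (i : ℕ) / √(Wf e m (xs e m θ)))) =
        fun θ => xs e m θ ^ (i : ℕ) * (2 / √(Wf e m (xs e m θ))) := by funext θ; ring
    rw [this]
    exact ((continuous_xs e m).pow _).mul (continuous_psi he m)
  have hsqrt : Continuous fun φ => √(σ * (FF e).eval (xs e m φ)) :=
    Real.continuous_sqrt.comp (continuous_const.mul ((FF e).continuous.comp (continuous_xs e m)))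
  have hsqrt0 : √(σ * (FF e).eval (xs e m 0)) = 0 := by rw [hF]; simp
  have hsqrt1 : √(σ * (FF e).eval (xs e m (Real.pi / 2))) = 0 := by rw [hF]; simp
  have hx0 : xs e m 0 = e m.castSucc := by unfold xs; simp
  have hx1 : xs e m (Real.pi / 2) = e m.succ := by unfold xs; simp
  have hb : Tendsto Kf (𝓝[<] (Real.pi / 2)) (𝓝 0) := by
    have h1 : e l.succ < xs e m (Real.pi / 2) := by rw [hx1]; linarith
    have h2 : ContinuousAt (fun φ => HH e l (xs e m φ)) (Real.pi / 2) :=
      ContinuousAt.comp (g := HH e l) (hasDerivAt_HH he l h1).continuousAt (continuous_xs e m).continuousAt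
    have h3 : ContinuousAt Kf (Real.pi / 2) := hsqrt.continuousAt.mul h2
    have h4 : Kf (Real.pi / 2) = 0 := by simp only [hK]; rw [hsqrt1, zero_mul]
    have h5 := h3.tendsto
    rw [h4] at h5
    exact h5.mono_left nhdsWithin_le_nhds
  have ha : Tendsto Kf (𝓝[>] 0) (𝓝 (if (m : ℕ) = l + 1 then Real.pi else 0)) := by
    by_cases hml : (m : ℕ) = l + 1
    · rw [if_pos hml]
      have heq : l.succ = m.castSucc := by ext; simp; omega
      set q := e l.succ with hq
      have hq' : e m.castSucc = q := by rw [hq, heq]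
      have hLl := len_pos he l
      have h1 : Tendsto (fun φ => √(e m.succ - e m.castSucc) * Real.sin φ) (𝓝[>] 0) (𝓝[>] 0) := by
        refine tendsto_nhdsWithin_iff.2 ⟨?_, ?_⟩
        · have h2 : Continuous fun φ => √(e m.succ - e m.castSucc) * Real.sin φ := by fun_prop
          have h3 := h2.tendsto 0
          simp only [Real.sin_zero, mul_zero] at h3
          exact h3.mono_left nhdsWithin_le_nhds
        · have hpi2 : (0 : ℝ) < Real.pi / 2 := by positivity
          filter_upwards [Ioo_mem_nhdsGT hpi2] with φ hφ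
          have s1 : 0 < Real.sin φ := Real.sin_pos_of_pos_of_lt_pi hφ.1 (by linarith [hφ.2])
          have := Real.sqrt_pos.2 hL
          simp only [mem_Ioi]
          positivity
      have h2 := (tendsto_HH he l).comp h1
      have h3 : Tendsto (fun φ => √(e m.succ - e m.castSucc) * Real.cos φ * √(Wf e m (xs e m φ))) (𝓝[>] 0)
          (𝓝 (√(e m.succ - e m.castSucc) * √(Wf e m (e m.castSucc)))) := by
        have h4 : Continuous fun φ => √(e m.succ - e m.castSucc) * Real.cos φ * √(Wf e m (xs e m φ)) :=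
          (continuous_const.mul Real.continuous_cos).mul
            (Real.continuous_sqrt.comp ((continuous_Wf e m).comp (continuous_xs e m)))
        have h5 := h4.tendsto 0
        rw [hx0, Real.cos_zero, mul_one] at h5
        exact h5.mono_left nhdsWithin_le_nhds
      have h4 := h3.mul h2
      have hval : √(e m.succ - e m.castSucc) * √(Wf e m (e m.castSucc)) *
          (Real.pi / (√(e l.succ - e l.castSucc) * √(Wf e l (e l.succ)))) = Real.pi := by
        have hWl : 0 < Wf e l (e l.succ) := Wf_pos he (he Fin.castSucc_lt_succ).le le_rfl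
        have h5 : (e m.succ - e m.castSucc) * Wf e m (e m.castSucc) = (e l.succ - e l.castSucc) * Wf e l (e l.succ) := by
          rw [V_left he, V_right he, heq]
        rw [← Real.sqrt_mul hL.le, h5, Real.sqrt_mul hLl.le]
        have := (Real.sqrt_pos.2 hWl).ne'
        have := (Real.sqrt_pos.2 hLl).ne'
        field_simp
      rw [hval] at h4
      refine h4.congr' ?_
      have hpi2 : (0 : ℝ) < Real.pi / 2 := by positivity
      filter_upwards [Ioo_mem_nhdsGT hpi2] with φ hφ
      have s1 : 0 < Real.sin φ := Real.sin_pos_of_pos_of_lt_pi hφ.1 (by linarith [hφ.2])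
      have c1 : 0 < Real.cos φ := Real.cos_pos_of_mem_Ioo ⟨by linarith [hφ.1], hφ.2⟩
      have hx : q + (√(e m.succ - e m.castSucc) * Real.sin φ) ^ 2 = xs e m φ := by
        rw [mul_pow, Real.sq_sqrt hL.le]
        unfold xs
        rw [hq']
      simp only [hK, Function.comp]
      rw [hx, hF, Real.sqrt_mul (sq_nonneg _), Real.sqrt_sq (by positivity)]
      have h6 : (e m.succ - e m.castSucc) = √(e m.succ - e m.castSucc) * √(e m.succ - e m.castSucc) :=
        (Real.mul_self_sqrt hL.le).symm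
      set r := √(e m.succ - e m.castSucc) with hr
      rw [h6]
      ring
    · rw [if_neg hml]
      have h1 : e l.succ < xs e m 0 := by
        rw [hx0]
        refine he ?_
        rw [Fin.lt_def]; rw [Fin.lt_def] at hlm; simp; omega
      have h2 : ContinuousAt (fun φ => HH e l (xs e m φ)) 0 :=
        ContinuousAt.comp (g := HH e l) (hasDerivAt_HH he l h1).continuousAt (continuous_xs e m).continuousAt
      have h3 : ContinuousAt Kf 0 := hsqrt.continuousAt.mul h2
      have h4 : Kf 0 = 0 := by simp only [hK]; rw [hsqrt0, zero_mul]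
      have h5 := h3.tendsto
      rw [h4] at h5
      exact h5.mono_left nhdsWithin_le_nhds
  have key := intervalIntegral.integral_eq_sub_of_hasDerivAt_of_tendsto (by positivity : (0 : ℝ) < Real.pi / 2)
    hderiv (hcont.intervalIntegrable _ _) ha hb
  have hint : ∀ i j : Fin n, Continuous fun φ => σ * (qm n (FF e) i j * perT e l (j : ℕ)) *
      (2 * (xs e m φ ^ (i : ℕ) / √(Wf e m (xs e m φ)))) := by
    intro i j
    refine continuous_const.mul ?_
    have : (fun θ => 2 * (xs e m θ ^ (i : ℕ) / √(Wf e m (xs e m θ)))) =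
        fun θ => xs e m θ ^ (i : ℕ) * (2 / √(Wf e m (xs e m θ))) := by funext θ; ring
    rw [this]
    exact ((continuous_xs e m).pow _).mul (continuous_psi he m)
  rw [intervalIntegral.integral_finsetSum (fun i _ => (continuous_finsetSum _ fun j _ => hint i j).intervalIntegrable _ _)] at key
  have h1 : ∑ i : Fin n, ∫ φ in (0 : ℝ)..(Real.pi / 2), ∑ j : Fin n, σ * (qm n (FF e) i j * perT e l (j : ℕ)) *
      (2 * (xs e m φ ^ (i : ℕ) / √(Wf e m (xs e m φ)))) =
      σ * ∑ i : Fin n, ∑ j : Fin n, perT e m (i : ℕ) * qm n (FF e) i j * perT e l (j : ℕ) := by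
    rw [Finset.mul_sum]
    refine Finset.sum_congr rfl fun i _ => ?_
    rw [intervalIntegral.integral_finsetSum (fun j _ => (hint i j).intervalIntegrable _ _), Finset.mul_sum]
    refine Finset.sum_congr rfl fun j _ => ?_
    rw [intervalIntegral.integral_const_mul]
    unfold perT
    ring
  rw [h1] at key
  have h2 : ∑ i : Fin n, ∑ j : Fin n, perT e m (i : ℕ) * qm n (FF e) i j * perT e l (j : ℕ) =
      σ * (0 - if (m : ℕ) = l + 1 then Real.pi else 0) := by
    rw [← key, ← mul_assoc, hσ2, one_mul]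
  rw [h2]
  split_ifs <;> ring

/-- the Riemann-Legendre relations -/
theorem legendre (hn : Even n) (e : Fin (n + 1) → ℝ) (he : StrictMono e) :
    perM e * qm n (∏ i, (X - C (e i))) * (perM e).transpose = Real.pi • jm ℝ n := by
  have hent : ∀ r s : Fin n, (perM e * qm n (∏ i, (X - C (e i))) * (perM e).transpose : Matrix (Fin n) (Fin n) ℝ) r s =
      ∑ i : Fin n, ∑ j : Fin n, perT e r (i : ℕ) * qm n (FF e) i j * perT e s (j : ℕ) := by
    intro r s
    rw [Matrix.mul_apply]
    simp only [Matrix.mul_apply, Finset.sum_mul, Matrix.transpose_apply]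
    rw [Finset.sum_comm]
    refine Finset.sum_congr rfl fun i _ => Finset.sum_congr rfl fun j _ => ?_
    simp only [perM, Matrix.of_apply]
    rw [per_eq_perT he, per_eq_perT he]
    rfl
  have hsk : ∀ r s : Fin n, ∑ i : Fin n, ∑ j : Fin n, perT e r (i : ℕ) * qm n (FF e) i j * perT e s (j : ℕ) =
      -∑ i : Fin n, ∑ j : Fin n, perT e s (i : ℕ) * qm n (FF e) i j * perT e r (j : ℕ) := by
    intro r s
    rw [Finset.sum_comm, ← Finset.sum_neg_distrib]
    refine Finset.sum_congr rfl fun i _ => ?_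
    rw [← Finset.sum_neg_distrib]
    refine Finset.sum_congr rfl fun j _ => ?_
    have : qm n (FF e) j i = -qm n (FF e) i j := by
      unfold qm
      simp only [Matrix.of_apply]
      rw [show (j : ℕ) + (i : ℕ) + 2 = (i : ℕ) + (j : ℕ) + 2 by omega]
      ring
    rw [this]
    ring
  have hsign : ∀ m : Fin n, ((-1 : ℝ)) ^ (n - (m : ℕ)) = (-1) ^ (m : ℕ) := by
    intro m
    have h1 : ((-1 : ℝ)) ^ (n - (m : ℕ)) * (-1) ^ (m : ℕ) = 1 := by
      rw [← pow_add, Nat.sub_add_cancel m.2.le, hn.neg_one_pow]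
    have h2 := sigma_sq (m : ℕ)
    calc ((-1 : ℝ)) ^ (n - (m : ℕ)) = (-1) ^ (n - (m : ℕ)) * ((-1) ^ (m : ℕ) * (-1) ^ (m : ℕ)) := by rw [h2, mul_one]
      _ = (-1) ^ (m : ℕ) := by rw [← mul_assoc, h1, one_mul]
  have hgt : ∀ r s : Fin n, s < r → (perM e * qm n (∏ i, (X - C (e i))) * (perM e).transpose : Matrix (Fin n) (Fin n) ℝ) r s =
      (Real.pi • jm ℝ n) r s := by
    intro r s hsr
    rw [hent, leg_lt he hsr, Matrix.smul_apply, jm_apply, hsign]
    have hlt : (s : ℕ) < r := hsr
    by_cases h : (r : ℕ) = s + 1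
    · rw [if_pos h, if_pos (Or.inl h), smul_eq_mul]; ring
    · rw [if_neg h, if_neg (by omega), smul_zero]
  ext r s
  rcases lt_trichotomy r s with h | h | h
  · have h1 := hgt s r h
    rw [hent, Matrix.smul_apply, jm_symm] at h1
    rw [hent, hsk, h1, Matrix.smul_apply]
    simp
  · subst h
    rw [hent, Matrix.smul_apply, jm_diag, smul_zero]
    have := hsk r r
    linarith
  · exact hgt r s h

end Pool.Agent.Y118.HP
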