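import Pool.Agent.Y118.HP.Alg6
import Pool.Agent.Y118.HP.FI
import Pool.Agent.Y118.HP.LegC
import Pool.Agent.TH818.AP.Api

/-!
# Independence of the monomials in the trivialised periods
-/

set_option autoImplicit false

open Matrix Polynomial

namespace Pool.Agent.Y118.HP

variable {n : ℕ}

/-- the real period matrix of `y² = f(x) (x - t)` -/
noncomputable def RM (a : Fin n → ℝ) (m : Fin (n + 1)) (t : ℝ) : Matrix (Fin n) (Fin n) ℝ := perM (er a m t)

theorem RM_leg (hn : Even n) {a : Fin n → ℝ} (ha : StrictMono a) {m : Fin (n + 1)} {f : ℚ[X]}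
    (hf : f.map (algebraMap ℚ ℝ) = ∏ i, (X - C (a i))) {t : ℝ} (ht : InGap a m t) :
    RM a m t * (Qp n f).map (aeval t) * (RM a m t).transpose = Real.pi • jm ℝ n := by
  rw [Qp_eval, hf, ← prod_er a m t]
  exact legendre hn (er a m t) (er_strictMono ha ht)

theorem PM_real {a : Fin n → ℝ} (ha : StrictMono a) {m : Fin (n + 1)} {t : ℝ} (ht : InGap a m t) :
    PM a m (t : ℂ) = (RM a m t).map (algebraMap ℝ ℂ) := by
  ext l j
  unfold PM RM perM
  rw [Matrix.of_apply, Matrix.map_apply, Matrix.of_apply, perC_eq_per ha ht]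
  rfl

theorem map_aeval_real (M : Matrix (Fin n) (Fin n) ℚ[X]) (t : ℝ) :
    M.map (aeval (t : ℂ)) = (M.map (aeval t)).map (algebraMap ℝ ℂ) := by
  ext i j
  rw [Matrix.map_apply, Matrix.map_apply, Matrix.map_apply]
  have := Polynomial.aeval_algebraMap_apply ℂ t (M i j)
  simpa using this

theorem jm_mapC : (jm ℝ n).map (algebraMap ℝ ℂ) = jm ℂ n := jm_map (algebraMap ℝ ℂ)

/-- the Legendre relation over `ℂ` -/
theorem RM_legC (hn : Even n) {a : Fin n → ℝ} (ha : StrictMono a) {m : Fin (n + 1)} {f : ℚ[X]}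
    (hf : f.map (algebraMap ℚ ℝ) = ∏ i, (X - C (a i))) {t : ℝ} (ht : InGap a m t) :
    (RM a m t).map (algebraMap ℝ ℂ) * (Qp n f).map (aeval (t : ℂ)) * ((RM a m t).map (algebraMap ℝ ℂ)).transpose =
      (Real.pi : ℂ) • jm ℂ n := by
  rw [map_aeval_real, ← Matrix.transpose_map, ← Matrix.map_mul, ← Matrix.map_mul, RM_leg hn ha hf ht, ← jm_mapC]
  ext i j
  simp [Matrix.smul_apply, Matrix.map_apply]

theorem Qp_det_ne (hn : Even n) {a : Fin n → ℝ} (ha : StrictMono a) (f : ℚ[X])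
    (hf : f.map (algebraMap ℚ ℝ) = ∏ i, (X - C (a i))) : (Qp n f).det ≠ 0 := by
  intro h0
  obtain ⟨t, ht⟩ := exists_inGap ha (0 : Fin (n + 1))
  have h1 := congrArg Matrix.det (RM_leg hn ha hf ht)
  rw [Matrix.det_mul, Matrix.det_mul] at h1
  have h2 : ((Qp n f).map (aeval t)).det = (0 : ℝ) := by
    have : ((Qp n f).map (aeval t : ℚ[X] →ₐ[ℚ] ℝ)).det = aeval t (Qp n f).det :=
      (AlgHom.map_det (aeval t : ℚ[X] →ₐ[ℚ] ℝ) _).symm
    rw [this, h0, map_zero]
  rw [h2, mul_zero, zero_mul, Matrix.det_smul] at h1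
  exact mul_ne_zero (pow_ne_zero _ Real.pi_ne_zero) (jm_det hn) h1.symm

/-- the functions of the one-parameter theorem -/
noncomputable def gf (a : Fin n → ℝ) (m : Fin (n + 1)) (c : ℚ[X]) (V : Matrix (Fin n) (Fin n) ℚ[X])
    (s : Fin n × Fin n → ℕ) (t : ℝ) : ℝ :=
  aeval t c * mnm (RM a m t * V.map (aeval t)) s

theorem gf_analytic {a : Fin n → ℝ} (ha : StrictMono a) (m : Fin (n + 1)) (c : ℚ[X])
    (V : Matrix (Fin n) (Fin n) ℚ[X]) (s : Fin n × Fin n → ℕ) {t : ℝ} (ht : InGap a m t) :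
    AnalyticAt ℝ (gf a m c V s) t := by
  have hpoly : ∀ q : ℚ[X], AnalyticAt ℝ (fun t : ℝ => (aeval t q : ℝ)) t := by
    intro q
    have : (fun t : ℝ => (aeval t q : ℝ)) = fun t => (q.map (algebraMap ℚ ℝ)).eval t := by
      funext t
      rw [eval_map_algebraMap]
    rw [this]
    exact AnalyticOnNhd.eval_polynomial (𝕜 := ℝ) _ t (Set.mem_univ t)
  unfold gf mnm
  refine (hpoly c).mul ?_
  refine Finset.analyticAt_fun_prod _ fun x _ => ?_
  refine AnalyticAt.pow ?_ _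
  simp only [Matrix.mul_apply]
  refine Finset.analyticAt_fun_sum _ fun k _ => ?_
  refine AnalyticAt.mul ?_ ?_
  · exact per_analytic ha m x.1 k ht
  · exact hpoly _

theorem SpS_inv {h : Matrix (Fin n) (Fin n) ℂ} (hn : Even n) (hh : h ∈ SpS ℂ n) : h⁻¹ ∈ SpS ℂ n ∧ h⁻¹ * h = 1 := by
  have h1 : h * jm ℂ n * h.transpose = jm ℂ n := hh
  have hdet : h.det ≠ 0 := by
    intro h0
    have := congrArg Matrix.det h1
    rw [Matrix.det_mul, Matrix.det_mul, h0, zero_mul, zero_mul] at this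
    exact jm_det hn this.symm
  have hu : IsUnit h.det := isUnit_iff_ne_zero.2 hdet
  have h2 := nonsing_inv_mul h hu
  refine ⟨?_, h2⟩
  show h⁻¹ * jm ℂ n * (h⁻¹).transpose = jm ℂ n
  have h3 : h.transpose * (h⁻¹).transpose = 1 := by
    rw [← Matrix.transpose_mul, h2, Matrix.transpose_one]
  calc h⁻¹ * jm ℂ n * (h⁻¹).transpose = h⁻¹ * (h * jm ℂ n * h.transpose) * (h⁻¹).transpose := by rw [h1]
    _ = (h⁻¹ * h) * jm ℂ n * (h.transpose * (h⁻¹).transpose) := by simp only [Matrix.mul_assoc]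
    _ = jm ℂ n := by rw [h2, h3, one_mul, mul_one]

/-- independence over `ℝ[t]` -/
theorem gf_indep (hn : Even n) {a : Fin n → ℝ} (ha : StrictMono a) {m : Fin (n + 1)} {f : ℚ[X]}
    (hf : f.map (algebraMap ℚ ℝ) = ∏ i, (X - C (a i))) {α β : ℝ} (hαβ : α < β)
    (hgap : ∀ t ∈ Set.Icc α β, InGap a m t) {c : ℚ[X]} (hc : c ≠ 0) {V : Matrix (Fin n) (Fin n) ℚ[X]}
    (hVJ : V * jm ℚ[X] n * V.transpose = c ^ 2 • Qp n f) {κ : Type} [Fintype κ] {b : κ → Fin n × Fin n → ℕ}
    (hb : ∀ x : κ → ℂ, (∀ g ∈ SpS ℂ n, ∑ k, x k * mnm g (b k) = 0) → x = 0) :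
    Pool.Agent.TH818.AP.RIndep (fun k => gf a m c V (b k)) α β := by
  classical
  intro p hp
  -- the polynomial relation
  set e0 : ℂ[X] →ₐ[ℂ] MvPolynomial (Option (Fin n × Fin n)) ℂ := Polynomial.aeval (MvPolynomial.X none) with he0
  set P : MvPolynomial (Option (Fin n × Fin n)) ℂ := ∑ k, e0 ((p k).map (algebraMap ℝ ℂ)) *
    (e0 (c.map (algebraMap ℚ ℂ)) * ∏ x : Fin n × Fin n, (∑ i, MvPolynomial.X (some (x.1, i)) *
      e0 ((V i x.2).map (algebraMap ℚ ℂ))) ^ b k x) with hP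
  have hev0 : ∀ (z : ℂ) (X : Matrix (Fin n) (Fin n) ℂ) (q : ℂ[X]), ev (e0 q) z X = q.eval z := by
    intro z X q
    unfold ev
    rw [← MvPolynomial.coe_aeval_eq_eval, RingHom.coe_coe, he0, ← Polynomial.aeval_algHom_apply, MvPolynomial.aeval_X]
    simp [Polynomial.coe_aeval_eq_eval]
  have hev : ∀ (z : ℂ) (X : Matrix (Fin n) (Fin n) ℂ), ev P z X = ∑ k, (aeval z (p k) : ℂ) *
      ((aeval z c : ℂ) * mnm (X * V.map (aeval z)) (b k)) := by
    intro z X
    have h1 : ev P z X = ∑ k, ev (e0 ((p k).map (algebraMap ℝ ℂ))) z X *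
        (ev (e0 (c.map (algebraMap ℚ ℂ))) z X * ∏ x : Fin n × Fin n, (∑ i, X x.1 i *
          ev (e0 ((V i x.2).map (algebraMap ℚ ℂ))) z X) ^ b k x) := by
      rw [hP]
      unfold ev
      simp only [map_sum, map_mul, map_prod, map_pow, MvPolynomial.eval_X, Option.elim]
    rw [h1]
    refine Finset.sum_congr rfl fun k _ => ?_
    rw [hev0, hev0, eval_map_algebraMap, eval_map_algebraMap]
    congr 2
    unfold mnm
    refine Finset.prod_congr rfl fun x _ => ?_
    congr 1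
    rw [Matrix.mul_apply]
    refine Finset.sum_congr rfl fun i _ => ?_
    rw [hev0, eval_map_algebraMap]
    rfl
  have hreal : ∀ t ∈ Set.Icc α β, ev P (t : ℂ) (PM a m t) = 0 := by
    intro t ht
    rw [hev, PM_real ha (hgap t ht), map_aeval_real, ← Matrix.map_mul]
    have h1 := hp t ht
    have h2 := congrArg (algebraMap ℝ ℂ) h1
    rw [map_sum, map_zero] at h2
    rw [← h2]
    refine Finset.sum_congr rfl fun k _ => ?_
    rw [mnm_map]
    unfold gf
    rw [map_mul, map_mul]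
    congr 1
    · have := Polynomial.aeval_algebraMap_apply ℂ t (p k)
      rw [coe_aeval_eq_eval] at this
      simpa using this
    · congr 1
      have := Polynomial.aeval_algebraMap_apply ℂ t c
      simpa using this
  have key : ∀ t ∈ Set.Icc α β, (aeval t c : ℝ) ≠ 0 → ∀ k, (p k).eval t = 0 := by
    intro t ht hct k
    have htg := hgap t ht
    set ct : ℂ := aeval (t : ℂ) c with hctd
    have hct' : ct = ((aeval t c : ℝ) : ℂ) := by
      have := Polynomial.aeval_algebraMap_apply ℂ t c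
      simpa using this
    have hct0 : ct ≠ 0 := by rw [hct']; exact_mod_cast hct
    set ν : ℂ := ct * ((√Real.pi : ℝ) : ℂ) with hν
    have hπ : (((√Real.pi : ℝ)) : ℂ) ^ 2 = (Real.pi : ℂ) := by
      rw [← Complex.ofReal_pow, Real.sq_sqrt Real.pi_pos.le]
    have hν0 : ν ≠ 0 := by
      refine mul_ne_zero hct0 ?_
      exact_mod_cast (Real.sqrt_pos.2 Real.pi_pos).ne'
    set Y := PM a m (t : ℂ) * V.map (aeval (t : ℂ)) with hY
    have e2 : V.map (aeval (t : ℂ)) * jm ℂ n * (V.map (aeval (t : ℂ))).transpose =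
        ct ^ 2 • (Qp n f).map (aeval (t : ℂ)) := by
      have h1 : (jm ℚ[X] n).map (aeval (t : ℂ) : ℚ[X] →ₐ[ℚ] ℂ) = jm ℂ n :=
        jm_map (aeval (t : ℂ) : ℚ[X] →ₐ[ℚ] ℂ).toRingHom
      rw [← h1, ← Matrix.map_mul, ← Matrix.transpose_map, ← Matrix.map_mul, hVJ]
      ext i j
      simp [Matrix.smul_apply, smul_eq_mul, hctd]
    have hYJ : Y * jm ℂ n * Y.transpose = ν ^ 2 • jm ℂ n := by
      calc Y * jm ℂ n * Y.transpose = PM a m (t : ℂ) * (V.map (aeval (t : ℂ)) * jm ℂ n *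
            (V.map (aeval (t : ℂ))).transpose) * (PM a m (t : ℂ)).transpose := by
            rw [hY, Matrix.transpose_mul]; simp only [Matrix.mul_assoc]
        _ = ν ^ 2 • jm ℂ n := by
            rw [e2, Matrix.mul_smul, Matrix.smul_mul, PM_real ha htg, RM_legC hn ha hf htg, smul_smul, hν, mul_pow, hπ]
    set h := ν⁻¹ • Y with hh
    have hhS : h ∈ SpS ℂ n := by
      show h * jm ℂ n * h.transpose = jm ℂ n
      rw [hh, Matrix.transpose_smul, Matrix.smul_mul, Matrix.mul_smul, Matrix.smul_mul, hYJ, smul_smul, smul_smul]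
      have : ν⁻¹ * ν⁻¹ * ν ^ 2 = 1 := by field_simp
      rw [this, one_smul]
    have hYh : Y = ν • h := by
      rw [hh, smul_smul, mul_inv_cancel₀ hν0, one_smul]
    obtain ⟨hi1, hi2⟩ := SpS_inv hn hhS
    have hx := hb (fun k => (aeval (t : ℂ) (p k) : ℂ) * (ct * ν ^ dg (b k))) (fun g hg => by
      have h3 := func_inv hn ha m P hαβ hgap hreal (g * h⁻¹) (SpS_mul hg hi1) (t : ℂ) htg.mem_Dm
      rw [hev] at h3
      rw [← h3]
      refine Finset.sum_congr rfl fun k _ => ?_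
      have h4 : g * h⁻¹ * PM a m (t : ℂ) * V.map (aeval (t : ℂ)) = ν • g := by
        calc g * h⁻¹ * PM a m (t : ℂ) * V.map (aeval (t : ℂ)) = g * h⁻¹ * Y := by rw [hY]; simp only [Matrix.mul_assoc]
          _ = ν • (g * (h⁻¹ * h)) := by
            rw [hYh, Matrix.mul_smul]; simp only [Matrix.mul_assoc]
          _ = ν • g := by rw [hi2, mul_one]
      rw [h4, mnm_smul, ← hctd]
      ring)
    have hxk := congrFun hx k
    simp only [Pi.zero_apply, mul_eq_zero, hct0, pow_eq_zero_iff', hν0, false_and, or_false] at hxk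
    have h5 : (aeval (t : ℂ) (p k) : ℂ) = (((p k).eval t : ℝ) : ℂ) := by
      have := Polynomial.aeval_algebraMap_apply ℂ t (p k)
      rw [coe_aeval_eq_eval] at this
      simpa using this
    rw [h5] at hxk
    exact_mod_cast hxk
  funext k
  rw [Pi.zero_apply]
  have hprod : ∀ t ∈ Set.Icc α β, ((p k) * c.map (algebraMap ℚ ℝ)).eval t = 0 := by
    intro t ht
    rw [eval_mul, eval_map_algebraMap]
    by_cases hct : (aeval t c : ℝ) = 0
    · rw [hct, mul_zero]
    · rw [key t ht hct k, zero_mul]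
  have hz : (p k) * c.map (algebraMap ℚ ℝ) = 0 := by
    refine Polynomial.eq_zero_of_infinite_isRoot _ ?_
    exact (Set.Icc_infinite hαβ).mono fun t ht => hprod t ht
  have hc' : c.map (algebraMap ℚ ℝ) ≠ 0 := (Polynomial.map_ne_zero_iff (algebraMap ℚ ℝ).injective).2 hc
  exact (mul_eq_zero.1 hz).resolve_right hc'

end Pool.Agent.Y118.HP
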