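import Pool.Agent.Y118.HP.Sp

/-!
# The symplectic group: generation, rational points, paths
-/

set_option autoImplicit false

open Matrix

namespace Pool.Agent.Y118.HP

variable {n : ℕ}

/-- symplectic matrices -/
def SpS (K : Type*) [Field K] (n : ℕ) : Set (Matrix (Fin n) (Fin n) K) :=
  {g | g * jm K n * g.transpose = jm K n}

/-- the symplectic group is generated by the transvections -/
theorem sp_gen (hn : Even n) (S : Submonoid (Matrix (Fin n) (Fin n) ℂ)) (hS : ∀ v s, TV v s ∈ S)
    (g : Matrix (Fin n) (Fin n) ℂ) (hg : g * jm ℂ n * g.transpose = jm ℂ n) : g ∈ S := by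
  have hdet : IsUnit (jm ℂ n).det := (jm_det hn).isUnit
  set ω : (Fin n → ℂ) →ₗ[ℂ] (Fin n → ℂ) →ₗ[ℂ] ℂ := Matrix.toLinearMap₂' ℂ (-(jm ℂ n)⁻¹) with hω
  have hωa : ∀ u v, ω u v = -(u ⬝ᵥ ((jm ℂ n)⁻¹ *ᵥ v)) := by
    intro u v
    rw [hω, Matrix.toLinearMap₂'_apply', neg_mulVec, dotProduct_neg]
  have hJinvT : ((jm ℂ n)⁻¹).transpose = -(jm ℂ n)⁻¹ := by
    rw [transpose_nonsing_inv, jm_transpose]
    apply inv_eq_left_inv
    rw [neg_mul_neg, nonsing_inv_mul _ hdet]
  have h0 : ∀ v, ω v v = 0 := by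
    intro v
    have h1 : v ⬝ᵥ ((jm ℂ n)⁻¹ *ᵥ v) = v ⬝ᵥ (((jm ℂ n)⁻¹).transpose *ᵥ v) := by
      rw [mulVec_transpose, dotProduct_comm v (v ᵥ* _), ← dotProduct_mulVec]
    rw [hJinvT, neg_mulVec, dotProduct_neg] at h1
    rw [hωa]
    have : (2 : ℂ) * (v ⬝ᵥ ((jm ℂ n)⁻¹ *ᵥ v)) = 0 := by linear_combination h1
    simp only [mul_eq_zero, OfNat.ofNat_ne_zero, false_or] at this
    rw [this, neg_zero]
  have hnd : ∀ u, (∀ v, ω u v = 0) → u = 0 := by
    intro u hu
    have h1 : ∀ w : Fin n → ℂ, u ⬝ᵥ w = 0 := by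
      intro w
      have h2 := hu (jm ℂ n *ᵥ w)
      rw [hωa, mulVec_mulVec, nonsing_inv_mul _ hdet, one_mulVec, neg_eq_zero] at h2
      exact h2
    funext i
    have := h1 (Pi.single i 1)
    rwa [dotProduct_single_one] at this
  have hg' : g.transpose * (jm ℂ n)⁻¹ * g = (jm ℂ n)⁻¹ := by
    have h1 : g * (jm ℂ n * g.transpose * (jm ℂ n)⁻¹) = 1 := by
      rw [← mul_assoc, ← mul_assoc, hg, mul_nonsing_inv _ hdet]
    have h2 : (jm ℂ n * g.transpose * (jm ℂ n)⁻¹) * g = 1 := mul_eq_one_comm.1 h1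
    calc g.transpose * (jm ℂ n)⁻¹ * g = (jm ℂ n)⁻¹ * ((jm ℂ n * g.transpose * (jm ℂ n)⁻¹) * g) := by
          rw [← mul_assoc, ← mul_assoc, ← mul_assoc, nonsing_inv_mul _ hdet, one_mul]
      _ = (jm ℂ n)⁻¹ := by rw [h2, mul_one]
  have hpres : ∀ u v, ω (Matrix.toLin' g u) (Matrix.toLin' g v) = ω u v := by
    intro u v
    rw [hωa, hωa, toLin'_apply, toLin'_apply, mulVec_mulVec, dotProduct_mulVec, ← vecMul_transpose,
      vecMul_vecMul, ← mul_assoc, hg', ← dotProduct_mulVec]
  have hmem := Pool.Agent.W948.ZC.TR.aux ℂ _ (Fin n → ℂ) ω rfl h0 hnd (Matrix.toLin' g) hpres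
  have key : ∀ T ∈ Pool.Agent.W948.ZC.TR.G ω, LinearMap.toMatrix' T ∈ S := by
    intro T hT
    unfold Pool.Agent.W948.ZC.TR.G at hT
    induction hT using Submonoid.closure_induction with
    | mem T h =>
      obtain ⟨c, u, rfl⟩ := h
      have h1 : LinearMap.toMatrix' (1 + c • (ω u).smulRight u) = TV ((jm ℂ n)⁻¹ *ᵥ u) c := by
        apply (Matrix.toLin'.injective)
        rw [toLin'_toMatrix']
        ext x i
        have h2 : (Matrix.toLin' (TV ((jm ℂ n)⁻¹ *ᵥ u) c)) (Pi.single x 1) =
            TV ((jm ℂ n)⁻¹ *ᵥ u) c *ᵥ (Pi.single x 1) := rfl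
        rw [LinearMap.comp_apply, LinearMap.comp_apply, LinearMap.single_apply, h2, TV_mulVec, mulVec_mulVec,
          mul_nonsing_inv _ hdet, one_mulVec]
        have h3 : ((jm ℂ n)⁻¹ *ᵥ u) ⬝ᵥ (Pi.single x (1 : ℂ)) = ω u (Pi.single x 1) := by
          rw [hωa, dotProduct_comm, ← vecMul_transpose, hJinvT, dotProduct_comm, ← dotProduct_mulVec, neg_mulVec,
            dotProduct_neg]
        rw [h3]
        simp [LinearMap.add_apply, mul_assoc]
      rw [h1]
      exact hS _ c
    | one =>
      have : LinearMap.toMatrix' (1 : Module.End ℂ (Fin n → ℂ)) = 1 := LinearMap.toMatrix'_id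
      rw [this]
      exact one_mem _
    | mul A B _ _ hA hB =>
      have : LinearMap.toMatrix' (A * B) = LinearMap.toMatrix' A * LinearMap.toMatrix' B :=
        LinearMap.toMatrix'_mul A B
      rw [this]
      exact mul_mem hA hB
  have := key _ hmem
  rwa [LinearMap.toMatrix'_toLin'] at this

section tv

variable {K : Type*} [Field K]

theorem SpS_mul {g h : Matrix (Fin n) (Fin n) K} (hg : g ∈ SpS K n) (hh : h ∈ SpS K n) : g * h ∈ SpS K n := by
  unfold SpS at *
  simp only [Set.mem_ofPred_eq] at *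
  rw [transpose_mul]
  calc g * h * jm K n * (h.transpose * g.transpose) = g * (h * jm K n * h.transpose) * g.transpose := by
        simp only [Matrix.mul_assoc]
    _ = jm K n := by rw [hh, hg]

theorem SpS_one : (1 : Matrix (Fin n) (Fin n) K) ∈ SpS K n := by
  unfold SpS; simp

theorem SpS_neg {g : Matrix (Fin n) (Fin n) K} (hg : g ∈ SpS K n) : -g ∈ SpS K n := by
  unfold SpS at *
  simp only [Set.mem_ofPred_eq, transpose_neg, Matrix.neg_mul, Matrix.mul_neg, neg_neg] at *
  exact hg

/-- transvections over any field -/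
def TVK (v : Fin n → K) (s : K) : Matrix (Fin n) (Fin n) K := 1 + s • vecMulVec (jm K n *ᵥ v) v

theorem dot_jm (h2 : (2 : K) ≠ 0) (v : Fin n → K) : v ⬝ᵥ (jm K n *ᵥ v) = 0 := by
  have h1 : v ⬝ᵥ (jm K n *ᵥ v) = v ⬝ᵥ ((jm K n).transpose *ᵥ v) := by
    rw [mulVec_transpose, dotProduct_comm v (v ᵥ* _), ← dotProduct_mulVec]
  rw [jm_transpose, neg_mulVec, dotProduct_neg] at h1
  have : (2 : K) * (v ⬝ᵥ (jm K n *ᵥ v)) = 0 := by linear_combination h1
  exact (mul_eq_zero.1 this).resolve_left h2

theorem TVK_mem (h2 : (2 : K) ≠ 0) (v : Fin n → K) (s : K) : TVK v s ∈ SpS K n := by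
  show TVK v s * jm K n * (TVK v s).transpose = jm K n
  unfold TVK
  set w := jm K n *ᵥ v with hw
  have h1 : vecMulVec w v * jm K n = -vecMulVec w w := by
    rw [vecMulVec_mul]
    have : v ᵥ* jm K n = -w := by
      rw [← mulVec_transpose, jm_transpose, neg_mulVec]
    rw [this, vecMulVec_neg]
  have h3 : jm K n * vecMulVec v w = vecMulVec w w := by
    rw [mul_vecMulVec]
  have h4 : vecMulVec w w * vecMulVec v w = 0 := by
    rw [vecMulVec_mul_vecMulVec, dotProduct_comm, dot_jm h2]
    simp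
  rw [transpose_add, transpose_one, transpose_smul, transpose_vecMulVec, add_mul, one_mul, Matrix.smul_mul, h1, mul_add,
    mul_one, add_mul, Matrix.mul_smul, h3, Matrix.smul_mul, Matrix.neg_mul, Matrix.mul_smul, h4]
  simp

end tv

theorem TV_eq (v : Fin n → ℂ) (s : ℂ) : TV v s = TVK v s := rfl

/-- evaluation at the entries of a matrix -/
noncomputable def evM {K : Type*} [Field K] (P : MvPolynomial (Fin n × Fin n) K) (X : Matrix (Fin n) (Fin n) K) : K :=
  MvPolynomial.eval (fun x => X x.1 x.2) P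

/-- left multiplication of the variables by a matrix of polynomials -/
noncomputable def sbP {τ : Type*} (M : Matrix (Fin n) (Fin n) (MvPolynomial τ ℂ)) (h : Matrix (Fin n) (Fin n) ℂ)
    (P : MvPolynomial (Fin n × Fin n) ℂ) : MvPolynomial τ ℂ :=
  MvPolynomial.bind₁ (fun x => ∑ k, M x.1 k * MvPolynomial.C (h k x.2)) P

theorem eval_sbP {τ : Type*} (M : Matrix (Fin n) (Fin n) (MvPolynomial τ ℂ)) (h : Matrix (Fin n) (Fin n) ℂ)
    (P : MvPolynomial (Fin n × Fin n) ℂ) (y : τ → ℂ) :
    MvPolynomial.eval y (sbP M h P) = evM P (M.map (MvPolynomial.eval y) * h) := by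
  unfold sbP evM
  rw [← MvPolynomial.coe_aeval_eq_eval, ← MvPolynomial.coe_aeval_eq_eval]
  simp only [RingHom.coe_coe]
  rw [MvPolynomial.aeval_bind₁]
  congr 2
  funext x
  simp [Matrix.mul_apply, MvPolynomial.aeval_eq_eval]

/-- the rational points are dense -/
theorem dense_rat (hn : Even n) (P : MvPolynomial (Fin n × Fin n) ℂ)
    (hP : ∀ g ∈ SpS ℚ n, evM P (g.map (algebraMap ℚ ℂ)) = 0) : ∀ g ∈ SpS ℂ n, evM P g = 0 := by
  classical
  set S : Submonoid (Matrix (Fin n) (Fin n) ℂ) :=
    { carrier := {g | ∀ P : MvPolynomial (Fin n × Fin n) ℂ, (∀ h ∈ SpS ℚ n, evM P (h.map (algebraMap ℚ ℂ)) = 0) →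
        ∀ h ∈ SpS ℚ n, evM P (g * h.map (algebraMap ℚ ℂ)) = 0}
      one_mem' := by
        intro P hP h hh
        rw [one_mul]
        exact hP h hh
      mul_mem' := by
        intro g1 g2 h1 h2 P hP h hh
        have e1 : ∀ X : Matrix (Fin n) (Fin n) ℂ, evM (MvPolynomial.bind₁ (fun x : Fin n × Fin n =>
            ∑ k, MvPolynomial.C (g1 x.1 k) * MvPolynomial.X (k, x.2)) P) X = evM P (g1 * X) := by
          intro X
          unfold evM
          rw [← MvPolynomial.coe_aeval_eq_eval, ← MvPolynomial.coe_aeval_eq_eval]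
          simp only [RingHom.coe_coe]
          rw [MvPolynomial.aeval_bind₁]
          congr 2
          funext x
          simp [Matrix.mul_apply]
        have := h2 _ (fun h' hh' => by rw [e1]; exact h1 P hP h' hh') h hh
        rw [e1] at this
        rw [mul_assoc]
        exact this } with hSdef
  have hS : ∀ v s, TV v s ∈ S := by
    intro v s P hP h hh
    -- the polynomial in `(s, v)`
    set M : Matrix (Fin n) (Fin n) (MvPolynomial (Option (Fin n)) ℂ) :=
      Matrix.of fun l c => (if l = c then 1 else 0) + MvPolynomial.X none *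
        ((∑ k, MvPolynomial.C (jm ℂ n l k) * MvPolynomial.X (some k)) * MvPolynomial.X (some c)) with hM
    have hMe : ∀ (v : Fin n → ℂ) (s : ℂ), M.map (MvPolynomial.eval fun o : Option (Fin n) => o.elim s v) = TV v s := by
      intro v s
      ext l c
      unfold TV
      rw [Matrix.map_apply, hM, Matrix.of_apply]
      simp only [map_add, map_mul, MvPolynomial.eval_X, map_sum, MvPolynomial.eval_C, Option.elim,
        Matrix.add_apply, Matrix.smul_apply, vecMulVec_apply, smul_eq_mul, mulVec, dotProduct, one_apply]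
      congr 1
      split_ifs <;> simp
    have hzero : sbP M (h.map (algebraMap ℚ ℂ)) P = 0 := by
      refine MvPolynomial.funext_set (fun _ : Option (Fin n) => Set.range (algebraMap ℚ ℂ))
        (fun _ => Set.infinite_range_of_injective (algebraMap ℚ ℂ).injective) ?_
      intro y hy
      rw [map_zero, eval_sbP]
      have hy' : ∀ o, ∃ q : ℚ, (q : ℂ) = y o := fun o => by
        obtain ⟨q, hq⟩ := hy o (Set.mem_univ _)
        exact ⟨q, by simpa using hq⟩
      choose q hq using hy'
      have h1 : y = fun o : Option (Fin n) => o.elim ((q none : ℚ) : ℂ) fun k => ((q (some k) : ℚ) : ℂ) := by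
        funext o
        rcases o with _ | k
        · exact (hq none).symm
        · exact (hq (some k)).symm
      rw [h1, hMe]
      have h2 : TV (fun k => ((q (some k) : ℚ) : ℂ)) ((q none : ℚ) : ℂ) =
          (TVK (fun k => q (some k)) (q none)).map (algebraMap ℚ ℂ) := by
        ext l c
        unfold TV TVK
        simp only [Matrix.add_apply, Matrix.smul_apply, vecMulVec_apply, smul_eq_mul, mulVec, dotProduct,
          Matrix.map_apply, one_apply, map_add, map_mul, map_sum, eq_ratCast]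
        congr 1
        · split_ifs <;> simp
        · congr 2
          refine Finset.sum_congr rfl fun k _ => ?_
          congr 1
          rw [jm_apply, jm_apply]
          split_ifs <;> simp
      rw [h2, ← Matrix.map_mul]
      exact hP _ (SpS_mul (TVK_mem two_ne_zero _ _) hh)
    have := eval_sbP M (h.map (algebraMap ℚ ℂ)) P (fun o : Option (Fin n) => o.elim s v)
    rw [hzero, map_zero, hMe] at this
    exact this.symm
  intro g hg
  have h1 := sp_gen hn S hS g hg P hP 1 SpS_one
  have h2 : (1 : Matrix (Fin n) (Fin n) ℚ).map (algebraMap ℚ ℂ) = 1 := by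
    rw [Matrix.map_one _ (map_zero _) (map_one _)]
  rw [h2, mul_one] at h1
  exact h1

/-- paths: every symplectic matrix is joined to the identity by a polynomial path -/
theorem exists_path (hn : Even n) (g : Matrix (Fin n) (Fin n) ℂ) (hg : g ∈ SpS ℂ n) :
    ∃ G : Matrix (Fin n) (Fin n) (Polynomial ℂ), G.map (Polynomial.eval 0) = 1 ∧ G.map (Polynomial.eval 1) = g ∧
      ∀ s, G.map (Polynomial.eval s) ∈ SpS ℂ n := by
  classical
  set S : Submonoid (Matrix (Fin n) (Fin n) ℂ) :=
    { carrier := {g | ∃ G : Matrix (Fin n) (Fin n) (Polynomial ℂ), G.map (Polynomial.eval 0) = 1 ∧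
        G.map (Polynomial.eval 1) = g ∧ ∀ s, G.map (Polynomial.eval s) ∈ SpS ℂ n}
      one_mem' := ⟨1, by rw [Matrix.map_one _ (by simp) (by simp)], by rw [Matrix.map_one _ (by simp) (by simp)],
        fun s => by rw [Matrix.map_one _ (by simp) (by simp)]; exact SpS_one⟩
      mul_mem' := by
        rintro g1 g2 ⟨G1, a1, b1, c1⟩ ⟨G2, a2, b2, c2⟩
        have hm : ∀ s : ℂ, (G1 * G2).map (Polynomial.eval s) = G1.map (Polynomial.eval s) * G2.map (Polynomial.eval s) := by
          intro s
          have := Matrix.map_mul (L := G1) (M := G2) (f := Polynomial.evalRingHom s)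
          simpa using this
        refine ⟨G1 * G2, ?_, ?_, fun s => ?_⟩
        · rw [hm, a1, a2, one_mul]
        · rw [hm, b1, b2]
        · rw [hm]; exact SpS_mul (c1 s) (c2 s) } with hSdef
  have hS : ∀ v s, TV v s ∈ S := by
    intro v s
    refine ⟨Matrix.of fun l c => Polynomial.C ((1 : Matrix (Fin n) (Fin n) ℂ) l c) +
      Polynomial.X * Polynomial.C (s * (vecMulVec (jm ℂ n *ᵥ v) v) l c), ?_, ?_, fun r => ?_⟩
    · ext l c; simp
    · ext l c
      unfold TV
      simp
    · have : (Matrix.of fun l c => Polynomial.C ((1 : Matrix (Fin n) (Fin n) ℂ) l c) +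
          Polynomial.X * Polynomial.C (s * (vecMulVec (jm ℂ n *ᵥ v) v) l c)).map (Polynomial.eval r) = TV v (r * s) := by
        ext l c
        unfold TV
        simp [mul_assoc]
      rw [this]
      exact TVK_mem two_ne_zero _ _
  exact sp_gen hn S hS g hg

end Pool.Agent.Y118.HP
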