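import Pool.Agent.Y118.HP.Alg1

/-!
# A basis of the functions on the symplectic group, made of monomials
-/

set_option autoImplicit false

open Matrix

namespace Pool.Agent.Y118.HP

variable {n : ℕ}

/-- monomials in the entries of a matrix -/
def mnm {K : Type*} [CommRing K] (X : Matrix (Fin n) (Fin n) K) (s : Fin n × Fin n → ℕ) : K :=
  ∏ x, X x.1 x.2 ^ s x

/-- the degree -/
def dg (s : Fin n × Fin n → ℕ) : ℕ := ∑ x, s x

theorem mnm_smul {K : Type*} [CommRing K] (c : K) (X : Matrix (Fin n) (Fin n) K) (s : Fin n × Fin n → ℕ) :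
    mnm (c • X) s = c ^ dg s * mnm X s := by
  unfold mnm dg
  rw [← Finset.prod_pow_eq_pow_sum, ← Finset.prod_mul_distrib]
  refine Finset.prod_congr rfl fun x _ => ?_
  rw [Matrix.smul_apply, smul_eq_mul, mul_pow]

theorem mnm_neg {K : Type*} [CommRing K] (X : Matrix (Fin n) (Fin n) K) (s : Fin n × Fin n → ℕ) :
    mnm (-X) s = (-1) ^ dg s * mnm X s := by
  have : -X = (-1 : K) • X := by simp
  rw [this, mnm_smul]

theorem mnm_map {K L : Type*} [CommRing K] [CommRing L] (φ : K →+* L) (X : Matrix (Fin n) (Fin n) K)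
    (s : Fin n × Fin n → ℕ) : mnm (X.map φ) s = φ (mnm X s) := by
  unfold mnm
  rw [map_prod]
  refine Finset.prod_congr rfl fun x _ => ?_
  rw [Matrix.map_apply, map_pow]

theorem jm_map {K L : Type*} [Ring K] [Ring L] (φ : K →+* L) : (jm K n).map φ = jm L n := by
  ext r s
  rw [Matrix.map_apply]
  unfold jm
  simp only [Matrix.of_apply]
  split_ifs <;> simp

theorem SpS_map {K L : Type*} [Field K] [Field L] (φ : K →+* L) {g : Matrix (Fin n) (Fin n) K}
    (hg : g ∈ SpS K n) : g.map φ ∈ SpS L n := by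
  unfold SpS at *
  simp only [Set.mem_ofPred_eq] at *
  rw [← jm_map φ, ← Matrix.map_mul, ← Matrix.transpose_map, ← Matrix.map_mul, hg]

/-- a basis of the span of the monomials with exponents `≤ D`, as functions on the symplectic group -/
theorem exists_basis (hn : Even n) (D : ℕ) :
    ∃ (κ : Type) (_ : Fintype κ) (b : κ → Fin n × Fin n → ℕ) (w : (Fin n × Fin n → ℕ) → κ → ℚ),
      Nonempty κ ∧ (∀ k x, b k x ≤ D) ∧
      (∀ s, (∀ x, s x ≤ D) → ∀ g ∈ SpS ℂ n, mnm g s = ∑ k, (w s k : ℂ) * mnm g (b k)) ∧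
      (∀ s, (∀ x, s x ≤ D) → ∀ k, w s k ≠ 0 → Even (dg s + dg (b k))) ∧
      (∀ x : κ → ℂ, (∀ g ∈ SpS ℂ n, ∑ k, x k * mnm g (b k) = 0) → x = 0) := by
  classical
  let v : (Fin n × Fin n → Fin (D + 1)) → (SpS ℚ n → ℚ) := fun s g => mnm g.1 (fun x => (s x : ℕ))
  obtain ⟨κ, a, ha, hspan, hli⟩ := exists_linearIndependent' ℚ v
  have : Finite κ := Finite.of_injective a ha
  have : Fintype κ := Fintype.ofFinite κ
  have hw : ∀ s, ∃ w : κ → ℚ, ∑ k, w k • v (a k) = v s := by
    intro s
    have h1 : v s ∈ Submodule.span ℚ (Set.range (v ∘ a)) := by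
      rw [hspan]; exact Submodule.subset_span ⟨s, rfl⟩
    exact (Submodule.mem_span_range_iff_exists_fun ℚ).1 h1
  choose w0 hw0 using hw
  set tr : (Fin n × Fin n → ℕ) → (Fin n × Fin n → Fin (D + 1)) := fun s x => ⟨min (s x) D, by omega⟩ with htr
  have htr' : ∀ s : Fin n × Fin n → ℕ, (∀ x, s x ≤ D) → (fun x => ((tr s x : Fin (D + 1)) : ℕ)) = s := by
    intro s hs
    funext x
    simp only [htr]
    exact min_eq_left (hs x)
  have hw1 : ∀ s, (∀ x, s x ≤ D) → ∀ g ∈ SpS ℚ n, mnm g s = ∑ k, w0 (tr s) k * mnm g (fun x => (a k x : ℕ)) := by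
    intro s hs g hg
    have := congrFun (hw0 (tr s)) ⟨g, hg⟩
    simp only [Finset.sum_apply, Pi.smul_apply, smul_eq_mul, v] at this
    rw [htr' s hs] at this
    exact this.symm
  refine ⟨κ, inferInstance, fun k x => (a k x : ℕ), fun s => w0 (tr s), ?_, ?_, ?_, ?_, ?_⟩
  · by_contra hne
    rw [not_nonempty_iff] at hne
    have h1 := hw1 0 (fun x => Nat.zero_le _) 1 SpS_one
    rw [Finset.univ_eq_empty, Finset.sum_empty] at h1
    unfold mnm at h1
    simp at h1
  · intro k x
    exact Nat.lt_succ_iff.1 (a k x).2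
  · intro s hs g hg
    set P : MvPolynomial (Fin n × Fin n) ℂ := (∏ x, MvPolynomial.X x ^ s x) -
      ∑ k, MvPolynomial.C ((w0 (tr s) k : ℚ) : ℂ) * ∏ x, MvPolynomial.X x ^ (a k x : ℕ) with hP
    have hev : ∀ g, evM P g = mnm g s - ∑ k, ((w0 (tr s) k : ℚ) : ℂ) * mnm g (fun x => (a k x : ℕ)) := by
      intro g
      unfold evM mnm
      rw [hP]
      simp [map_sub, map_sum, map_mul, map_prod, map_pow]
    have h1 := dense_rat hn P (fun g hg => by
      rw [hev]
      simp only [mnm_map]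
      rw [hw1 s hs g hg, map_sum, sub_eq_zero]
      refine Finset.sum_congr rfl fun k _ => ?_
      rw [map_mul, eq_ratCast, eq_ratCast]) g hg
    rw [hev, sub_eq_zero] at h1
    exact h1
  · intro s hs k hk
    have h1 : ∑ k, (w0 (tr s) k * ((-1) ^ dg (fun x => (a k x : ℕ)) - (-1) ^ dg s)) • (v ∘ a) k = 0 := by
      funext g
      have e1 := hw1 s hs g.1 g.2
      have e2 := hw1 s hs (-g.1) (SpS_neg g.2)
      simp only [mnm_neg] at e2
      rw [e1] at e2
      simp only [Finset.sum_apply, Pi.smul_apply, smul_eq_mul, Function.comp, Pi.zero_apply, v]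
      have e3 : ∑ k, w0 (tr s) k * ((-1) ^ dg (fun x => (a k x : ℕ)) - (-1) ^ dg s) * mnm g.1 (fun x => (a k x : ℕ)) =
          ∑ k, w0 (tr s) k * ((-1) ^ dg (fun x => (a k x : ℕ)) * mnm g.1 (fun x => (a k x : ℕ))) -
            (-1) ^ dg s * ∑ k, w0 (tr s) k * mnm g.1 (fun x => (a k x : ℕ)) := by
        rw [Finset.mul_sum, ← Finset.sum_sub_distrib]
        refine Finset.sum_congr rfl fun k _ => ?_
        ring
      rw [e3, e2, sub_self]
    have h2 := Fintype.linearIndependent_iff.1 hli _ h1 k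
    have h3 : ((-1 : ℚ)) ^ dg (fun x => (a k x : ℕ)) = (-1) ^ dg s := by
      have := (mul_eq_zero.1 h2).resolve_left hk
      linarith
    rcases Nat.even_or_odd (dg s) with h4 | h4
    · rw [h4.neg_one_pow] at h3
      rcases Nat.even_or_odd (dg fun x => (a k x : ℕ)) with h5 | h5
      · exact h4.add h5
      · rw [h5.neg_one_pow] at h3; norm_num at h3
    · rw [h4.neg_one_pow] at h3
      rcases Nat.even_or_odd (dg fun x => (a k x : ℕ)) with h5 | h5
      · rw [h5.neg_one_pow] at h3; norm_num at h3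
      · exact h4.add_odd h5
  · intro x hx
    funext k
    rw [Pi.zero_apply, ← Module.forall_dual_apply_eq_zero_iff ℚ]
    intro ℓ
    have h1 : ∑ k, ℓ (x k) • (v ∘ a) k = 0 := by
      funext g
      have h2 := hx (g.1.map (algebraMap ℚ ℂ)) (SpS_map _ g.2)
      have h3 := congrArg ℓ h2
      rw [map_sum, map_zero] at h3
      simp only [Finset.sum_apply, Pi.smul_apply, smul_eq_mul, Function.comp, Pi.zero_apply, v]
      rw [← h3]
      refine Finset.sum_congr rfl fun k _ => ?_
      rw [mnm_map]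
      have : x k * (algebraMap ℚ ℂ) (mnm g.1 fun x => (a k x : ℕ)) = (mnm g.1 fun x => (a k x : ℕ)) • x k := by
        rw [Algebra.smul_def, mul_comm]
      rw [this, map_smul, smul_eq_mul, mul_comm]
    exact Fintype.linearIndependent_iff.1 hli _ h1 k

end Pool.Agent.Y118.HP
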