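import Pool.Agent.Y118.HP.Alg2
import Pool.Agent.Y122.HPDar

/-!
# Trivialisation of the torsor over the field of rational functions
-/

set_option autoImplicit false

open Matrix Polynomial

namespace Pool.Agent.Y118.HP

variable {n : ℕ}

/-- the matrix of the Legendre relations of `y² = f(x) (x - t)`, as polynomials in `t` -/
noncomputable def Qp (n : ℕ) (f : ℚ[X]) : Matrix (Fin n) (Fin n) ℚ[X] :=
  Matrix.of fun i j => C ((((i : ℕ) : ℚ) - ((j : ℕ) : ℚ)) / 2) *
    (C (f.coeff ((i : ℕ) + (j : ℕ) + 1)) - X * C (f.coeff ((i : ℕ) + (j : ℕ) + 2)))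

theorem Qp_transpose (f : ℚ[X]) : (Qp n f).transpose = -Qp n f := by
  ext1 i j
  rw [Matrix.transpose_apply, Matrix.neg_apply]
  unfold Qp
  simp only [Matrix.of_apply]
  rw [show (j : ℕ) + (i : ℕ) = (i : ℕ) + (j : ℕ) by omega, ← neg_mul, ← C_neg]
  congr 2
  ring

theorem Qp_diag (f : ℚ[X]) (i : Fin n) : Qp n f i i = 0 := by
  unfold Qp
  simp

theorem Qp_eval {K : Type*} [Field K] [Algebra ℚ K] (f : ℚ[X]) (t : K) :
    (Qp n f).map (aeval t) = qm n (f.map (algebraMap ℚ K) * (X - C t)) := by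
  ext i j
  rw [Matrix.map_apply]
  unfold Qp qm
  simp only [Matrix.of_apply, map_mul, map_sub, aeval_C, aeval_X]
  have : (i : ℕ) + (j : ℕ) + 2 = ((i : ℕ) + (j : ℕ) + 1) + 1 := rfl
  rw [this, coeff_mul_X_sub_C, coeff_map, coeff_map]
  simp only [map_div₀, map_sub, map_natCast, map_ofNat]
  ring

theorem exists_triv (hn : Even n) (f : ℚ[X]) (hdet : (Qp n f).det ≠ 0) :
    ∃ (c : ℚ[X]) (U V : Matrix (Fin n) (Fin n) ℚ[X]), c ≠ 0 ∧ U * V = c ^ 2 • (1 : Matrix (Fin n) (Fin n) ℚ[X]) ∧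
      V * U = c ^ 2 • (1 : Matrix (Fin n) (Fin n) ℚ[X]) ∧ V * jm ℚ[X] n * V.transpose = c ^ 2 • Qp n f := by
  classical
  set K := FractionRing ℚ[X] with hK
  set φ : ℚ[X] →+* K := algebraMap ℚ[X] K with hφ
  have hinj : Function.Injective φ := IsFractionRing.injective ℚ[X] K
  have hA : ((Qp n f).map φ).transpose = -(Qp n f).map φ := by
    rw [← Matrix.transpose_map, Qp_transpose]
    ext i j
    simp
  have hA0 : ∀ i, ((Qp n f).map φ) i i = 0 := by
    intro i
    rw [Matrix.map_apply, Qp_diag, map_zero]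
  have hAd : ((Qp n f).map φ).det ≠ 0 := by
    have : ((Qp n f).map φ).det = φ (Qp n f).det := (RingHom.map_det φ _).symm
    rw [this]
    exact fun h => hdet (hinj (by rw [h, map_zero]))
  have hB0 : ∀ i, (jm K n) i i = 0 := fun i => jm_diag i
  obtain ⟨U0, hU0, hU⟩ := Pool.Agent.Y122.HPDar.darboux ((Qp n f).map φ) (jm K n) hA hA0 hAd jm_transpose hB0
    (jm_det hn)
  obtain ⟨b, hb⟩ := IsLocalization.exist_integer_multiples_of_finite (nonZeroDivisors ℚ[X])
    (fun x : Fin n × Fin n => U0 x.1 x.2)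
  choose u hu using hb
  set U : Matrix (Fin n) (Fin n) ℚ[X] := Matrix.of fun i j => u (i, j) with hUd
  have hUm : U.map φ = φ (b : ℚ[X]) • U0 := by
    ext i j
    rw [Matrix.map_apply, hUd, Matrix.of_apply, Matrix.smul_apply, smul_eq_mul]
    have := hu (i, j)
    rw [Algebra.smul_def] at this
    exact this
  set c : ℚ[X] := (b : ℚ[X]) with hc
  have hc0 : c ≠ 0 := nonZeroDivisors.ne_zero b.2
  have hmapinj : Function.Injective (fun M : Matrix (Fin n) (Fin n) ℚ[X] => M.map φ) :=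
    Matrix.map_injective hinj
  have hUQ : U * Qp n f * U.transpose = c ^ 2 • jm ℚ[X] n := by
    apply hmapinj
    show (U * Qp n f * U.transpose).map φ = (c ^ 2 • jm ℚ[X] n).map φ
    rw [Matrix.map_mul, Matrix.map_mul, Matrix.transpose_map, hUm]
    have e1 : (c ^ 2 • jm ℚ[X] n).map φ = φ c ^ 2 • jm K n := by
      rw [← jm_map φ]
      ext i j
      simp [Matrix.smul_apply, smul_eq_mul]
    rw [e1, ← hU]
    rw [Matrix.transpose_smul, Matrix.smul_mul, Matrix.mul_smul, Matrix.smul_mul, smul_smul, ← sq]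
  have hJdet : IsUnit (jm ℚ n).det := (jm_det hn).isUnit
  set Ji : Matrix (Fin n) (Fin n) ℚ[X] := ((jm ℚ n)⁻¹).map C with hJi
  have hJJ : jm ℚ[X] n * Ji = 1 := by
    rw [hJi, ← jm_map (C : ℚ →+* ℚ[X]), ← Matrix.map_mul, mul_nonsing_inv _ hJdet, Matrix.map_one _ (map_zero _) (map_one _)]
  have hJJ' : Ji * jm ℚ[X] n = 1 := by
    rw [hJi, ← jm_map (C : ℚ →+* ℚ[X]), ← Matrix.map_mul, nonsing_inv_mul _ hJdet, Matrix.map_one _ (map_zero _) (map_one _)]
  have hJT : (jm ℚ[X] n).transpose = -jm ℚ[X] n := by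
    rw [← jm_map (C : ℚ →+* ℚ[X]), ← Matrix.transpose_map, jm_transpose]
    ext i j
    simp
  have hJiT : Ji.transpose = -Ji := by
    have h1 : Ji.transpose * (jm ℚ[X] n).transpose = 1 := by
      rw [← Matrix.transpose_mul, hJJ, Matrix.transpose_one]
    rw [hJT, Matrix.mul_neg] at h1
    calc Ji.transpose = Ji.transpose * (jm ℚ[X] n * Ji) := by rw [hJJ, mul_one]
      _ = -((-(Ji.transpose * jm ℚ[X] n)) * Ji) := by rw [Matrix.neg_mul, neg_neg, Matrix.mul_assoc]
      _ = -Ji := by rw [h1, one_mul]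
  set V := Qp n f * U.transpose * Ji with hV
  have hUV : U * V = c ^ 2 • (1 : Matrix (Fin n) (Fin n) ℚ[X]) := by
    rw [hV, ← Matrix.mul_assoc, ← Matrix.mul_assoc, hUQ, Matrix.smul_mul, hJJ]
  have hdU : U.det ≠ 0 := by
    intro h0
    have := congrArg Matrix.det hUV
    rw [Matrix.det_mul, h0, zero_mul, Matrix.det_smul, Matrix.det_one, mul_one] at this
    exact (pow_ne_zero _ (pow_ne_zero _ hc0)) this.symm
  have hVU : V * U = c ^ 2 • (1 : Matrix (Fin n) (Fin n) ℚ[X]) := by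
    have h1 : U.det • (V * U) = U.det • (c ^ 2 • (1 : Matrix (Fin n) (Fin n) ℚ[X])) := by
      calc U.det • (V * U) = (U.det • (1 : Matrix (Fin n) (Fin n) ℚ[X])) * (V * U) := by
            rw [Matrix.smul_mul, one_mul]
        _ = (U.adjugate * U) * (V * U) := by rw [Matrix.adjugate_mul]
        _ = U.adjugate * (U * V) * U := by simp only [Matrix.mul_assoc]
        _ = c ^ 2 • (U.adjugate * U) := by rw [hUV, Matrix.mul_smul, mul_one, Matrix.smul_mul]
        _ = U.det • (c ^ 2 • (1 : Matrix (Fin n) (Fin n) ℚ[X])) := by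
            rw [Matrix.adjugate_mul, smul_comm]
    ext1 i j
    have h2 := congrFun (congrFun h1 i) j
    rw [Matrix.smul_apply, Matrix.smul_apply, smul_eq_mul, smul_eq_mul] at h2
    exact mul_left_cancel₀ hdU h2
  refine ⟨c, U, V, hc0, hUV, hVU, ?_⟩
  have hVT : V.transpose = Ji * U * Qp n f := by
    rw [hV, Matrix.transpose_mul, Matrix.transpose_mul, Matrix.transpose_transpose, hJiT, Qp_transpose,
      Matrix.mul_neg, Matrix.neg_mul, Matrix.mul_neg, neg_neg, Matrix.mul_assoc]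
  calc V * jm ℚ[X] n * V.transpose = Qp n f * U.transpose * (Ji * jm ℚ[X] n) * (Ji * U * Qp n f) := by
        rw [hVT, hV]; simp only [Matrix.mul_assoc]
    _ = V * U * Qp n f := by rw [hJJ', mul_one, hV]; simp only [Matrix.mul_assoc]
    _ = c ^ 2 • Qp n f := by rw [hVU, Matrix.smul_mul, one_mul]

end Pool.Agent.Y118.HP
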