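import Pool.Agent.Y118.HP.Alg3

/-!
# Normal form of a monomial on the torsor
-/

set_option autoImplicit false

open Matrix Polynomial

namespace Pool.Agent.Y118.HP

variable {n : ℕ}

/-- the monomial `s` of `X U` as a polynomial in `X` -/
noncomputable def Ph (U : Matrix (Fin n) (Fin n) ℚ[X]) (s : Fin n × Fin n → ℕ) :
    MvPolynomial (Fin n × Fin n) ℚ[X] :=
  ∏ x : Fin n × Fin n, (∑ a, MvPolynomial.X (x.1, a) * MvPolynomial.C (U a x.2)) ^ s x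

theorem Ph_hom (U : Matrix (Fin n) (Fin n) ℚ[X]) (s : Fin n × Fin n → ℕ) : (Ph U s).IsHomogeneous (dg s) := by
  unfold Ph dg
  refine MvPolynomial.IsHomogeneous.prod _ _ _ fun x _ => ?_
  have h1 : (∑ a, MvPolynomial.X (x.1, a) * MvPolynomial.C (U a x.2) :
      MvPolynomial (Fin n × Fin n) ℚ[X]).IsHomogeneous 1 := by
    refine MvPolynomial.IsHomogeneous.sum _ _ _ fun a _ => ?_
    exact (MvPolynomial.isHomogeneous_X _ _).mul (MvPolynomial.isHomogeneous_C _ _)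
  have h2 := h1.pow (s x)
  rwa [one_mul] at h2

theorem Ph_degree {U : Matrix (Fin n) (Fin n) ℚ[X]} {s : Fin n × Fin n → ℕ} {d : Fin n × Fin n →₀ ℕ}
    (hd : d ∈ (Ph U s).support) : dg d = dg s := by
  have h1 := Ph_hom U s (MvPolynomial.mem_support_iff.1 hd)
  have h2 : Finsupp.weight (1 : Fin n × Fin n → ℕ) d = d.degree := by
    rw [Finsupp.degree_eq_weight_one]; rfl
  rw [← h1, h2, Finsupp.degree_eq_sum]
  rfl

theorem Ph_eval (U : Matrix (Fin n) (Fin n) ℚ[X]) (s : Fin n × Fin n → ℕ) (t : ℂ) (Y : Matrix (Fin n) (Fin n) ℂ) :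
    mnm (Y * U.map (aeval t)) s = ∑ d ∈ (Ph U s).support, aeval t ((Ph U s).coeff d) * mnm Y d := by
  have h1 := MvPolynomial.eval₂_eq' (aeval t : ℚ[X] →ₐ[ℚ] ℂ).toRingHom (fun x : Fin n × Fin n => Y x.1 x.2) (Ph U s)
  have h2 : (Ph U s).eval₂ (aeval t : ℚ[X] →ₐ[ℚ] ℂ).toRingHom (fun x : Fin n × Fin n => Y x.1 x.2) =
      mnm (Y * U.map (aeval t)) s := by
    unfold Ph mnm
    rw [MvPolynomial.eval₂_prod]
    refine Finset.prod_congr rfl fun x _ => ?_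
    rw [MvPolynomial.eval₂_pow, MvPolynomial.eval₂_sum]
    congr 1
    rw [Matrix.mul_apply]
    refine Finset.sum_congr rfl fun a _ => ?_
    rw [MvPolynomial.eval₂_mul, MvPolynomial.eval₂_X, MvPolynomial.eval₂_C]
    rfl
  rw [← h2, h1]
  rfl

/-- the exponent -/
def exo (D1 k b : ℕ) : ℕ := (2 * D1 + k - b) / 2

/-- the coefficients of the normal form -/
noncomputable def zc {κ : Type} (c : ℚ[X]) (U : Matrix (Fin n) (Fin n) ℚ[X]) (D1 : ℕ) (b : κ → Fin n × Fin n → ℕ)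
    (w : (Fin n × Fin n → ℕ) → κ → ℚ) (s : Fin n × Fin n → ℕ) (k : κ) : ℚ[X] :=
  c ^ (2 * (D1 - dg s) + 2 * exo D1 (dg s) (dg (b k))) *
    ∑ d ∈ (Ph U s).support, (Ph U s).coeff d * C (w d k)

theorem single {κ : Type} [Fintype κ] {D D1 : ℕ} {b : κ → Fin n × Fin n → ℕ}
    {w : (Fin n × Fin n → ℕ) → κ → ℚ}
    (hw1 : ∀ s, (∀ x, s x ≤ D) → ∀ g ∈ SpS ℂ n, mnm g s = ∑ k, (w s k : ℂ) * mnm g (b k))
    (hw2 : ∀ s, (∀ x, s x ≤ D) → ∀ k, w s k ≠ 0 → Even (dg s + dg (b k)))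
    (hD1 : D ≤ D1) (hb : ∀ k, dg (b k) ≤ D1)
    {f c : ℚ[X]} {U V : Matrix (Fin n) (Fin n) ℚ[X]}
    (hVU : V * U = c ^ 2 • (1 : Matrix (Fin n) (Fin n) ℚ[X]))
    (hVJ : V * jm ℚ[X] n * V.transpose = c ^ 2 • Qp n f)
    {t : ℂ} (hct : aeval t c ≠ 0) {X : Matrix (Fin n) (Fin n) ℂ} {lam : ℂ} (hlam : lam ≠ 0)
    (hX : X * (Qp n f).map (aeval t) * X.transpose = lam • jm ℂ n)
    {s : Fin n × Fin n → ℕ} (hs : dg s ≤ D) :
    (aeval t c) ^ (4 * D1 + 1) * lam ^ D1 * mnm X s =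
      ∑ k, aeval t (zc c U D1 b w s k) * lam ^ exo D1 (dg s) (dg (b k)) *
        (aeval t c * mnm (X * V.map (aeval t)) (b k)) := by
  set ct : ℂ := aeval t c with hctd
  have hmapmul : ∀ A B : Matrix (Fin n) (Fin n) ℚ[X], (A * B).map (aeval t : ℚ[X] →ₐ[ℚ] ℂ) =
      A.map (aeval t) * B.map (aeval t) := fun A B => Matrix.map_mul (f := (aeval t : ℚ[X] →ₐ[ℚ] ℂ))
  have hmapsmul : ∀ (a : ℚ[X]) (A : Matrix (Fin n) (Fin n) ℚ[X]), (a • A).map (aeval t : ℚ[X] →ₐ[ℚ] ℂ) =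
      (aeval t a : ℂ) • A.map (aeval t) := by
    intro a A
    ext i j
    simp [Matrix.smul_apply, smul_eq_mul]
  set Vt := V.map (aeval t : ℚ[X] →ₐ[ℚ] ℂ) with hVt
  set Ut := U.map (aeval t : ℚ[X] →ₐ[ℚ] ℂ) with hUt
  have e1 : Vt * Ut = ct ^ 2 • (1 : Matrix (Fin n) (Fin n) ℂ) := by
    rw [hVt, hUt, ← hmapmul, hVU, hmapsmul, map_pow, Matrix.map_one _ (map_zero _) (map_one _)]
  have e2 : Vt * jm ℂ n * Vt.transpose = ct ^ 2 • (Qp n f).map (aeval t) := by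
    have h1 : (jm ℚ[X] n).map (aeval t : ℚ[X] →ₐ[ℚ] ℂ) = jm ℂ n := jm_map (aeval t : ℚ[X] →ₐ[ℚ] ℂ).toRingHom
    rw [hVt, ← h1, ← hmapmul, ← Matrix.transpose_map, ← hmapmul, hVJ, hmapsmul, map_pow]
  obtain ⟨μ, hμ⟩ := IsAlgClosed.exists_pow_nat_eq lam (by norm_num : 0 < 2)
  have hμ0 : μ ≠ 0 := by rintro rfl; apply hlam; rw [← hμ]; norm_num
  set Y := X * Vt with hY
  set ν := ct * μ with hν
  have hν0 : ν ≠ 0 := mul_ne_zero hct hμ0
  have hYJ : Y * jm ℂ n * Y.transpose = ν ^ 2 • jm ℂ n := by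
    calc Y * jm ℂ n * Y.transpose = X * (Vt * jm ℂ n * Vt.transpose) * X.transpose := by
          rw [hY, Matrix.transpose_mul]; simp only [Matrix.mul_assoc]
      _ = ν ^ 2 • jm ℂ n := by
          rw [e2, Matrix.mul_smul, Matrix.smul_mul, hX, smul_smul, hν, mul_pow, hμ]
  set g := ν⁻¹ • Y with hg
  have hgS : g ∈ SpS ℂ n := by
    show g * jm ℂ n * g.transpose = jm ℂ n
    rw [hg, Matrix.transpose_smul, Matrix.smul_mul, Matrix.mul_smul, Matrix.smul_mul, hYJ, smul_smul, smul_smul]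
    have : ν⁻¹ * ν⁻¹ * ν ^ 2 = 1 := by field_simp
    rw [this, one_smul]
  have hYg : Y = ν • g := by
    rw [hg, smul_smul, mul_inv_cancel₀ hν0, one_smul]
  clear_value g
  have hYU : Y * Ut = ct ^ 2 • X := by
    rw [hY, Matrix.mul_assoc, e1, Matrix.mul_smul, mul_one]
  have hexp := Ph_eval U s t Y
  rw [← hUt, hYU, mnm_smul] at hexp
  -- reduction of each monomial
  have hred : ∀ d : Fin n × Fin n → ℕ, dg d = dg s →
      (ct ^ 2 * lam) ^ D1 * mnm Y d = ∑ k, (w d k : ℂ) * (ct ^ 2 * lam) ^ exo D1 (dg s) (dg (b k)) * mnm Y (b k) := by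
    intro d hd
    have hdx : ∀ x, d x ≤ D := fun x => by
      have : d x ≤ dg d := Finset.single_le_sum (f := d) (fun _ _ => Nat.zero_le _) (Finset.mem_univ x)
      omega
    have hν2 : ct ^ 2 * lam = ν ^ 2 := by rw [hν, mul_pow, hμ]
    rw [hν2, hYg]
    simp only [mnm_smul]
    rw [hw1 d hdx g hgS, Finset.mul_sum, Finset.mul_sum]
    refine Finset.sum_congr rfl fun k _ => ?_
    by_cases hwk : w d k = 0
    · rw [hwk]; simp
    · have hev := hw2 d hdx k hwk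
      rw [hd] at hev
      have hbk := hb k
      have h3 : 2 * exo D1 (dg s) (dg (b k)) + dg (b k) = 2 * D1 + dg s := by
        unfold exo
        obtain ⟨r, hr⟩ := hev
        omega
      rw [hd, ← pow_mul, ← pow_mul]
      calc ν ^ (2 * D1) * (ν ^ dg s * ((w d k : ℂ) * mnm g (b k))) =
          (w d k : ℂ) * ν ^ (2 * D1 + dg s) * mnm g (b k) := by rw [pow_add]; ring
        _ = (w d k : ℂ) * ν ^ (2 * exo D1 (dg s) (dg (b k))) * (ν ^ dg (b k) * mnm g (b k)) := by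
            rw [← h3, pow_add]; ring
  have hs1 : dg s ≤ D1 := hs.trans hD1
  -- assemble
  have hL : ct ^ (4 * D1 + 1) * lam ^ D1 * mnm X s =
      ct * ct ^ (2 * (D1 - dg s)) * ((ct ^ 2 * lam) ^ D1 * ((ct ^ 2) ^ dg s * mnm X s)) := by
    have h4 : 4 * D1 + 1 = 1 + 2 * (D1 - dg s) + 2 * D1 + 2 * dg s := by omega
    rw [h4, pow_add, pow_add, pow_add, pow_one, mul_pow, ← pow_mul, ← pow_mul]
    ring
  rw [hL, hexp, Finset.mul_sum, Finset.mul_sum]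
  have hstep : ∀ d ∈ (Ph U s).support, ct * ct ^ (2 * (D1 - dg s)) * ((ct ^ 2 * lam) ^ D1 *
      (aeval t ((Ph U s).coeff d) * mnm Y d)) = ∑ k, ct * ct ^ (2 * (D1 - dg s)) * aeval t ((Ph U s).coeff d) *
        ((w d k : ℂ) * (ct ^ 2 * lam) ^ exo D1 (dg s) (dg (b k)) * mnm Y (b k)) := by
    intro d hd
    rw [← Finset.mul_sum, ← hred d (Ph_degree hd)]
    ring
  rw [Finset.sum_congr rfl hstep, Finset.sum_comm]
  refine Finset.sum_congr rfl fun k _ => ?_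
  unfold zc
  rw [map_mul, map_pow, map_sum, ← hctd]
  simp only [map_mul, aeval_C, eq_ratCast]
  rw [Finset.mul_sum, Finset.sum_mul, Finset.sum_mul]
  refine Finset.sum_congr rfl fun d _ => ?_
  rw [mul_pow, ← pow_mul, pow_add]
  ring

end Pool.Agent.Y118.HP
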