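import Pool.Agent.Y118.HP.Alg5

/-!
# Integrality and size of the normal form
-/

set_option autoImplicit false

open Matrix Polynomial

namespace Pool.Agent.Y118.HP

theorem int_eval {ι : Type*} [Finite ι] (W : ι → ℚ[X]) :
    ∃ (b : ℤ) (h : ℕ), b ≠ 0 ∧ ∀ i, ∀ t : ℚ, ∃ z : ℤ, ((b : ℚ) * (t.den : ℚ) ^ h) * (W i).eval t = z := by
  classical
  cases nonempty_fintype ι
  set h := Finset.univ.sup fun i => (W i).natDegree with hh
  obtain ⟨b, hb⟩ := IsLocalization.exist_integer_multiples_of_finite (nonZeroDivisors ℤ)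
    (fun x : ι × Fin (h + 1) => (W x.1).coeff x.2)
  choose u hu using hb
  refine ⟨b, h, nonZeroDivisors.ne_zero b.2, fun i t => ?_⟩
  have hd : (W i).natDegree ≤ h := Finset.le_sup (f := fun i => (W i).natDegree) (Finset.mem_univ i)
  refine ⟨∑ k : Fin (h + 1), u (i, k) * (t.num ^ (k : ℕ) * (t.den : ℤ) ^ (h - (k : ℕ))), ?_⟩
  rw [Polynomial.eval_eq_sum_range' (Nat.lt_succ_of_le hd), ← Fin.sum_univ_eq_sum_range
    (fun k => (W i).coeff k * t ^ k) (h + 1), Finset.mul_sum]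
  push_cast
  refine Finset.sum_congr rfl fun k _ => ?_
  have h1 := hu (i, k)
  rw [Algebra.smul_def] at h1
  simp only [eq_intCast] at h1
  rw [h1]
  have hden : (t.den : ℚ) ≠ 0 := by exact_mod_cast t.den_nz
  have h2 : (t.den : ℚ) ^ h = (t.den : ℚ) ^ (k : ℕ) * (t.den : ℚ) ^ (h - (k : ℕ)) := by
    rw [← pow_add]
    congr 1
    have := k.2
    omega
  have h3 : (t.den : ℚ) ^ (k : ℕ) * t ^ (k : ℕ) = (t.num : ℚ) ^ (k : ℕ) := by
    rw [← mul_pow]
    congr 1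
    rw [mul_comm]
    exact Rat.mul_den_eq_num t
  calc ((b : ℤ) : ℚ) * (t.den : ℚ) ^ h * ((W i).coeff (k : ℕ) * t ^ (k : ℕ)) =
      ((b : ℤ) : ℚ) * (W i).coeff (k : ℕ) * (((t.den : ℚ) ^ (k : ℕ) * t ^ (k : ℕ)) * (t.den : ℚ) ^ (h - (k : ℕ))) := by
        rw [h2]; ring
    _ = _ := by rw [h3]

theorem bound_eval {ι : Type*} [Finite ι] (W : ι → ℚ[X]) (α β : ι → ℝ) :
    ∃ K : ℝ, 1 ≤ K ∧ ∀ i, ∀ t : ℚ, (t : ℝ) ∈ Set.Icc (α i) (β i) → |(((W i).eval t : ℚ) : ℝ)| ≤ K := by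
  classical
  cases nonempty_fintype ι
  have h1 : ∀ i, ∃ C : ℝ, ∀ t ∈ Set.Icc (α i) (β i), ‖(aeval t (W i) : ℝ)‖ ≤ C := fun i =>
    isCompact_Icc.exists_bound_of_continuousOn (Polynomial.continuous_aeval (W i)).continuousOn
  choose C hC using h1
  refine ⟨1 + ∑ i, |C i|, by
    have : 0 ≤ ∑ i, |C i| := Finset.sum_nonneg fun i _ => abs_nonneg _
    linarith, fun i t ht => ?_⟩
  have h2 := hC i t ht
  have h3 : (aeval (t : ℝ) (W i) : ℝ) = (((W i).eval t : ℚ) : ℝ) := by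
    have := Polynomial.aeval_algebraMap_apply ℝ t (W i)
    simpa using this
  rw [h3, Real.norm_eq_abs] at h2
  have h4 : |C i| ≤ ∑ i, |C i| := Finset.single_le_sum (f := fun i => |C i|) (fun i _ => abs_nonneg _) (Finset.mem_univ i)
  have h5 := le_abs_self (C i)
  linarith

variable {n N : ℕ}

namespace Dat

variable (Δ : Dat n N)

theorem exists_int (α β : Fin N → ℝ) : ∃ (b : ℤ) (h : ℕ) (K : ℝ), b ≠ 0 ∧ 0 < K ∧
    ∀ (P : MvPolynomial (Option (Fin N × Fin n × Fin n)) ℤ), P.totalDegree ≤ Δ.D → ∀ (H T : ℝ), 1 ≤ T → 0 ≤ H →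
      (∀ s, |((P.coeff s : ℤ) : ℝ)| ≤ H) → ∀ t : Fin N → ℚ,
      (∀ j, (t j : ℝ) ∈ Set.Icc (α j) (β j) ∧ ((t j).den : ℝ) ≤ T) →
      ∃ c' : (Fin N → Δ.κ) × Fin (Δ.E + 1) → ℤ, ∀ e,
        ((c' e : ℤ) : ℚ) = (∏ j, ((b : ℚ) * ((t j).den : ℚ) ^ h)) * Δ.Cf P t e ∧
        |((c' e : ℤ) : ℝ)| ≤ K * H * T ^ (N * h) := by
  classical
  set W : Fin N × (Fin n × Fin n → Fin (Δ.D + 1)) × Δ.κ → ℚ[X] := fun i =>
    zc (Δ.c i.1) (Δ.U i.1) Δ.D1 Δ.b Δ.w (fun x => (i.2.1 x : ℕ)) i.2.2 with hW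
  obtain ⟨b, h, hb0, hint⟩ := int_eval W
  obtain ⟨K, hK1, hK⟩ := bound_eval W (fun i => α i.1) (fun i => β i.1)
  set 𝒮 := (Finsupp.finite_of_degree_le (σ := Option (Fin N × Fin n × Fin n)) Δ.D).toFinset with h𝒮
  have hb1 : (1 : ℝ) ≤ |(b : ℝ)| := by
    have := Int.one_le_abs hb0
    exact_mod_cast this
  refine ⟨b, h, ((𝒮.card : ℝ) + 1) * (|(b : ℝ)| * K) ^ N, hb0, by positivity, ?_⟩
  intro P hP H T hT hH hcoef t ht
  have hdeg : ∀ s ∈ P.support, s.degree ≤ Δ.D := by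
    intro s hs
    have h1 := MvPolynomial.le_totalDegree hs
    have h2 : (s.sum fun _ e => e) = s.degree := rfl
    omega
  have hsub : P.support ⊆ 𝒮 := by
    intro s hs
    rw [h𝒮, Set.Finite.mem_toFinset]
    exact hdeg s hs
  set tr : (Fin n × Fin n → ℕ) → (Fin n × Fin n → Fin (Δ.D + 1)) := fun s x => ⟨min (s x) Δ.D, by omega⟩ with htr
  have htr' : ∀ s ∈ P.support, ∀ j, (fun x => ((tr (sj s j) x : Fin (Δ.D + 1)) : ℕ)) = sj s j := by
    intro s hs j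
    funext x
    simp only [htr]
    refine min_eq_left ?_
    have h1 : sj s j x ≤ dg (sj s j) := Finset.single_le_sum (f := sj s j) (fun _ _ => Nat.zero_le _) (Finset.mem_univ x)
    have h2 := dg_sj_le (s := s) j
    have h3 := hdeg s hs
    omega
  have hz : ∀ i : Fin N × (Fin n × Fin n → Fin (Δ.D + 1)) × Δ.κ, ∃ z : ℤ,
      ((b : ℚ) * ((t i.1).den : ℚ) ^ h) * (W i).eval (t i.1) = z := fun i => hint i (t i.1)
  choose z hz using hz
  have hzv : ∀ s ∈ P.support, ∀ (p : Fin N → Δ.κ) (j : Fin N), ((z (j, tr (sj s j), p j) : ℤ) : ℚ) =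
      ((b : ℚ) * ((t j).den : ℚ) ^ h) * Δ.zv j (sj s j) (p j) (t j) := by
    intro s hs p j
    rw [← hz]
    simp only [hW]
    rw [htr' s hs j]
    rfl
  refine ⟨fun e => ∑ s ∈ P.support, if Δ.ex s e.1 = (e.2 : ℕ) then
    P.coeff s * ∏ j, z (j, tr (sj s j), e.1 j) else 0, fun e => ⟨?_, ?_⟩⟩
  · unfold Cf
    rw [Finset.mul_sum, Int.cast_sum]
    refine Finset.sum_congr rfl fun s hs => ?_
    split_ifs with hif
    · rw [Int.cast_mul, Int.cast_prod, Finset.prod_congr rfl fun j _ => hzv s hs e.1 j, Finset.prod_mul_distrib]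
      ring
    · simp
  · have hTp : 0 < T := by linarith
    have hzb : ∀ s ∈ P.support, ∀ j, |((z (j, tr (sj s j), e.1 j) : ℤ) : ℝ)| ≤ |(b : ℝ)| * K * T ^ h := by
      intro s hs j
      have h1 : ((z (j, tr (sj s j), e.1 j) : ℤ) : ℝ) = ((b : ℝ) * ((t j).den : ℝ) ^ h) *
          (((W (j, tr (sj s j), e.1 j)).eval (t j) : ℚ) : ℝ) := by
        have := hz (j, tr (sj s j), e.1 j)
        have h2 := congrArg (fun q : ℚ => (q : ℝ)) this
        simp only at h2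
        push_cast at h2
        rw [← h2]
      rw [h1, abs_mul, abs_mul, abs_of_nonneg (by positivity : (0 : ℝ) ≤ ((t j).den : ℝ) ^ h)]
      have h3 := hK (j, tr (sj s j), e.1 j) (t j) (ht j).1
      have h4 : ((t j).den : ℝ) ^ h ≤ T ^ h := pow_le_pow_left₀ (by positivity) (ht j).2 h
      calc |(b : ℝ)| * ((t j).den : ℝ) ^ h * |(((W (j, tr (sj s j), e.1 j)).eval (t j) : ℚ) : ℝ)| ≤
          |(b : ℝ)| * T ^ h * K := by
            refine mul_le_mul (mul_le_mul_of_nonneg_left h4 (abs_nonneg _)) h3 (abs_nonneg _) (by positivity)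
        _ = |(b : ℝ)| * K * T ^ h := by ring
    rw [Int.cast_sum]
    refine (Finset.abs_sum_le_sum_abs _ _).trans ?_
    have hterm : ∀ s ∈ P.support, |(((if Δ.ex s e.1 = (e.2 : ℕ) then
        P.coeff s * ∏ j, z (j, tr (sj s j), e.1 j) else 0 : ℤ)) : ℝ)| ≤ H * (|(b : ℝ)| * K * T ^ h) ^ N := by
      intro s hs
      split_ifs with hif
      · rw [Int.cast_mul, Int.cast_prod, abs_mul, Finset.abs_prod]
        refine mul_le_mul (hcoef s) ?_ (Finset.prod_nonneg fun j _ => abs_nonneg _) hH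
        have := Finset.prod_le_prod (s := Finset.univ) (f := fun j => |((z (j, tr (sj s j), e.1 j) : ℤ) : ℝ)|)
          (g := fun _ : Fin N => |(b : ℝ)| * K * T ^ h) (fun j _ => abs_nonneg _) (fun j _ => hzb s hs j)
        rw [Finset.prod_const, Finset.card_univ, Fintype.card_fin] at this
        exact this
      · rw [Int.cast_zero, abs_zero]
        positivity
    refine (Finset.sum_le_sum hterm).trans ?_
    rw [Finset.sum_const, nsmul_eq_mul]
    have hcard : (P.support.card : ℝ) ≤ (𝒮.card : ℝ) + 1 := by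
      have := Finset.card_le_card hsub
      have : (P.support.card : ℝ) ≤ (𝒮.card : ℝ) := by exact_mod_cast this
      linarith
    have e1 : (|(b : ℝ)| * K * T ^ h) ^ N = (|(b : ℝ)| * K) ^ N * T ^ (N * h) := by
      rw [mul_pow, ← pow_mul, mul_comm h N]
    rw [e1]
    have h6 : 0 ≤ H * ((|(b : ℝ)| * K) ^ N * T ^ (N * h)) := by positivity
    calc (P.support.card : ℝ) * (H * ((|(b : ℝ)| * K) ^ N * T ^ (N * h))) ≤
        ((𝒮.card : ℝ) + 1) * (H * ((|(b : ℝ)| * K) ^ N * T ^ (N * h))) := mul_le_mul_of_nonneg_right hcard h6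
      _ = _ := by ring

end Dat

end Pool.Agent.Y118.HP
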