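import Pool.Agent.Y118.HP.Defs
import Pool.Agent.MP27fa52.Param

/-!
# Periods of hyperelliptic curves with one moving branch point: analyticity
-/

set_option autoImplicit false

open Complex Set MeasureTheory Filter Topology

namespace Pool.Agent.Y118.HP

variable {n : ℕ}

/-- the real points `a i` with the complex point `z` inserted at position `m` -/
noncomputable def ee (a : Fin n → ℝ) (m : Fin (n + 1)) (z : ℂ) : Fin (n + 1) → ℂ :=
  Fin.insertNth (α := fun _ => ℂ) m z (fun i => (a i : ℂ))

/-- the factor at the point `e i` of the integrand over the gap `l` -/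
noncomputable def fac (e : Fin (n + 1) → ℂ) (l : Fin n) (i : Fin (n + 1)) (x : ℂ) : ℂ :=
  if i < l.castSucc then (x - e i) ^ (-(1 / 2) : ℂ)
  else if l.succ < i then (e i - x) ^ (-(1 / 2) : ℂ) else 1

noncomputable def ker (e : Fin (n + 1) → ℂ) (l : Fin n) (j : ℕ) (x : ℂ) : ℂ :=
  x ^ j * ∏ i, fac e l i x

noncomputable def seg (p q : ℂ) (u : ℝ) : ℂ := (1 - u) * p + u * q

/-- the complex period over the gap `l` -/
noncomputable def perC (e : Fin (n + 1) → ℂ) (l : Fin n) (j : ℕ) : ℂ :=
  ∫ θ in (0 : ℝ)..(Real.pi / 2), 2 * ker e l j (seg (e l.castSucc) (e l.succ) (Real.sin θ ^ 2))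

/-- the domain of the moving branch point -/
def Dm (a : Fin n → ℝ) (m : Fin (n + 1)) : Set ℂ :=
  {z : ℂ | ∀ i : Fin n, (i.castSucc < m → z - (a i : ℂ) ∈ slitPlane) ∧ (m ≤ i.castSucc → (a i : ℂ) - z ∈ slitPlane)}

theorem isOpen_Dm (a : Fin n → ℝ) (m : Fin (n + 1)) : IsOpen (Dm a m) := by
  have : Dm a m = ⋂ i : Fin n, {z : ℂ | (i.castSucc < m → z - (a i : ℂ) ∈ slitPlane) ∧
      (m ≤ i.castSucc → (a i : ℂ) - z ∈ slitPlane)} := by
    ext z; simp [Dm]
  rw [this]
  refine isOpen_iInter_of_finite fun i => ?_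
  by_cases h : i.castSucc < m
  · have h' : ¬ m ≤ i.castSucc := not_le.2 h
    simp only [h, h', true_imp_iff, false_imp_iff, and_true]
    exact isOpen_slitPlane.preimage (by fun_prop : Continuous fun z : ℂ => z - a i)
  · have h' : m ≤ i.castSucc := not_lt.1 h
    simp only [h, h', true_imp_iff, false_imp_iff, true_and]
    exact isOpen_slitPlane.preimage (by fun_prop : Continuous fun z : ℂ => (a i : ℂ) - z)

/-- `t` is in the `m`-th gap -/
def InGap (a : Fin n → ℝ) (m : Fin (n + 1)) (t : ℝ) : Prop :=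
  ∀ i : Fin n, (i.castSucc < m → a i < t) ∧ (m ≤ i.castSucc → t < a i)

theorem InGap.mem_Dm {a : Fin n → ℝ} {m : Fin (n + 1)} {t : ℝ} (h : InGap a m t) : (t : ℂ) ∈ Dm a m := by
  intro i
  refine ⟨fun h1 => ?_, fun h1 => ?_⟩
  · have := (h i).1 h1
    rw [← ofReal_sub, ofReal_mem_slitPlane]
    linarith
  · have := (h i).2 h1
    rw [← ofReal_sub, ofReal_mem_slitPlane]
    linarith

theorem mem_Dm_of_im (a : Fin n → ℝ) (m : Fin (n + 1)) {z : ℂ} (hz : z.im ≠ 0) : z ∈ Dm a m := by
  intro i
  refine ⟨fun _ => ?_, fun _ => ?_⟩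
  · rw [mem_slitPlane_iff]
    right; simpa using hz
  · rw [mem_slitPlane_iff]
    right; simpa using hz

/-- every gap is nonempty -/
theorem exists_inGap {a : Fin n → ℝ} (ha : StrictMono a) (m : Fin (n + 1)) : ∃ t, InGap a m t := by
  classical
  rcases Nat.eq_zero_or_pos n with h0 | hn
  · subst h0
    exact ⟨0, fun i => i.elim0⟩
  · by_cases hm0 : (m : ℕ) = 0
    · refine ⟨a ⟨0, hn⟩ - 1, fun i => ⟨fun h => ?_, fun h => ?_⟩⟩
      · exfalso
        have : (i : ℕ) < m := h
        omega
      · have : a ⟨0, hn⟩ ≤ a i := ha.monotone (Fin.mk_le_of_le_val (Nat.zero_le _))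
        linarith
    · by_cases hmn : (m : ℕ) = n
      · refine ⟨a ⟨n - 1, by omega⟩ + 1, fun i => ⟨fun h => ?_, fun h => ?_⟩⟩
        · have : a i ≤ a ⟨n - 1, by omega⟩ := ha.monotone (by
            rw [Fin.le_def]; simp only; omega)
          linarith
        · exfalso
          have : (m : ℕ) ≤ i := h
          omega
      · have hm1 : (m : ℕ) < n := by omega
        have hlt : a ⟨m - 1, by omega⟩ < a ⟨m, hm1⟩ := ha (by rw [Fin.lt_def]; simp only; omega)
        refine ⟨(a ⟨m - 1, by omega⟩ + a ⟨m, hm1⟩) / 2, fun i => ⟨fun h => ?_, fun h => ?_⟩⟩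
        · have h' : (i : ℕ) < m := h
          have : a i ≤ a ⟨m - 1, by omega⟩ := ha.monotone (by
            rw [Fin.le_def]; simp only; omega)
          linarith
        · have h' : (m : ℕ) ≤ i := h
          have : a ⟨m, hm1⟩ ≤ a i := ha.monotone (by
            rw [Fin.le_def]; simpa using h')
          linarith

theorem slit_comb {p q : ℂ} (hp : p ∈ slitPlane) (hq : q ∈ slitPlane)
    (h : p.im = 0 ∨ q.im = 0 ∨ p.im = q.im) {u : ℝ} (hu0 : 0 ≤ u) (hu1 : u ≤ 1) :
    (1 - u) * p + u * q ∈ slitPlane := by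
  have him : ((1 - u) * p + u * q : ℂ).im = (1 - u) * p.im + u * q.im := by
    simp
  have hre : ((1 - u) * p + u * q : ℂ).re = (1 - u) * p.re + u * q.re := by
    simp
  rw [mem_slitPlane_iff] at hp hq ⊢
  rw [him, hre]
  rcases h with h | h | h
  · have hp' : 0 < p.re := by
      rcases hp with hp | hp
      · exact hp
      · exact absurd h hp
    rw [h]
    by_cases hq0 : q.im = 0
    · have hq' : 0 < q.re := by
        rcases hq with hq | hq
        · exact hq
        · exact absurd hq0 hq
      left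
      rcases eq_or_lt_of_le hu0 with rfl | hu
      · simpa using hp'
      · nlinarith [mul_pos hu hq', mul_nonneg (sub_nonneg.2 hu1) hp'.le]
    · rcases eq_or_lt_of_le hu0 with rfl | hu
      · left; simpa using hp'
      · right
        simp [hu.ne', hq0]
  · have hq' : 0 < q.re := by
      rcases hq with hq | hq
      · exact hq
      · exact absurd h hq
    rw [h]
    by_cases hp0 : p.im = 0
    · have hp' : 0 < p.re := by
        rcases hp with hp | hp
        · exact hp
        · exact absurd hp0 hp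
      left
      rcases eq_or_lt_of_le hu0 with rfl | hu
      · simpa using hp'
      · nlinarith [mul_pos hu hq', mul_nonneg (sub_nonneg.2 hu1) hp'.le]
    · rcases eq_or_lt_of_le hu1 with rfl | hu
      · left; simpa using hq'
      · right
        have : (1 - u) ≠ 0 := by linarith
        simp [this, hp0]
  · by_cases hp0 : p.im = 0
    · have hq0 : q.im = 0 := by rw [← h]; exact hp0
      have hp' : 0 < p.re := by
        rcases hp with hp | hp
        · exact hp
        · exact absurd hp0 hp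
      have hq' : 0 < q.re := by
        rcases hq with hq | hq
        · exact hq
        · exact absurd hq0 hq
      left
      rcases eq_or_lt_of_le hu0 with rfl | hu
      · simpa using hp'
      · nlinarith [mul_pos hu hq', mul_nonneg (sub_nonneg.2 hu1) hp'.le]
    · right
      rw [← h]
      have : (1 - u) * p.im + u * p.im = p.im := by ring
      rw [this]
      exact hp0

theorem ee_self (a : Fin n → ℝ) (m : Fin (n + 1)) (z : ℂ) : ee a m z m = z := by
  simp [ee]

theorem ee_succAbove (a : Fin n → ℝ) (m : Fin (n + 1)) (z : ℂ) (i : Fin n) :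
    ee a m z (m.succAbove i) = a i := by
  simp [ee]

theorem ee_im {a : Fin n → ℝ} {m : Fin (n + 1)} {z : ℂ} {k : Fin (n + 1)} (h : k ≠ m) :
    (ee a m z k).im = 0 := by
  obtain ⟨i, rfl⟩ := Fin.exists_succAbove_eq h
  rw [ee_succAbove, ofReal_im]

theorem ee_slit {a : Fin n → ℝ} (ha : StrictMono a) {m : Fin (n + 1)} {z : ℂ} (hz : z ∈ Dm a m)
    {i k : Fin (n + 1)} (hik : i < k) : ee a m z k - ee a m z i ∈ slitPlane := by
  rcases Fin.eq_self_or_eq_succAbove m i with rfl | ⟨i', rfl⟩
  · rcases Fin.eq_self_or_eq_succAbove i k with h | ⟨k', rfl⟩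
    · exact absurd h hik.ne'
    · rw [ee_self, ee_succAbove]
      exact (hz k').2 ((Fin.lt_succAbove_iff_le_castSucc _ _).1 hik)
  · rcases Fin.eq_self_or_eq_succAbove m k with rfl | ⟨k', rfl⟩
    · rw [ee_self, ee_succAbove]
      exact (hz i').1 ((Fin.succAbove_lt_iff_castSucc_lt _ _).1 hik)
    · rw [ee_succAbove, ee_succAbove, ← ofReal_sub, ofReal_mem_slitPlane]
      have := ha ((Fin.succAbove_lt_succAbove_iff).1 hik)
      linarith

theorem seg_slit_lt {a : Fin n → ℝ} (ha : StrictMono a) {m : Fin (n + 1)} {z : ℂ} (hz : z ∈ Dm a m)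
    {l : Fin n} {i : Fin (n + 1)} (hi : i < l.castSucc) {u : ℝ} (hu0 : 0 ≤ u) (hu1 : u ≤ 1) :
    seg (ee a m z l.castSucc) (ee a m z l.succ) u - ee a m z i ∈ slitPlane := by
  have h1 := ee_slit ha hz hi
  have h2 := ee_slit ha hz (hi.trans (Fin.castSucc_lt_succ))
  have e : seg (ee a m z l.castSucc) (ee a m z l.succ) u - ee a m z i =
      (1 - u) * (ee a m z l.castSucc - ee a m z i) + u * (ee a m z l.succ - ee a m z i) := by
    unfold seg; ring
  rw [e]
  refine slit_comb h1 h2 ?_ hu0 hu1
  rw [sub_im, sub_im]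
  by_cases him : i = m
  · right; right
    rw [ee_im (k := l.castSucc) (by rw [← him]; exact hi.ne'),
      ee_im (k := l.succ) (by rw [← him]; exact (hi.trans (Fin.castSucc_lt_succ)).ne')]
  · rw [ee_im him, sub_zero, sub_zero]
    by_cases hl : l.castSucc = m
    · right; left
      exact ee_im (by rw [← hl]; exact (Fin.castSucc_lt_succ).ne')
    · left
      exact ee_im hl

theorem seg_slit_gt {a : Fin n → ℝ} (ha : StrictMono a) {m : Fin (n + 1)} {z : ℂ} (hz : z ∈ Dm a m)
    {l : Fin n} {i : Fin (n + 1)} (hi : l.succ < i) {u : ℝ} (hu0 : 0 ≤ u) (hu1 : u ≤ 1) :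
    ee a m z i - seg (ee a m z l.castSucc) (ee a m z l.succ) u ∈ slitPlane := by
  have h1 := ee_slit ha hz ((Fin.castSucc_lt_succ (i := l)).trans hi)
  have h2 := ee_slit ha hz hi
  have e : ee a m z i - seg (ee a m z l.castSucc) (ee a m z l.succ) u =
      (1 - u) * (ee a m z i - ee a m z l.castSucc) + u * (ee a m z i - ee a m z l.succ) := by
    unfold seg; ring
  rw [e]
  refine slit_comb h1 h2 ?_ hu0 hu1
  rw [sub_im, sub_im]
  by_cases him : i = m
  · right; right
    rw [ee_im (k := l.castSucc) (by rw [← him]; exact ((Fin.castSucc_lt_succ (i := l)).trans hi).ne),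
      ee_im (k := l.succ) (by rw [← him]; exact hi.ne)]
  · rw [ee_im him]
    by_cases hl : l.castSucc = m
    · right; left
      rw [ee_im (by rw [← hl]; exact (Fin.castSucc_lt_succ).ne'), sub_zero]
    · left
      rw [ee_im hl, sub_zero]

theorem continuous_ee (a : Fin n → ℝ) (m k : Fin (n + 1)) : Continuous fun z => ee a m z k := by
  rcases Fin.eq_self_or_eq_succAbove m k with rfl | ⟨i', rfl⟩
  · simp only [ee_self]; exact continuous_id
  · simp only [ee_succAbove]; exact continuous_const

theorem differentiable_ee (a : Fin n → ℝ) (m k : Fin (n + 1)) : Differentiable ℂ fun z => ee a m z k := by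
  rcases Fin.eq_self_or_eq_succAbove m k with rfl | ⟨i', rfl⟩
  · simp only [ee_self]; exact differentiable_id
  · simp only [ee_succAbove]; exact differentiable_const _

/-- the integrand as a function of the parameter `u` of the segment and of `z` -/
noncomputable def KK (a : Fin n → ℝ) (m : Fin (n + 1)) (l : Fin n) (j : ℕ) (u : ℝ) (z : ℂ) : ℂ :=
  ker (ee a m z) l j (seg (ee a m z l.castSucc) (ee a m z l.succ) u)

theorem continuousAt_KK {a : Fin n → ℝ} (ha : StrictMono a) {m : Fin (n + 1)} (l : Fin n) (j : ℕ)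
    {u : ℝ} (hu0 : 0 ≤ u) (hu1 : u ≤ 1) {z : ℂ} (hz : z ∈ Dm a m) :
    ContinuousAt (fun p : ℝ × ℂ => KK a m l j p.1 p.2) (u, z) := by
  unfold KK ker
  have hseg : Continuous fun p : ℝ × ℂ => seg (ee a m p.2 l.castSucc) (ee a m p.2 l.succ) p.1 := by
    unfold seg
    have h1 : Continuous fun p : ℝ × ℂ => ee a m p.2 l.castSucc :=
      (continuous_ee a m l.castSucc).comp continuous_snd
    have h2 : Continuous fun p : ℝ × ℂ => ee a m p.2 l.succ :=
      (continuous_ee a m l.succ).comp continuous_snd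
    have h3 : Continuous fun p : ℝ × ℂ => (p.1 : ℂ) := continuous_ofReal.comp continuous_fst
    exact ((continuous_const.sub h3).mul h1).add (h3.mul h2)
  refine (hseg.continuousAt.pow j).mul ?_
  refine tendsto_finsetProd _ fun i _ => ?_
  have hi : Continuous fun p : ℝ × ℂ => ee a m p.2 i := (continuous_ee a m i).comp continuous_snd
  unfold fac
  split_ifs with h1 h2
  · exact ContinuousAt.cpow (hseg.continuousAt.sub hi.continuousAt) continuousAt_const
      (seg_slit_lt ha hz h1 hu0 hu1)
  · exact ContinuousAt.cpow (hi.continuousAt.sub hseg.continuousAt) continuousAt_const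
      (seg_slit_gt ha hz h2 hu0 hu1)
  · exact continuousAt_const

theorem differentiableAt_KK {a : Fin n → ℝ} (ha : StrictMono a) {m : Fin (n + 1)} (l : Fin n) (j : ℕ)
    {u : ℝ} (hu0 : 0 ≤ u) (hu1 : u ≤ 1) {z : ℂ} (hz : z ∈ Dm a m) :
    DifferentiableAt ℂ (KK a m l j u) z := by
  unfold KK ker
  have hseg : Differentiable ℂ fun z : ℂ => seg (ee a m z l.castSucc) (ee a m z l.succ) u := by
    unfold seg
    exact ((differentiable_ee a m l.castSucc).const_mul _).add ((differentiable_ee a m l.succ).const_mul _)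
  refine (hseg.differentiableAt.pow j).mul ?_
  refine DifferentiableAt.fun_finsetProd fun i _ => ?_
  unfold fac
  split_ifs with h1 h2
  · exact DifferentiableAt.cpow_const (hseg.differentiableAt.sub (differentiable_ee a m i).differentiableAt)
      (seg_slit_lt ha hz h1 hu0 hu1)
  · exact DifferentiableAt.cpow_const ((differentiable_ee a m i).differentiableAt.sub hseg.differentiableAt)
      (seg_slit_gt ha hz h2 hu0 hu1)
  · exact differentiableAt_const _

theorem sin_sq_mem (θ : ℝ) : 0 ≤ Real.sin θ ^ 2 ∧ Real.sin θ ^ 2 ≤ 1 :=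
  ⟨sq_nonneg _, Real.sin_sq_le_one θ⟩

theorem differentiableOn_perC {a : Fin n → ℝ} (ha : StrictMono a) (m : Fin (n + 1)) (l : Fin n) (j : ℕ) :
    DifferentiableOn ℂ (fun z => perC (ee a m z) l j) (Dm a m) := by
  have hpi : (0 : ℝ) ≤ Real.pi / 2 := by positivity
  have hcont : ContinuousOn (fun p : ℝ × ℂ => KK a m l j p.1 p.2) (Icc 0 1 ×ˢ Dm a m) := by
    rintro ⟨u, z⟩ ⟨hu, hz⟩
    exact (continuousAt_KK ha l j hu.1 hu.2 hz).continuousWithinAt
  intro z0 hz0
  obtain ⟨r, hr, hball⟩ := Metric.nhds_basis_closedBall.mem_iff.1 ((isOpen_Dm a m).mem_nhds hz0)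
  obtain ⟨M, hM⟩ := (isCompact_Icc.prod (isCompact_closedBall z0 r)).exists_bound_of_continuousOn
    (hcont.mono (prod_mono le_rfl hball))
  have hpt : ∀ z ∈ Dm a m, Continuous fun θ : ℝ => 2 * KK a m l j (Real.sin θ ^ 2) z := by
    intro z hz
    refine continuous_const.mul ?_
    rw [continuous_iff_continuousAt]
    intro θ
    have h1 := continuousAt_KK ha l j (sin_sq_mem θ).1 (sin_sq_mem θ).2 hz
    have h2 : ContinuousAt (fun θ : ℝ => (Real.sin θ ^ 2, z)) θ := by fun_prop
    exact ContinuousAt.comp (f := fun θ : ℝ => (Real.sin θ ^ 2, z))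
      (g := fun p : ℝ × ℂ => KK a m l j p.1 p.2) h1 h2
  have key := MP27fa52.diffOn_integral (U := Metric.ball z0 r) Metric.isOpen_ball
    (volume.restrict (Ioc 0 (Real.pi / 2))) (fun z θ => 2 * KK a m l j (Real.sin θ ^ 2) z)
    (fun _ => 2 * M) (integrable_const _) (fun z hz => (hpt z (hball (Metric.ball_subset_closedBall hz))).aestronglyMeasurable)
    (by
      refine Eventually.of_forall fun θ z hz => ?_
      exact ((differentiableAt_KK ha l j (sin_sq_mem θ).1 (sin_sq_mem θ).2
        (hball (Metric.ball_subset_closedBall hz))).const_mul 2).differentiableWithinAt)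
    (by
      refine Eventually.of_forall fun θ z hz => ?_
      rw [norm_mul]
      have := hM (Real.sin θ ^ 2, z) ⟨sin_sq_mem θ, Metric.ball_subset_closedBall hz⟩
      simp only [norm_ofNat]
      linarith)
  have h2 : DifferentiableAt ℂ (fun z => ∫ θ in Ioc 0 (Real.pi / 2), 2 * KK a m l j (Real.sin θ ^ 2) z) z0 :=
    (key z0 (Metric.mem_ball_self hr)).differentiableAt (Metric.isOpen_ball.mem_nhds (Metric.mem_ball_self hr))
  refine DifferentiableAt.differentiableWithinAt ?_
  have h3 : (fun z => perC (ee a m z) l j) =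
      fun z => ∫ θ in Ioc 0 (Real.pi / 2), 2 * KK a m l j (Real.sin θ ^ 2) z := by
    funext z
    unfold perC
    rw [intervalIntegral.integral_of_le hpi]
    rfl
  rw [h3]
  exact h2

/-- reflection -/
theorem perC_conj {a : Fin n → ℝ} (ha : StrictMono a) (m : Fin (n + 1)) (l : Fin n) (j : ℕ) {z : ℂ}
    (hz : z ∈ Dm a m) :
    perC (ee a m ((starRingEnd ℂ) z)) l j = (starRingEnd ℂ) (perC (ee a m z) l j) := by
  unfold perC
  rw [intervalIntegral.integral_of_le (by positivity : (0 : ℝ) ≤ Real.pi / 2),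
    intervalIntegral.integral_of_le (by positivity : (0 : ℝ) ≤ Real.pi / 2), ← integral_conj]
  refine integral_congr_ae (Eventually.of_forall fun θ => ?_)
  simp only [map_mul, map_ofNat]
  congr 1
  have he : ∀ k, ee a m ((starRingEnd ℂ) z) k = (starRingEnd ℂ) (ee a m z k) := by
    intro k
    rcases Fin.eq_self_or_eq_succAbove m k with rfl | ⟨i', rfl⟩
    · simp only [ee_self]
    · simp only [ee_succAbove, conj_ofReal]
  have hs : seg (ee a m ((starRingEnd ℂ) z) l.castSucc) (ee a m ((starRingEnd ℂ) z) l.succ) (Real.sin θ ^ 2) =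
      (starRingEnd ℂ) (seg (ee a m z l.castSucc) (ee a m z l.succ) (Real.sin θ ^ 2)) := by
    unfold seg
    simp only [he, map_add, map_mul, map_sub, map_one, conj_ofReal]
  unfold ker
  rw [map_mul, map_pow, map_prod, hs]
  congr 1
  refine Finset.prod_congr rfl fun i _ => ?_
  unfold fac
  have hc : (starRingEnd ℂ) (-(1 / 2) : ℂ) = -(1 / 2) := by
    simp only [map_neg, map_div₀, map_one, map_ofNat]
  split_ifs with h1 h2
  · rw [he, ← map_sub]
    have h3 := seg_slit_lt ha hz h1 (sin_sq_mem θ).1 (sin_sq_mem θ).2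
    rw [conj_cpow _ _ (mem_slitPlane_iff_arg.1 h3).1, hc]
  · rw [he, ← map_sub]
    have h3 := seg_slit_gt ha hz h2 (sin_sq_mem θ).1 (sin_sq_mem θ).2
    rw [conj_cpow _ _ (mem_slitPlane_iff_arg.1 h3).1, hc]
  · simp

end Pool.Agent.Y118.HP
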