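import Pool.Agent.Y118.HP.Ana

/-!
# The connection formulas in the upper half-plane
-/

set_option autoImplicit false

open Complex Set MeasureTheory Filter Topology

namespace Pool.Agent.Y118.HP

variable {n : ℕ}

theorem neg_cpow_pos {w : ℂ} (hw : 0 < w.im) : (-w) ^ (-(1 / 2) : ℂ) = I * w ^ (-(1 / 2) : ℂ) := by
  have h0 : w ≠ 0 := by rintro rfl; simp at hw
  have hl : log (-w) = log w - Real.pi * I := by
    unfold log
    rw [norm_neg, arg_neg_eq_arg_sub_pi_of_im_pos hw]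
    push_cast; ring
  rw [cpow_def_of_ne_zero (neg_ne_zero.2 h0), cpow_def_of_ne_zero h0, hl, sub_mul, exp_sub]
  have h2 : exp ((Real.pi : ℂ) * I * (-(1 / 2))) = -I := by
    have : (Real.pi : ℂ) * I * (-(1 / 2)) = -((Real.pi : ℂ) / 2 * I) := by ring
    rw [this, exp_neg, exp_pi_div_two_mul_I, inv_I]
  rw [h2]
  field_simp
  rw [I_sq]

theorem neg_cpow_neg {w : ℂ} (hw : w.im < 0) : (-w) ^ (-(1 / 2) : ℂ) = -I * w ^ (-(1 / 2) : ℂ) := by
  have h := neg_cpow_pos (w := -w) (by simpa using hw)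
  rw [neg_neg] at h
  rw [h, ← mul_assoc]
  simp

/-- the strip below `t` -/
def strip (t : ℂ) : Set ℂ := {x : ℂ | 0 < x.im ∧ x.im < t.im}

theorem convex_strip (t : ℂ) : Convex ℝ (strip t) := by
  have : strip t = {x : ℂ | 0 < x.im} ∩ {x : ℂ | x.im < t.im} := rfl
  rw [this]
  exact (convex_halfSpace_im_gt 0).inter (convex_halfSpace_im_lt t.im)

theorem isOpen_strip (t : ℂ) : IsOpen (strip t) := by
  have : strip t = {x : ℂ | 0 < x.im} ∩ {x : ℂ | x.im < t.im} := rfl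
  rw [this]
  exact (isOpen_lt continuous_const continuous_im).inter (isOpen_lt continuous_im continuous_const)

/-- the contraction of the closed strip -/
noncomputable def sh (t : ℂ) (ε : ℝ) (x : ℂ) : ℂ := ⟨x.re, (1 - ε) * x.im + ε * (t.im / 2)⟩

theorem sh_mem {t : ℂ} (ht : 0 < t.im) {ε : ℝ} (h0 : 0 < ε) (h1 : ε ≤ 1) {x : ℂ} (hx0 : 0 ≤ x.im)
    (hx1 : x.im ≤ t.im) : sh t ε x ∈ strip t := by
  unfold strip sh
  refine ⟨?_, ?_⟩
  · have := mul_nonneg (sub_nonneg.2 h1) hx0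
    have h2 := mul_pos h0 (half_pos ht)
    show 0 < (1 - ε) * x.im + ε * (t.im / 2)
    linarith
  · show (1 - ε) * x.im + ε * (t.im / 2) < t.im
    have h2 := mul_le_mul_of_nonneg_left hx1 (sub_nonneg.2 h1)
    have h3 := mul_pos h0 (half_pos ht)
    nlinarith

theorem sh_seg (t : ℂ) (ε : ℝ) (p q : ℂ) (u : ℝ) : sh t ε (seg p q u) = seg (sh t ε p) (sh t ε q) u := by
  unfold sh seg
  apply Complex.ext
  · simp
  · simp; ring

theorem tendsto_sh (t x : ℂ) : Tendsto (fun ε => sh t ε x) (𝓝[>] (0 : ℝ)) (𝓝 x) := by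
  have hc : Continuous fun ε : ℝ => sh t ε x := by
    have : (fun ε : ℝ => sh t ε x) = fun ε : ℝ => (x.re : ℂ) + ((1 - ε) * x.im + ε * (t.im / 2) : ℝ) * I := by
      funext ε
      unfold sh
      rw [mk_eq_add_mul_I]
    rw [this]
    fun_prop
  have h := (hc.tendsto 0).mono_left (nhdsWithin_le_nhds (s := Ioi (0 : ℝ)))
  have h2 : sh t 0 x = x := by
    unfold sh
    apply Complex.ext <;> simp
  rwa [h2] at h

theorem sh_sub_norm_le (t : ℂ) {ε : ℝ} (h0 : 0 ≤ ε) (h1 : ε ≤ 1) (p q : ℂ) :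
    ‖sh t ε q - sh t ε p‖ ≤ ‖q - p‖ := by
  have h : ‖sh t ε q - sh t ε p‖ ^ 2 ≤ ‖q - p‖ ^ 2 := by
    rw [← normSq_eq_norm_sq, ← normSq_eq_norm_sq, normSq_apply, normSq_apply]
    unfold sh
    simp only [sub_re, sub_im]
    have e : (1 - ε) * q.im + ε * (t.im / 2) - ((1 - ε) * p.im + ε * (t.im / 2)) = (1 - ε) * (q.im - p.im) := by
      ring
    rw [e]
    have h2 : (1 - ε) * (1 - ε) ≤ 1 := by nlinarith
    nlinarith [mul_self_nonneg (q.im - p.im)]
  exact le_of_sq_le_sq h (norm_nonneg _)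

/-- distances to the vertices -/
theorem norm_sh_sub {t : ℂ} {ε : ℝ} (h0 : 0 ≤ ε) (h1 : ε ≤ 1) {x : ℂ} (hx0 : 0 ≤ x.im)
    (hx1 : x.im ≤ t.im) {e : ℂ} (he : e.im = 0 ∨ e = t) : (1 - ε) * ‖x - e‖ ≤ ‖sh t ε x - e‖ := by
  have ht : 0 ≤ t.im := hx0.trans hx1
  have h : ((1 - ε) * ‖x - e‖) ^ 2 ≤ ‖sh t ε x - e‖ ^ 2 := by
    rw [mul_pow, ← normSq_eq_norm_sq, ← normSq_eq_norm_sq, normSq_apply, normSq_apply]
    unfold sh
    simp only [sub_re, sub_im]
    have h2 : (1 - ε) ^ 2 ≤ 1 := by nlinarith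
    have hre : (1 - ε) ^ 2 * ((x.re - e.re) * (x.re - e.re)) ≤ (x.re - e.re) * (x.re - e.re) := by
      nlinarith [mul_self_nonneg (x.re - e.re)]
    have him : (1 - ε) ^ 2 * ((x.im - e.im) * (x.im - e.im)) ≤
        ((1 - ε) * x.im + ε * (t.im / 2) - e.im) * ((1 - ε) * x.im + ε * (t.im / 2) - e.im) := by
      rcases he with he | rfl
      · rw [he, sub_zero, sub_zero]
        have h3 : 0 ≤ (1 - ε) * x.im := mul_nonneg (sub_nonneg.2 h1) hx0
        have h4 : 0 ≤ ε * (t.im / 2) := mul_nonneg h0 (by linarith)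
        nlinarith
      · have h3 : 0 ≤ (1 - ε) * (e.im - x.im) := mul_nonneg (sub_nonneg.2 h1) (by linarith)
        have h4 : 0 ≤ ε * (e.im / 2) := mul_nonneg h0 (by linarith)
        nlinarith
    nlinarith
  exact le_of_sq_le_sq h (norm_nonneg _)

/-- the function which is integrated -/
noncomputable def g0 (a : Fin n → ℝ) (t : ℂ) (j : ℕ) (x : ℂ) : ℂ :=
  x ^ j * ((x - t) ^ (-(1 / 2) : ℂ) * ∏ i, (x - a i) ^ (-(1 / 2) : ℂ))

theorem g0_eq (a : Fin n → ℝ) (m : Fin (n + 1)) (t : ℂ) (j : ℕ) (x : ℂ) :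
    g0 a t j x = x ^ j * ∏ i, (x - ee a m t i) ^ (-(1 / 2) : ℂ) := by
  unfold g0
  rw [Fin.prod_univ_succAbove _ m]
  simp only [ee_self, ee_succAbove]

theorem exists_primitive (a : Fin n → ℝ) (t : ℂ) (j : ℕ) :
    ∃ G : ℂ → ℂ, ∀ x ∈ strip t, HasDerivAt G (g0 a t j x) x := by
  have hd : DifferentiableOn ℂ (g0 a t j) (strip t) := by
    intro x hx
    refine DifferentiableAt.differentiableWithinAt ?_
    unfold g0
    refine (differentiableAt_id.pow j).mul ((DifferentiableAt.cpow_const ?_ ?_).mul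
      (DifferentiableAt.fun_finsetProd fun i _ => DifferentiableAt.cpow_const ?_ ?_))
    · fun_prop
    · rw [mem_slitPlane_iff]; right
      rw [sub_im]
      have := hx.2
      exact (sub_neg.2 this).ne
    · fun_prop
    · rw [mem_slitPlane_iff]; right
      rw [sub_im, ofReal_im, sub_zero]
      exact hx.1.ne'
  obtain ⟨G, hG⟩ := (convex_strip t).exists_forall_hasDerivWithinAt hd
  exact ⟨G, fun x hx => (hG x hx).hasDerivAt ((isOpen_strip t).mem_nhds hx)⟩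

/-- the factors which change the branch -/
noncomputable def cc (m : Fin (n + 1)) (i : Fin (n + 1)) : ℂ := if i = m then -I else I

/-- the phase of the gap `l` -/
noncomputable def ph (m : Fin (n + 1)) (l : Fin n) : ℂ := ∏ i, if i ≤ l.castSucc then 1 else cc m i

theorem norm_ph (m : Fin (n + 1)) (l : Fin n) : ‖ph m l‖ = 1 := by
  unfold ph cc
  rw [norm_prod]
  refine Finset.prod_eq_one fun i _ => ?_
  split_ifs <;> simp

theorem prod_full (e : Fin (n + 1) → ℂ) (l : Fin n) (x : ℂ) :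
    ∏ i, (if i ≤ l.castSucc then (x - e i) ^ (-(1 / 2) : ℂ) else (e i - x) ^ (-(1 / 2) : ℂ)) =
      (∏ i, fac e l i x) * (x - e l.castSucc) ^ (-(1 / 2) : ℂ) * (e l.succ - x) ^ (-(1 / 2) : ℂ) := by
  classical
  have h : ∀ i, (if i ≤ l.castSucc then (x - e i) ^ (-(1 / 2) : ℂ) else (e i - x) ^ (-(1 / 2) : ℂ)) =
      fac e l i x * (if i = l.castSucc then (x - e l.castSucc) ^ (-(1 / 2) : ℂ) else 1) *
        (if i = l.succ then (e l.succ - x) ^ (-(1 / 2) : ℂ) else 1) := by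
    intro i
    unfold fac
    rcases lt_trichotomy i l.castSucc with h1 | h1 | h1
    · have h2 : i ≠ l.succ := (h1.trans Fin.castSucc_lt_succ).ne
      simp [h1, h1.le, h1.ne, h2]
    · subst h1
      have h2 : l.castSucc ≠ l.succ := (Fin.castSucc_lt_succ).ne
      have h3 : ¬ l.succ < l.castSucc := not_lt.2 (Fin.castSucc_lt_succ).le
      simp [h2, h3]
    · have h2 : ¬ i < l.castSucc := not_lt.2 h1.le
      have h3 : ¬ i ≤ l.castSucc := not_le.2 h1
      have h4 : i ≠ l.castSucc := h1.ne'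
      rcases eq_or_ne i l.succ with h5 | h5
      · subst h5
        simp [h2, h3, h4]
      · have h6 : l.succ < i := lt_of_le_of_ne (Fin.castSucc_lt_iff_succ_le.1 h1) (Ne.symm h5)
        simp [h2, h3, h4, h5, h6]
  simp only [h, Finset.prod_mul_distrib, Finset.prod_ite_eq', Finset.mem_univ, if_true]

theorem full_eq (a : Fin n → ℝ) (m : Fin (n + 1)) (t : ℂ) (l : Fin n) {x : ℂ}
    (hx : x ∈ strip t) :
    ∏ i, (if i ≤ l.castSucc then (x - ee a m t i) ^ (-(1 / 2) : ℂ) else (ee a m t i - x) ^ (-(1 / 2) : ℂ)) =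
      ph m l * ∏ i, (x - ee a m t i) ^ (-(1 / 2) : ℂ) := by
  unfold ph
  rw [← Finset.prod_mul_distrib]
  refine Finset.prod_congr rfl fun i _ => ?_
  by_cases h1 : i ≤ l.castSucc
  · simp [h1]
  · simp only [h1, if_false]
    unfold cc
    by_cases h2 : i = m
    · subst h2
      rw [if_pos rfl, ee_self, ← neg_sub x t]
      exact neg_cpow_neg (by rw [sub_im]; exact sub_neg.2 hx.2)
    · rw [if_neg h2, ← neg_sub x]
      refine neg_cpow_pos ?_
      rw [sub_im, ee_im h2, sub_zero]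
      exact hx.1


theorem cpow_mul_sq {δ : ℂ} (hδ : δ ≠ 0) {s : ℝ} (hs : 0 < s) :
    (δ * ((s ^ 2 : ℝ) : ℂ)) ^ (-(1 / 2) : ℂ) = δ ^ (-(1 / 2) : ℂ) * ((s : ℂ))⁻¹ := by
  have hs2 : (0 : ℝ) < s ^ 2 := by positivity
  have hs3 : ((s ^ 2 : ℝ) : ℂ) ≠ 0 := by exact_mod_cast hs2.ne'
  have hsc : (s : ℂ) ≠ 0 := by exact_mod_cast hs.ne'
  rw [mul_comm, cpow_def_of_ne_zero (mul_ne_zero hs3 hδ), log_ofReal_mul hs2 hδ, Real.log_pow,
    cpow_def_of_ne_zero hδ, add_mul, exp_add, mul_comm]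
  congr 1
  have : (((2 : ℕ) * Real.log s : ℝ) : ℂ) * (-(1 / 2)) = -(Real.log s : ℂ) := by
    push_cast; ring
  rw [this, exp_neg, ofReal_log hs.le, exp_log hsc]

theorem norm_cpow_half (w : ℂ) : ‖w ^ (-(1 / 2) : ℂ)‖ = ‖w‖ ^ (-(1 / 2) : ℝ) := by
  have : (-(1 / 2) : ℂ) = ((-(1 / 2) : ℝ) : ℂ) := by push_cast; ring
  rw [this, norm_cpow_real]

theorem half_cpow_sq {δ : ℂ} (hδ : δ ≠ 0) : δ ^ (-(1 / 2) : ℂ) * δ ^ (-(1 / 2) : ℂ) * δ = 1 := by
  rw [← cpow_add _ _ hδ]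
  have : (-(1 / 2) + -(1 / 2) : ℂ) = -1 := by ring
  rw [this, cpow_neg_one, inv_mul_cancel₀ hδ]

theorem ee_im_mem {a : Fin n → ℝ} {m : Fin (n + 1)} {t : ℂ} (ht : 0 < t.im) (k : Fin (n + 1)) :
    0 ≤ (ee a m t k).im ∧ (ee a m t k).im ≤ t.im := by
  by_cases h : k = m
  · rw [h, ee_self]; exact ⟨ht.le, le_rfl⟩
  · rw [ee_im h]; exact ⟨le_rfl, ht.le⟩

theorem ee_im_or (a : Fin n → ℝ) (m : Fin (n + 1)) (t : ℂ) (k : Fin (n + 1)) :
    (ee a m t k).im = 0 ∨ ee a m t k = t := by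
  by_cases h : k = m
  · right; rw [h, ee_self]
  · left; exact ee_im h

theorem seg_im_mem {t p q : ℂ} (hp : 0 ≤ p.im ∧ p.im ≤ t.im) (hq : 0 ≤ q.im ∧ q.im ≤ t.im) {u : ℝ}
    (hu0 : 0 ≤ u) (hu1 : u ≤ 1) : 0 ≤ (seg p q u).im ∧ (seg p q u).im ≤ t.im := by
  have : (seg p q u).im = (1 - u) * p.im + u * q.im := by
    unfold seg; simp
  rw [this]
  constructor
  · have := mul_nonneg (sub_nonneg.2 hu1) hp.1
    have := mul_nonneg hu0 hq.1
    linarith
  · have := mul_le_mul_of_nonneg_left hp.2 (sub_nonneg.2 hu1)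
    have := mul_le_mul_of_nonneg_left hq.2 hu0
    linarith

/-- The period over the gap `l` is the limit of differences of the primitive. -/
theorem tendsto_period {a : Fin n → ℝ} (ha : StrictMono a) (m : Fin (n + 1)) {t : ℂ} (ht : 0 < t.im)
    (j : ℕ) {G : ℂ → ℂ} (hG : ∀ x ∈ strip t, HasDerivAt G (g0 a t j x) x) (l : Fin n) :
    Tendsto (fun ε : ℝ => ph m l * (G (sh t ε (ee a m t l.succ)) - G (sh t ε (ee a m t l.castSucc))))
      (𝓝[>] (0 : ℝ)) (𝓝 (perC (ee a m t) l j)) := by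
  have hpi : (0 : ℝ) ≤ Real.pi / 2 := by positivity
  have htD : t ∈ Dm a m := mem_Dm_of_im a m ht.ne'
  set e := ee a m t with he
  set p := e l.castSucc with hp
  set q := e l.succ with hq
  set δ := q - p with hδ
  have hδs : δ ∈ slitPlane := ee_slit ha htD Fin.castSucc_lt_succ
  have hδ0 : δ ≠ 0 := slitPlane_ne_zero hδs
  have hpim := ee_im_mem (a := a) (m := m) ht l.castSucc
  have hqim := ee_im_mem (a := a) (m := m) ht l.succ
  -- the integrand
  set Φ : ℝ → ℝ → ℂ := fun ε θ => ph m l * (g0 a t j (sh t ε (seg p q (Real.sin θ ^ 2))) *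
    (2 * Real.sin θ * Real.cos θ * (sh t ε q - sh t ε p) : ℂ)) with hΦ
  have hxim : ∀ θ : ℝ, 0 ≤ (seg p q (Real.sin θ ^ 2)).im ∧ (seg p q (Real.sin θ ^ 2)).im ≤ t.im :=
    fun θ => seg_im_mem hpim hqim (sin_sq_mem θ).1 (sin_sq_mem θ).2
  have hmem : ∀ ε : ℝ, 0 < ε → ε ≤ 1 → ∀ θ : ℝ, sh t ε (seg p q (Real.sin θ ^ 2)) ∈ strip t :=
    fun ε h0 h1 θ => sh_mem ht h0 h1 (hxim θ).1 (hxim θ).2
  have hg0c : ContinuousOn (g0 a t j) (strip t) := by
    intro x hx
    refine ContinuousAt.continuousWithinAt ?_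
    unfold g0
    refine (continuousAt_id.pow j).mul ((ContinuousAt.cpow ?_ continuousAt_const ?_).mul
      (tendsto_finsetProd _ fun i _ => ContinuousAt.cpow ?_ continuousAt_const ?_))
    · fun_prop
    · rw [mem_slitPlane_iff]; right
      rw [sub_im]
      have := hx.2
      exact (sub_neg.2 this).ne
    · fun_prop
    · rw [mem_slitPlane_iff]; right
      rw [sub_im, ofReal_im, sub_zero]
      exact hx.1.ne'
  have hpath : ∀ ε : ℝ, Continuous fun θ : ℝ => sh t ε (seg p q (Real.sin θ ^ 2)) := by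
    intro ε
    have : (fun θ : ℝ => sh t ε (seg p q (Real.sin θ ^ 2))) =
        fun θ : ℝ => seg (sh t ε p) (sh t ε q) (Real.sin θ ^ 2) := by
      funext θ; rw [sh_seg]
    rw [this]
    unfold seg
    fun_prop
  have hΦc : ∀ ε : ℝ, 0 < ε → ε ≤ 1 → Continuous (Φ ε) := by
    intro ε h0 h1
    simp only [hΦ]
    refine continuous_const.mul (Continuous.mul ?_ (by fun_prop))
    exact hg0c.comp_continuous (hpath ε) (hmem ε h0 h1)
  -- FTC
  have hFTC : ∀ ε : ℝ, 0 < ε → ε ≤ 1 → ∫ θ in (0 : ℝ)..(Real.pi / 2), Φ ε θ =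
      ph m l * (G (sh t ε q) - G (sh t ε p)) := by
    intro ε h0 h1
    have hder : ∀ θ ∈ uIcc (0 : ℝ) (Real.pi / 2),
        HasDerivAt (fun θ : ℝ => ph m l * G (sh t ε (seg p q (Real.sin θ ^ 2)))) (Φ ε θ) θ := by
      intro θ _
      have h2 : HasDerivAt (fun θ : ℝ => sh t ε (seg p q (Real.sin θ ^ 2)))
          (2 * Real.sin θ * Real.cos θ * (sh t ε q - sh t ε p) : ℂ) θ := by
        have : (fun θ : ℝ => sh t ε (seg p q (Real.sin θ ^ 2))) =
            fun θ : ℝ => sh t ε p + ((Real.sin θ ^ 2 : ℝ) : ℂ) * (sh t ε q - sh t ε p) := by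
          funext θ; rw [sh_seg]; unfold seg; ring
        rw [this]
        have h3 : HasDerivAt (fun θ : ℝ => Real.sin θ ^ 2) (2 * Real.sin θ * Real.cos θ) θ := by
          have := (Real.hasDerivAt_sin θ).fun_pow 2
          simpa using this
        have h4 := h3.ofReal_comp
        have h5 := (h4.mul_const (sh t ε q - sh t ε p)).const_add (sh t ε p)
        refine h5.congr_deriv ?_
        push_cast; ring
      have h6 := (hG _ (hmem ε h0 h1 θ)).comp θ h2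
      exact h6.const_mul (ph m l)
    rw [intervalIntegral.integral_eq_sub_of_hasDerivAt hder ((hΦc ε h0 h1).intervalIntegrable _ _)]
    simp [seg]
    ring
  -- bounds
  obtain ⟨M, hM⟩ : ∃ M, ∀ θ : ℝ, ‖∏ i, fac e l i (seg p q (Real.sin θ ^ 2))‖ ≤ M := by
    have hc : ContinuousOn (fun u : ℝ => ∏ i, fac e l i (seg p q u)) (Icc 0 1) := by
      intro u hu
      refine ContinuousAt.continuousWithinAt (tendsto_finsetProd _ fun i _ => ?_)
      have hseg : Continuous fun u : ℝ => seg p q u := by unfold seg; fun_prop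
      unfold fac
      split_ifs with h1 h2
      · exact ContinuousAt.cpow (hseg.continuousAt.sub continuousAt_const) continuousAt_const
          (seg_slit_lt ha htD h1 hu.1 hu.2)
      · exact ContinuousAt.cpow (continuousAt_const.sub hseg.continuousAt) continuousAt_const
          (seg_slit_gt ha htD h2 hu.1 hu.2)
      · exact continuousAt_const
    obtain ⟨M, hM⟩ := isCompact_Icc.exists_bound_of_continuousOn hc
    exact ⟨M, fun θ => hM _ (sin_sq_mem θ)⟩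
  obtain ⟨R, hR0, hR⟩ : ∃ R : ℝ, 0 ≤ R ∧ ∀ ε : ℝ, 0 < ε → ε ≤ 1 → ∀ θ : ℝ,
      ‖sh t ε (seg p q (Real.sin θ ^ 2))‖ ≤ R := by
    refine ⟨‖p‖ + ‖q‖ + ‖t‖, by positivity, fun ε h0 h1 θ => ?_⟩
    obtain ⟨hu0, hu1⟩ := sin_sq_mem θ
    set u := Real.sin θ ^ 2
    set x := seg p q u with hx
    have h3 : ‖x‖ ≤ ‖p‖ + ‖q‖ := by
      rw [hx]; unfold seg
      refine (norm_add_le _ _).trans ?_
      rw [norm_mul, norm_mul]
      have h4 : ‖(1 - (u : ℂ))‖ = 1 - u := by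
        rw [← ofReal_one, ← ofReal_sub, norm_real, Real.norm_eq_abs, abs_of_nonneg (by linarith)]
      have h5 : ‖(u : ℂ)‖ = u := by
        rw [norm_real, Real.norm_eq_abs, abs_of_nonneg hu0]
      rw [h4, h5]
      nlinarith [norm_nonneg p, norm_nonneg q]
    have h6 : sh t ε x = (x.re : ℂ) + (((1 - ε) * x.im + ε * (t.im / 2) : ℝ) : ℂ) * I := by
      unfold sh; rw [mk_eq_add_mul_I]
    have hxi := hxim θ
    have h7 : ‖sh t ε x‖ ≤ |x.re| + |(1 - ε) * x.im + ε * (t.im / 2)| := by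
      rw [h6]
      refine (norm_add_le _ _).trans ?_
      rw [norm_mul, norm_I, mul_one, norm_real, norm_real, Real.norm_eq_abs, Real.norm_eq_abs]
    have h8 : |(1 - ε) * x.im + ε * (t.im / 2)| ≤ t.im := by
      have h9 : 0 ≤ (1 - ε) * x.im := mul_nonneg (by linarith) hxi.1
      have h10 : 0 ≤ ε * (t.im / 2) := by positivity
      have h11 : (1 - ε) * x.im ≤ (1 - ε) * t.im := mul_le_mul_of_nonneg_left hxi.2 (by linarith)
      rw [abs_of_nonneg (by linarith)]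
      nlinarith
    have h9 := abs_re_le_norm x
    have h10 := (le_abs_self _).trans (abs_im_le_norm t)
    linarith
  have hxp : ∀ θ : ℝ, seg p q (Real.sin θ ^ 2) - p = δ * ((Real.sin θ ^ 2 : ℝ) : ℂ) := by
    intro θ; unfold seg; ring
  have hqx : ∀ θ : ℝ, q - seg p q (Real.sin θ ^ 2) = δ * ((Real.cos θ ^ 2 : ℝ) : ℂ) := by
    intro θ
    rw [Real.cos_sq']
    unfold seg; push_cast; ring
  have hfac0 : ∀ θ ∈ Ioo (0 : ℝ) (Real.pi / 2), ∀ i, seg p q (Real.sin θ ^ 2) - e i ≠ 0 := by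
    intro θ hθ i
    have hs : 0 < Real.sin θ := Real.sin_pos_of_pos_of_lt_pi hθ.1 (by linarith [hθ.2, Real.pi_pos])
    have hc : 0 < Real.cos θ := Real.cos_pos_of_mem_Ioo ⟨by linarith [hθ.1], hθ.2⟩
    rcases lt_trichotomy i l.castSucc with h1 | h1 | h1
    · exact slitPlane_ne_zero (seg_slit_lt ha htD h1 (sin_sq_mem θ).1 (sin_sq_mem θ).2)
    · rw [h1, ← hp, hxp]
      exact mul_ne_zero hδ0 (by exact_mod_cast (pow_pos hs 2).ne')
    · rcases eq_or_ne i l.succ with h5 | h5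
      · rw [h5, ← hq, ← neg_ne_zero, neg_sub, hqx]
        exact mul_ne_zero hδ0 (by exact_mod_cast (pow_pos hc 2).ne')
      · have h6 : l.succ < i := lt_of_le_of_ne (Fin.castSucc_lt_iff_succ_le.1 h1) (Ne.symm h5)
        rw [← neg_ne_zero, neg_sub]
        exact slitPlane_ne_zero (seg_slit_gt ha htD h6 (sin_sq_mem θ).1 (sin_sq_mem θ).2)
  have hbound : ∀ ε : ℝ, 0 < ε → ε ≤ 1 / 2 → ∀ θ ∈ Ioo (0 : ℝ) (Real.pi / 2),
      ‖Φ ε θ‖ ≤ 2 * (R ^ j * ((2 : ℝ) ^ ((1 / 2) : ℝ)) ^ (n + 1) * M) := by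
    intro ε h0 h1 θ hθ
    have hs : 0 < Real.sin θ := Real.sin_pos_of_pos_of_lt_pi hθ.1 (by linarith [hθ.2, Real.pi_pos])
    have hc : 0 < Real.cos θ := Real.cos_pos_of_mem_Ioo ⟨by linarith [hθ.1], hθ.2⟩
    set x := seg p q (Real.sin θ ^ 2) with hx
    have hxi := hxim θ
    -- the product of the norms
    have hprod : ∏ i, ‖x - e i‖ ^ (-(1 / 2) : ℝ) = ‖∏ i, fac e l i x‖ * (‖δ‖⁻¹ * (Real.sin θ * Real.cos θ)⁻¹) := by
      have h2 := congrArg (fun z => ‖z‖) (prod_full e l x)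
      simp only [norm_mul, norm_prod] at h2
      have h3 : ∏ i, ‖(if i ≤ l.castSucc then (x - e i) ^ (-(1 / 2) : ℂ) else (e i - x) ^ (-(1 / 2) : ℂ))‖ =
          ∏ i, ‖x - e i‖ ^ (-(1 / 2) : ℝ) := by
        refine Finset.prod_congr rfl fun i _ => ?_
        split_ifs
        · exact norm_cpow_half _
        · rw [norm_cpow_half, norm_sub_rev]
      rw [h3, ← norm_prod] at h2
      rw [h2, ← hp, ← hq, hxp, hqx, cpow_mul_sq hδ0 hs, cpow_mul_sq hδ0 hc]
      have h4 : ‖δ ^ (-(1 / 2) : ℂ)‖ * ‖δ ^ (-(1 / 2) : ℂ)‖ = ‖δ‖⁻¹ := by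
        have h5 := congrArg (fun z => ‖z‖) (half_cpow_sq hδ0)
        simp only [norm_mul, norm_one] at h5
        exact eq_inv_of_mul_eq_one_left h5
      rw [norm_mul, norm_mul, norm_inv, norm_inv, norm_real, norm_real, Real.norm_eq_abs, Real.norm_eq_abs,
        abs_of_pos hs, abs_of_pos hc, ← h4, mul_inv]
      ring
    have h5 : ‖g0 a t j (sh t ε x)‖ ≤ R ^ j * (((2 : ℝ) ^ ((1 / 2) : ℝ)) ^ (n + 1) *
        ∏ i, ‖x - e i‖ ^ (-(1 / 2) : ℝ)) := by
      rw [g0_eq a m, norm_mul, norm_pow, norm_prod]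
      refine mul_le_mul (pow_le_pow_left₀ (norm_nonneg _) (hR ε h0 (by linarith) θ) j) ?_
        (Finset.prod_nonneg fun i _ => norm_nonneg _) (by positivity)
      have h6 : ((2 : ℝ) ^ ((1 / 2) : ℝ)) ^ (n + 1) = ∏ _i : Fin (n + 1), (2 : ℝ) ^ ((1 / 2) : ℝ) := by simp
      rw [h6, ← Finset.prod_mul_distrib]
      refine Finset.prod_le_prod (fun i _ => norm_nonneg _) fun i _ => ?_
      rw [norm_cpow_half]
      have h7 := norm_sh_sub h0.le (by linarith : ε ≤ 1) hxi.1 hxi.2 (ee_im_or a m t i)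
      have h8 : 0 < ‖x - e i‖ := norm_pos_iff.2 (hfac0 θ hθ i)
      have h9 : (1 / 2) * ‖x - e i‖ ≤ ‖sh t ε x - e i‖ := by
        refine le_trans ?_ h7
        exact mul_le_mul_of_nonneg_right (by linarith) (norm_nonneg _)
      have h10 := Real.rpow_le_rpow_of_nonpos (by positivity : 0 < (1 / 2) * ‖x - e i‖) h9
        (by norm_num : (-(1 / 2) : ℝ) ≤ 0)
      refine h10.trans (le_of_eq ?_)
      rw [Real.mul_rpow (by norm_num) (norm_nonneg _)]
      congr 1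
      rw [one_div, Real.inv_rpow (by norm_num), Real.rpow_neg (by norm_num), inv_inv]
    have h11 : ‖sh t ε q - sh t ε p‖ ≤ ‖δ‖ := sh_sub_norm_le t h0.le (by linarith) p q
    have h12 : ‖(2 * Real.sin θ * Real.cos θ * (sh t ε q - sh t ε p) : ℂ)‖ ≤
        2 * (Real.sin θ * Real.cos θ) * ‖δ‖ := by
      rw [norm_mul, norm_mul, norm_mul, norm_real, norm_real, Real.norm_eq_abs, Real.norm_eq_abs,
        abs_of_pos hs, abs_of_pos hc]
      simp only [norm_ofNat]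
      have := mul_le_mul_of_nonneg_left h11 (by positivity : 0 ≤ 2 * (Real.sin θ * Real.cos θ))
      nlinarith
    simp only [hΦ]
    rw [norm_mul, norm_ph, one_mul, norm_mul]
    refine (mul_le_mul h5 h12 (norm_nonneg _) (by positivity)).trans ?_
    rw [hprod]
    have hM' := hM θ
    have hδp : 0 < ‖δ‖ := norm_pos_iff.2 hδ0
    have h13 : R ^ j * (((2 : ℝ) ^ ((1 / 2) : ℝ)) ^ (n + 1) * (‖∏ i, fac e l i x‖ *
        (‖δ‖⁻¹ * (Real.sin θ * Real.cos θ)⁻¹))) * (2 * (Real.sin θ * Real.cos θ) * ‖δ‖) =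
        2 * (R ^ j * ((2 : ℝ) ^ ((1 / 2) : ℝ)) ^ (n + 1) * ‖∏ i, fac e l i x‖) := by
      field_simp
    rw [h13]
    have h14 : 0 ≤ R ^ j * ((2 : ℝ) ^ ((1 / 2) : ℝ)) ^ (n + 1) := by positivity
    have := mul_le_mul_of_nonneg_left hM' h14
    linarith
  have hlim : ∀ θ ∈ Ioo (0 : ℝ) (Real.pi / 2), Tendsto (fun ε => Φ ε θ) (𝓝[>] (0 : ℝ))
      (𝓝 (2 * ker e l j (seg p q (Real.sin θ ^ 2)))) := by
    intro θ hθ
    have hs : 0 < Real.sin θ := Real.sin_pos_of_pos_of_lt_pi hθ.1 (by linarith [hθ.2, Real.pi_pos])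
    have hc : 0 < Real.cos θ := Real.cos_pos_of_mem_Ioo ⟨by linarith [hθ.1], hθ.2⟩
    set x := seg p q (Real.sin θ ^ 2) with hx
    have hsm : ∀ {r : ℝ}, 0 < r → δ * ((r ^ 2 : ℝ) : ℂ) ∈ slitPlane := by
      intro r hr
      rw [mem_slitPlane_iff] at hδs ⊢
      have h2 : (0 : ℝ) < r ^ 2 := by positivity
      rw [re_mul_ofReal, im_mul_ofReal]
      rcases hδs with h | h
      · left; positivity
      · right; exact mul_ne_zero h h2.ne'
    have hxps : x - p ∈ slitPlane := by rw [hxp]; exact hsm hs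
    have hqxs : q - x ∈ slitPlane := by rw [hqx]; exact hsm hc
    -- the integrand as a function of the point
    have hpt : Tendsto (fun y : ℂ => (y ^ j * ((∏ i, fac e l i y) * (y - p) ^ (-(1 / 2) : ℂ) *
        (q - y) ^ (-(1 / 2) : ℂ)))) (𝓝 x) (𝓝 (x ^ j * ((∏ i, fac e l i x) * (x - p) ^ (-(1 / 2) : ℂ) *
        (q - x) ^ (-(1 / 2) : ℂ)))) := by
      have h1 : ContinuousAt (fun y : ℂ => ∏ i, fac e l i y) x := by
        refine tendsto_finsetProd _ fun i _ => ?_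
        unfold fac
        split_ifs with h1 h2
        · exact ContinuousAt.cpow (continuousAt_id.sub continuousAt_const) continuousAt_const
            (seg_slit_lt ha htD h1 (sin_sq_mem θ).1 (sin_sq_mem θ).2)
        · exact ContinuousAt.cpow (continuousAt_const.sub continuousAt_id) continuousAt_const
            (seg_slit_gt ha htD h2 (sin_sq_mem θ).1 (sin_sq_mem θ).2)
        · exact continuousAt_const
      have h2 : ContinuousAt (fun y : ℂ => (y - p) ^ (-(1 / 2) : ℂ)) x :=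
        ContinuousAt.cpow (continuousAt_id.sub continuousAt_const) continuousAt_const hxps
      have h3 : ContinuousAt (fun y : ℂ => (q - y) ^ (-(1 / 2) : ℂ)) x :=
        ContinuousAt.cpow (continuousAt_const.sub continuousAt_id) continuousAt_const hqxs
      exact ((continuousAt_id.pow j).mul ((h1.mul h2).mul h3))
    have h4 : Tendsto (fun ε : ℝ => ((sh t ε x) ^ j * ((∏ i, fac e l i (sh t ε x)) *
        ((sh t ε x) - p) ^ (-(1 / 2) : ℂ) * (q - (sh t ε x)) ^ (-(1 / 2) : ℂ))) *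
        (2 * Real.sin θ * Real.cos θ * (sh t ε q - sh t ε p) : ℂ)) (𝓝[>] (0 : ℝ))
        (𝓝 ((x ^ j * ((∏ i, fac e l i x) * (x - p) ^ (-(1 / 2) : ℂ) *
        (q - x) ^ (-(1 / 2) : ℂ))) * (2 * Real.sin θ * Real.cos θ * (q - p) : ℂ))) := by
      refine (hpt.comp (tendsto_sh t x)).mul ?_
      exact ((tendsto_sh t q).sub (tendsto_sh t p)).const_mul _
    have h5 : (x ^ j * ((∏ i, fac e l i x) * (x - p) ^ (-(1 / 2) : ℂ) *
        (q - x) ^ (-(1 / 2) : ℂ))) * (2 * Real.sin θ * Real.cos θ * (q - p) : ℂ) = 2 * ker e l j x := by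
      rw [hxp, hqx, cpow_mul_sq hδ0 hs, cpow_mul_sq hδ0 hc]
      have hsc : (Real.sin θ : ℂ) ≠ 0 := by exact_mod_cast hs.ne'
      have hcc : (Real.cos θ : ℂ) ≠ 0 := by exact_mod_cast hc.ne'
      have h6 := half_cpow_sq hδ0
      unfold ker
      calc _ = 2 * (x ^ j * ∏ i, fac e l i x) * ((δ ^ (-(1 / 2) : ℂ) * δ ^ (-(1 / 2) : ℂ) * δ) *
            (((Real.sin θ : ℂ)⁻¹ * Real.sin θ) * ((Real.cos θ : ℂ)⁻¹ * Real.cos θ))) := by
            rw [← hδ]; ring
        _ = _ := by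
            rw [h6, inv_mul_cancel₀ hsc, inv_mul_cancel₀ hcc]; ring
    rw [h5] at h4
    refine h4.congr' ?_
    filter_upwards [Ioc_mem_nhdsGT (show (0 : ℝ) < 1 / 2 by norm_num)] with ε hε
    have h7 := hmem ε hε.1 (by linarith [hε.2]) θ
    have h8 := full_eq a m t l h7
    rw [← he, prod_full] at h8
    simp only [hΦ]
    rw [g0_eq a m, ← he, hp, hq, h8]
    ring
  have hfin : Tendsto (fun ε : ℝ => ∫ θ in (0 : ℝ)..(Real.pi / 2), Φ ε θ) (𝓝[>] (0 : ℝ))
      (𝓝 (perC e l j)) := by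
    unfold perC
    refine intervalIntegral.tendsto_integral_filter_of_dominated_convergence
      (fun _ => 2 * (R ^ j * ((2 : ℝ) ^ ((1 / 2) : ℝ)) ^ (n + 1) * M)) ?_ ?_ ?_ ?_
    · filter_upwards [Ioc_mem_nhdsGT (show (0 : ℝ) < 1 / 2 by norm_num)] with ε hε
      exact (hΦc ε hε.1 (by linarith [hε.2])).aestronglyMeasurable
    · filter_upwards [Ioc_mem_nhdsGT (show (0 : ℝ) < 1 / 2 by norm_num)] with ε hε
      have : ∀ᵐ θ : ℝ, θ ≠ Real.pi / 2 := by
        rw [ae_iff]; simp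
      filter_upwards [this] with θ h1 hθ
      rw [uIoc_of_le hpi] at hθ
      exact hbound ε hε.1 hε.2 θ ⟨hθ.1, lt_of_le_of_ne hθ.2 h1⟩
    · exact intervalIntegrable_const
    · have : ∀ᵐ θ : ℝ, θ ≠ Real.pi / 2 := by
        rw [ae_iff]; simp
      filter_upwards [this] with θ h1 hθ
      rw [uIoc_of_le hpi] at hθ
      exact hlim θ ⟨hθ.1, lt_of_le_of_ne hθ.2 h1⟩
  refine hfin.congr' ?_
  filter_upwards [Ioc_mem_nhdsGT (show (0 : ℝ) < 1 / 2 by norm_num)] with ε hε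
  exact hFTC ε hε.1 (by linarith [hε.2])

end Pool.Agent.Y118.HP
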