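import Pool.Agent.Y118.HP.Cau

/-!
# The connection formulas
-/

set_option autoImplicit false

open Complex Set MeasureTheory Filter Topology

namespace Pool.Agent.Y118.HP

variable {n : ℕ}

theorem ph_eq (m : Fin (n + 1)) (l : Fin n) :
    ph m l = I ^ (n - (l : ℕ)) * (if m ≤ l.castSucc then 1 else -1) := by
  classical
  unfold ph cc
  have h1 : ∀ i : Fin (n + 1), (if i ≤ l.castSucc then (1 : ℂ) else if i = m then -I else I) =
      (if i ∈ Finset.Ioi l.castSucc then I else 1) *
        (if i = m then (if m ≤ l.castSucc then 1 else -1) else 1) := by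
    intro i
    by_cases h : i ≤ l.castSucc
    · have h' : i ∉ Finset.Ioi l.castSucc := by simpa using h
      simp only [h, h', if_true, if_false, one_mul]
      by_cases h2 : i = m
      · subst h2; simp [h]
      · simp [h2]
    · have h' : i ∈ Finset.Ioi l.castSucc := by simpa using h
      simp only [h, h', if_true, if_false]
      by_cases h2 : i = m
      · subst h2; simp [h]
      · simp [h2]
  simp only [h1, Finset.prod_mul_distrib, Finset.prod_ite_eq', Finset.mem_univ, if_true]
  congr 1
  rw [Finset.prod_ite_mem, Finset.univ_inter, Finset.prod_const, Fin.card_Ioi]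
  congr 1

theorem ee_castSucc_castSucc (a : Fin n → ℝ) (k : Fin n) (t : ℂ) : ee a k.castSucc t k.castSucc = t :=
  ee_self _ _ _

theorem ee_castSucc_succ (a : Fin n → ℝ) (k : Fin n) (t : ℂ) : ee a k.castSucc t k.succ = a k := by
  have h := ee_succAbove a k.castSucc t k
  rwa [Fin.succAbove_castSucc_self] at h

theorem ee_succ_castSucc (a : Fin n → ℝ) (k : Fin n) (t : ℂ) : ee a k.succ t k.castSucc = a k := by
  have h := ee_succAbove a k.succ t k
  rwa [Fin.succAbove_succ_self] at h

theorem ee_succ_succ (a : Fin n → ℝ) (k : Fin n) (t : ℂ) : ee a k.succ t k.succ = t :=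
  ee_self _ _ _

theorem ee_other (a : Fin n → ℝ) (k : Fin n) (t : ℂ) {i : Fin (n + 1)} (h1 : i ≠ k.castSucc)
    (h2 : i ≠ k.succ) : ee a k.succ t i = ee a k.castSucc t i := by
  rcases lt_or_gt_of_ne h1 with h | h
  · -- `i < k`
    obtain ⟨i', rfl⟩ : ∃ i' : Fin n, i = i'.castSucc := ⟨⟨i, by
      have : (i : ℕ) < k := h
      omega⟩, rfl⟩
    have h3 : k.castSucc.succAbove i' = i'.castSucc := Fin.succAbove_of_castSucc_lt _ _ h
    have h4 : k.succ.succAbove i' = i'.castSucc :=
      Fin.succAbove_of_castSucc_lt _ _ (h.trans Fin.castSucc_lt_succ)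
    have h5 := ee_succAbove a k.castSucc t i'
    have h6 := ee_succAbove a k.succ t i'
    rw [h3] at h5
    rw [h4] at h6
    rw [h5, h6]
  · have h' : k.succ < i := lt_of_le_of_ne (Fin.castSucc_lt_iff_succ_le.1 h) (Ne.symm h2)
    obtain ⟨i', rfl⟩ : ∃ i' : Fin n, i = i'.succ := by
      refine ⟨i.pred (Fin.ne_zero_of_lt h'), (Fin.succ_pred _ _).symm⟩
    have h3 : k.castSucc.succAbove i' = i'.succ :=
      Fin.succAbove_of_le_castSucc _ _ (by
        rw [Fin.lt_def] at h'
        rw [Fin.le_def]
        simp at h' ⊢
        exact (Nat.le_of_lt h'))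
    have h4 : k.succ.succAbove i' = i'.succ :=
      Fin.succAbove_of_le_castSucc _ _ (by
        rw [Fin.lt_def] at h'
        rw [Fin.le_def]
        simp at h' ⊢
        exact h')
    have h5 := ee_succAbove a k.castSucc t i'
    have h6 := ee_succAbove a k.succ t i'
    rw [h3] at h5
    rw [h4] at h6
    rw [h5, h6]

/-- `a k` is passed by the moving point in the upper half-plane -/
theorem conn_upper {a : Fin n → ℝ} (ha : StrictMono a) (k : Fin n) {t : ℂ} (ht : 0 < t.im) (j : ℕ)
    (l : Fin n) : perC (ee a k.succ t) l j = perC (ee a k.castSucc t) l j -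
      I * (if (l : ℕ) + 1 = k ∨ (l : ℕ) = k + 1 then perC (ee a k.castSucc t) k j else 0) := by
  obtain ⟨G, hG⟩ := exists_primitive a t j
  have h1 := tendsto_period ha k.succ ht j hG l
  have h2 := tendsto_period ha k.castSucc ht j hG l
  have h3 := tendsto_period ha k.castSucc ht j hG k
  have hl := l.2
  have hk := k.2
  by_cases hadj : (l : ℕ) + 1 = k ∨ (l : ℕ) = k + 1
  · rw [if_pos hadj]
    refine tendsto_nhds_unique (h1.congr fun ε => ?_) (h2.sub (h3.const_mul I))
    rw [ph_eq, ph_eq, ph_eq]
    rw [ee_castSucc_castSucc, ee_castSucc_succ, if_pos (le_refl k.castSucc)]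
    rcases hadj with h | h
    · have e1 : l.succ = k.castSucc := Fin.ext (by simpa using h)
      have e2 : l.castSucc ≠ k.castSucc := by
        intro hh; have := congrArg Fin.val hh; simp at this; omega
      have e3 : l.castSucc ≠ k.succ := by
        intro hh; have := congrArg Fin.val hh; simp at this; omega
      have e4 : ¬ k.succ ≤ l.castSucc := by
        rw [Fin.le_def]; simp; omega
      have e5 : ¬ k.castSucc ≤ l.castSucc := by
        rw [Fin.le_def]; simp; omega
      rw [e1, ee_succ_castSucc, ee_castSucc_castSucc, ee_other a k t e2 e3, if_neg e4, if_neg e5]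
      have e6 : n - (l : ℕ) = (n - k) + 1 := by omega
      rw [e6, pow_succ]
      ring
    · have e1 : l.castSucc = k.succ := Fin.ext (by simpa using h)
      have e2 : l.succ ≠ k.castSucc := by
        intro hh; have := congrArg Fin.val hh; simp at this; omega
      have e3 : l.succ ≠ k.succ := by
        intro hh; have := congrArg Fin.val hh; simp at this; omega
      have e4 : k.succ ≤ l.castSucc := by
        rw [Fin.le_def]; simp; omega
      have e5 : k.castSucc ≤ l.castSucc := by
        rw [Fin.le_def]; simp; omega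
      rw [if_pos e4, if_pos e5, e1, ee_succ_succ, ee_castSucc_succ, ee_other a k t e2 e3]
      have e6 : n - (k : ℕ) = (n - l) + 1 := by omega
      rw [e6, pow_succ]
      linear_combination (I ^ (n - (l : ℕ)) * (G (sh t ε (a k)) - G (sh t ε t))) * I_sq
  · rw [if_neg hadj, mul_zero, sub_zero]
    push Not at hadj
    refine tendsto_nhds_unique (h1.congr fun ε => ?_) h2
    rw [ph_eq, ph_eq]
    by_cases h : l = k
    · subst h
      rw [ee_castSucc_castSucc, ee_castSucc_succ, ee_succ_succ, ee_succ_castSucc, if_pos (le_refl l.castSucc),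
        if_neg (not_le.2 Fin.castSucc_lt_succ)]
      ring
    · have hne : (l : ℕ) ≠ k := fun hh => h (Fin.ext hh)
      have e2 : l.castSucc ≠ k.castSucc := by
        intro hh; have := congrArg Fin.val hh; simp at this; omega
      have e3 : l.castSucc ≠ k.succ := by
        intro hh; have := congrArg Fin.val hh; simp at this; omega
      have e4 : l.succ ≠ k.castSucc := by
        intro hh; have := congrArg Fin.val hh; simp at this; omega
      have e5 : l.succ ≠ k.succ := by
        intro hh; have := congrArg Fin.val hh; simp at this; omega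
      rw [ee_other a k t e2 e3, ee_other a k t e4 e5]
      have e6 : (k.succ ≤ l.castSucc) ↔ (k.castSucc ≤ l.castSucc) := by
        rw [Fin.le_def, Fin.le_def]; simp; omega
      simp only [e6]

/-- the same in the lower half-plane -/
theorem conn_lower {a : Fin n → ℝ} (ha : StrictMono a) (k : Fin n) {t : ℂ} (ht : t.im < 0) (j : ℕ)
    (l : Fin n) : perC (ee a k.succ t) l j = perC (ee a k.castSucc t) l j +
      I * (if (l : ℕ) + 1 = k ∨ (l : ℕ) = k + 1 then perC (ee a k.castSucc t) k j else 0) := by
  have ht' : 0 < ((starRingEnd ℂ) t).im := by rw [conj_im]; linarith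
  have h := conn_upper ha k ht' j l
  have hD1 := mem_Dm_of_im a k.succ ht.ne
  have hD2 := mem_Dm_of_im a k.castSucc ht.ne
  rw [perC_conj ha _ _ _ hD1, perC_conj ha _ _ _ hD2, perC_conj ha _ _ _ hD2] at h
  have h2 := congrArg (starRingEnd ℂ) h
  simp only [map_sub, map_mul, conj_conj, conj_I] at h2
  rw [h2]
  split_ifs
  · simp
  · simp

end Pool.Agent.Y118.HP
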