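import Mathlib

/-!
# The norm of a polynomial with coefficients in a number field
-/

set_option autoImplicit false

open NumberField

namespace Pool.Agent.Y118.HP

section l1

variable {σ : Type*}

/-- the sum of the absolute values of the coefficients -/
noncomputable def l1 (P : MvPolynomial σ ℂ) : ℝ := ∑ s ∈ P.support, ‖P.coeff s‖

theorem l1_eq (P : MvPolynomial σ ℂ) {S : Finset (σ →₀ ℕ)} (hS : P.support ⊆ S) :
    l1 P = ∑ s ∈ S, ‖P.coeff s‖ := by
  unfold l1
  refine Finset.sum_subset hS fun s _ hs => ?_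
  rw [MvPolynomial.notMem_support_iff.1 hs, norm_zero]

theorem l1_nonneg (P : MvPolynomial σ ℂ) : 0 ≤ l1 P := Finset.sum_nonneg fun _ _ => norm_nonneg _

theorem coeff_le_l1 (P : MvPolynomial σ ℂ) (s : σ →₀ ℕ) : ‖P.coeff s‖ ≤ l1 P := by
  by_cases hs : s ∈ P.support
  · exact Finset.single_le_sum (f := fun s => ‖P.coeff s‖) (fun _ _ => norm_nonneg _) hs
  · rw [MvPolynomial.notMem_support_iff.1 hs, norm_zero]
    exact l1_nonneg P

theorem l1_zero : l1 (0 : MvPolynomial σ ℂ) = 0 := by unfold l1; simp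

theorem l1_add_le (P Q : MvPolynomial σ ℂ) : l1 (P + Q) ≤ l1 P + l1 Q := by
  classical
  rw [l1_eq (P + Q) MvPolynomial.support_add, l1_eq P (Finset.subset_union_left (s₂ := Q.support)),
    l1_eq Q (Finset.subset_union_right (s₁ := P.support)), ← Finset.sum_add_distrib]
  refine Finset.sum_le_sum fun s _ => ?_
  rw [MvPolynomial.coeff_add]
  exact norm_add_le _ _

theorem l1_sum_le {ι : Type*} (S : Finset ι) (P : ι → MvPolynomial σ ℂ) : l1 (∑ i ∈ S, P i) ≤ ∑ i ∈ S, l1 (P i) := by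
  classical
  induction S using Finset.induction_on with
  | empty => simp [l1_zero]
  | insert i S hi ih =>
    rw [Finset.sum_insert hi, Finset.sum_insert hi]
    exact (l1_add_le _ _).trans (by linarith)

theorem l1_monomial (s : σ →₀ ℕ) (c : ℂ) : l1 (MvPolynomial.monomial s c) ≤ ‖c‖ := by
  classical
  rw [l1_eq (MvPolynomial.monomial s c) (S := {s}) MvPolynomial.support_monomial_subset, Finset.sum_singleton,
    MvPolynomial.coeff_monomial, if_pos rfl]

theorem l1_mul_le (P Q : MvPolynomial σ ℂ) : l1 (P * Q) ≤ l1 P * l1 Q := by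
  classical
  rw [MvPolynomial.mul_def]
  refine (l1_sum_le _ _).trans ?_
  have h1 : l1 P * l1 Q = ∑ s ∈ P.support, ∑ t ∈ Q.support, ‖P.coeff s‖ * ‖Q.coeff t‖ := by
    unfold l1
    rw [Finset.sum_mul_sum]
  rw [h1]
  refine Finset.sum_le_sum fun s _ => ?_
  refine (l1_sum_le _ _).trans (Finset.sum_le_sum fun t _ => ?_)
  refine (l1_monomial _ _).trans ?_
  rw [norm_mul]
  rfl

theorem l1_one : l1 (1 : MvPolynomial σ ℂ) ≤ 1 := by
  have h := l1_monomial (σ := σ) 0 1
  rwa [norm_one] at h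

theorem l1_prod_le {ι : Type*} (S : Finset ι) (P : ι → MvPolynomial σ ℂ) {H : ℝ} (hH : ∀ i ∈ S, l1 (P i) ≤ H) :
    l1 (∏ i ∈ S, P i) ≤ H ^ S.card := by
  classical
  induction S using Finset.induction_on with
  | empty => simpa using l1_one
  | insert i S hi ih =>
    rw [Finset.prod_insert hi, Finset.card_insert_of_notMem hi, pow_succ, mul_comm (H ^ S.card)]
    have h1 := hH i (Finset.mem_insert_self _ _)
    have h2 := ih fun k hk => hH k (Finset.mem_insert_of_mem hk)
    exact (l1_mul_le _ _).trans (mul_le_mul h1 h2 (l1_nonneg _) ((l1_nonneg _).trans h1))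

end l1

/-- the norm of a polynomial with coefficients in the ring of integers of a number field -/
theorem exists_norm {σ : Type*} (K : Type*) [Field K] [NumberField K] (P : MvPolynomial σ (𝓞 K)) :
    ∃ M : MvPolynomial σ ℤ, M.map (Int.castRingHom ℂ) = ∏ ψ : K →+* ℂ, P.map (ψ.comp (algebraMap (𝓞 K) K)) := by
  classical
  set Pn : MvPolynomial σ ℂ := ∏ ψ : K →+* ℂ, P.map (ψ.comp (algebraMap (𝓞 K) K)) with hPn
  -- integrality
  have hint : ∀ s, IsIntegral ℤ (Pn.coeff s) := by
    set Z := integralClosure ℤ ℂ with hZ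
    have hmem : ∀ (ψ : K →+* ℂ) (x : 𝓞 K), (ψ.comp (algebraMap (𝓞 K) K)) x ∈ Z := by
      intro ψ x
      rw [hZ, mem_integralClosure_iff]
      exact map_isIntegral_int (ψ.comp (algebraMap (𝓞 K) K)) (RingOfIntegers.isIntegral x)
    have h1 : Pn = (∏ ψ : K →+* ℂ, P.map ((ψ.comp (algebraMap (𝓞 K) K)).codRestrict Z (hmem ψ))).map
        (Subalgebra.val Z : Z →ₐ[ℤ] ℂ).toRingHom := by
      have h2 := map_prod (MvPolynomial.map (σ := σ) ((Subalgebra.val Z : Z →ₐ[ℤ] ℂ).toRingHom))
        (fun ψ : K →+* ℂ => P.map ((ψ.comp (algebraMap (𝓞 K) K)).codRestrict Z (hmem ψ))) Finset.univ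
      rw [hPn]
      refine Eq.trans ?_ h2.symm
      refine Finset.prod_congr rfl fun ψ _ => ?_
      rw [MvPolynomial.map_map]
      rfl
    intro s
    rw [h1, MvPolynomial.coeff_map]
    exact (MvPolynomial.coeff s (∏ ψ : K →+* ℂ, P.map ((ψ.comp (algebraMap (𝓞 K) K)).codRestrict Z (hmem ψ)))).2
  -- rationality
  have hval : ∀ x : σ → ℚ, ∃ q : ℚ, MvPolynomial.eval (fun i => (x i : ℂ)) Pn = q := by
    intro x
    refine ⟨Algebra.norm ℚ (MvPolynomial.eval (fun i => algebraMap ℚ K (x i)) (P.map (algebraMap (𝓞 K) K))), ?_⟩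
    have h1 := Algebra.norm_eq_prod_embeddings ℚ ℂ
      (MvPolynomial.eval (fun i => algebraMap ℚ K (x i)) (P.map (algebraMap (𝓞 K) K)))
    rw [eq_ratCast] at h1
    rw [h1, hPn, map_prod, ← Fintype.prod_equiv (RingHom.equivRatAlgHom K ℂ)
      (fun f => f (MvPolynomial.eval (fun i => algebraMap ℚ K (x i)) (P.map (algebraMap (𝓞 K) K))))
      (fun φ => φ (MvPolynomial.eval (fun i => algebraMap ℚ K (x i)) (P.map (algebraMap (𝓞 K) K))))
      fun _ => by simp [RingHom.equivRatAlgHom_apply]]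
    refine Finset.prod_congr rfl fun ψ _ => ?_
    rw [MvPolynomial.eval_map, MvPolynomial.eval_map, MvPolynomial.hom_eval₂]
    congr 1
    funext i
    simp
  have hrat : ∀ s, ∃ q : ℚ, Pn.coeff s = q := by
    intro s
    by_contra hcon
    have hnot : Pn.coeff s ∉ Submodule.span ℚ {(1 : ℂ)} := by
      intro hmem
      obtain ⟨q, hq⟩ := Submodule.mem_span_singleton.1 hmem
      apply hcon
      refine ⟨q, ?_⟩
      rw [← hq, Algebra.smul_def]
      simp
    obtain ⟨ℓ, hℓ1, hℓ2⟩ := Submodule.exists_le_ker_of_notMem hnot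
    have hℓ0 : ℓ 1 = 0 := hℓ2 (Submodule.mem_span_singleton_self 1)
    -- the polynomial `ℓ(Pn)`
    set L : MvPolynomial σ ℚ := ∑ s ∈ Pn.support, MvPolynomial.monomial s (ℓ (Pn.coeff s)) with hL
    have hLc : ∀ s, L.coeff s = ℓ (Pn.coeff s) := by
      intro s
      rw [hL, MvPolynomial.coeff_sum]
      simp only [MvPolynomial.coeff_monomial]
      rw [Finset.sum_ite_eq' Pn.support s]
      split_ifs with hs
      · rfl
      · rw [MvPolynomial.notMem_support_iff.1 hs, map_zero]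
    have hL0 : L = 0 := by
      refine MvPolynomial.funext fun x => ?_
      rw [map_zero]
      obtain ⟨q, hq⟩ := hval x
      have h1 : MvPolynomial.eval x L = ℓ (MvPolynomial.eval (fun i => (x i : ℂ)) Pn) := by
        rw [hL, map_sum, MvPolynomial.eval_eq, map_sum]
        refine Finset.sum_congr rfl fun s _ => ?_
        rw [MvPolynomial.eval_monomial]
        have h2 : Pn.coeff s * ∏ i ∈ s.support, ((x i : ℚ) : ℂ) ^ s i =
            (∏ i ∈ s.support, x i ^ s i) • Pn.coeff s := by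
          rw [Algebra.smul_def, mul_comm]
          simp
        rw [h2, map_smul, smul_eq_mul, mul_comm, Finsupp.prod]
      rw [h1, hq]
      have h3 : ((q : ℚ) : ℂ) = q • (1 : ℂ) := by rw [Algebra.smul_def]; simp
      rw [h3, map_smul, hℓ0, smul_zero]
    apply hℓ1
    rw [← hLc, hL0, MvPolynomial.coeff_zero]
  have hZ : ∀ s, ∃ z : ℤ, (z : ℂ) = Pn.coeff s := by
    intro s
    obtain ⟨q, hq⟩ := hrat s
    have h1 := hint s
    rw [hq] at h1
    have h2 : IsIntegral ℤ q := by
      have h3 : ((q : ℚ) : ℂ) = algebraMap ℚ ℂ q := by simp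
      rw [h3] at h1
      exact (isIntegral_algebraMap_iff (algebraMap ℚ ℂ).injective).1 h1
    obtain ⟨z, hz⟩ := IsIntegrallyClosed.isIntegral_iff.1 h2
    refine ⟨z, ?_⟩
    rw [hq, ← hz]
    simp
  have hr : Pn ∈ Set.range (MvPolynomial.map (σ := σ) (Int.castRingHom ℂ)) := by
    rw [MvPolynomial.mem_range_map_iff_coeffs_subset]
    intro c hc
    obtain ⟨s, _, rfl⟩ := MvPolynomial.mem_coeffs_iff.1 hc
    obtain ⟨z, hz⟩ := hZ s
    exact ⟨z, by simpa using hz⟩
  obtain ⟨M, hM⟩ := hr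
  exact ⟨M, hM⟩

end Pool.Agent.Y118.HP
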