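import Pool.Agent.Y118.HP.Tor
import Pool.Agent.Y118.HP.Nm

/-!
# Complex periods
-/

set_option autoImplicit false

open Matrix Polynomial MeasureTheory

namespace Pool.Agent.Y118.HP

variable {n N : ℕ}

/-- the period `∮ x^j dx / y` over a loop around the `l`-th gap, `y² = ∏ (x - e i)`: twice the integral over the gap,
with the principal branch of the square root -/
noncomputable def cper (e : Fin (n + 1) → ℝ) (l j : Fin n) : ℂ :=
  2 * ∫ x in (e l.castSucc)..(e l.succ), (x : ℂ) ^ (j : ℕ) / (((∏ i, (x - e i) : ℝ) : ℂ) ^ (1 / 2 : ℂ))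

/-- the factor -/
noncomputable def dl (l : Fin n) : ℂ := 2 * Complex.I ^ (if Even (l : ℕ) then 0 else 3)

theorem sign_even (hn : Even n) (l : Fin n) : ((-1 : ℝ)) ^ (n - (l : ℕ)) = (-1) ^ (l : ℕ) := by
  have h1 : ((-1 : ℝ)) ^ (n - (l : ℕ)) * (-1) ^ (l : ℕ) = 1 := by
    rw [← pow_add, Nat.sub_add_cancel l.2.le, hn.neg_one_pow]
  have h2 := sigma_sq (l : ℕ)
  calc ((-1 : ℝ)) ^ (n - (l : ℕ)) = (-1) ^ (n - (l : ℕ)) * ((-1) ^ (l : ℕ) * (-1) ^ (l : ℕ)) := by rw [h2, mul_one]
    _ = (-1) ^ (l : ℕ) := by rw [← mul_assoc, h1, one_mul]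

theorem cper_eq (hn : Even n) {e : Fin (n + 1) → ℝ} (he : StrictMono e) (l j : Fin n) :
    cper e l j = dl l * (per e l j : ℂ) := by
  have hint : ∫ x in (e l.castSucc)..(e l.succ), (x : ℂ) ^ (j : ℕ) / (((∏ i, (x - e i) : ℝ) : ℂ) ^ (1 / 2 : ℂ)) =
      ∫ x in (e l.castSucc)..(e l.succ), Complex.I ^ (if Even (l : ℕ) then 0 else 3) *
        ((x ^ (j : ℕ) / √|∏ i, (x - e i)| : ℝ) : ℂ) := by
    refine intervalIntegral.integral_congr fun x hx => ?_
    rw [Set.uIcc_of_le (he Fin.castSucc_lt_succ).le] at hx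
    have hs := sign_F he l hx.1 hx.2
    rw [← prod_eq_Wf e he l hx.1 hx.2, sign_even hn, FF_eval] at hs
    set F : ℝ := ∏ i, (x - e i) with hF
    push_cast
    by_cases hl : Even (l : ℕ)
    · rw [hl.neg_one_pow, one_mul] at hs
      have hF0 : 0 ≤ F := by rw [hs]; exact abs_nonneg _
      rw [if_pos hl, pow_zero, one_mul]
      have h1 : ((F : ℝ) : ℂ) ^ (1 / 2 : ℂ) = ((√|F| : ℝ) : ℂ) := by
        rw [abs_of_nonneg hF0, Real.sqrt_eq_rpow, Complex.ofReal_cpow hF0]
        push_cast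
        rfl
      rw [h1]
    · rw [(Nat.not_even_iff_odd.1 hl).neg_one_pow] at hs
      have hF0 : F ≤ 0 := by
        have := abs_nonneg F
        linarith
      rw [if_neg hl]
      have h1 : ((F : ℝ) : ℂ) ^ (1 / 2 : ℂ) = Complex.I * ((√|F| : ℝ) : ℂ) := by
        rw [Complex.ofReal_cpow_of_nonpos hF0]
        have h2 : Complex.exp ((Real.pi : ℂ) * Complex.I * (1 / 2)) = Complex.I := by
          have : (Real.pi : ℂ) * Complex.I * (1 / 2) = (Real.pi : ℂ) / 2 * Complex.I := by ring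
          rw [this, Complex.exp_pi_div_two_mul_I]
        have hF1 : 0 ≤ -F := by linarith
        rw [h2, abs_of_nonpos hF0, Real.sqrt_eq_rpow, Complex.ofReal_cpow hF1]
        push_cast
        ring
      rw [h1]
      have hI : Complex.I ^ 3 = Complex.I⁻¹ := by
        rw [pow_succ, Complex.I_sq, Complex.inv_I]; ring
      rw [hI]
      by_cases hs0 : ((√|F| : ℝ) : ℂ) = 0
      · rw [hs0]; simp
      · have := Complex.I_ne_zero
        field_simp
  unfold cper per dl
  rw [hint, intervalIntegral.integral_const_mul, intervalIntegral.integral_ofReal, mul_assoc]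

/-- the complex period matrix of `y² = f(x) (x - t)` -/
noncomputable def CM (a : Fin n → ℝ) (m : Fin (n + 1)) (t : ℝ) : Matrix (Fin n) (Fin n) ℂ :=
  Matrix.of (cper (er a m t))

theorem CM_apply (hn : Even n) {a : Fin n → ℝ} (ha : StrictMono a) {m : Fin (n + 1)} {t : ℝ} (ht : InGap a m t)
    (l j : Fin n) : CM a m t l j = dl l * ((RM a m t l j : ℝ) : ℂ) := by
  unfold CM RM perM
  rw [Matrix.of_apply, Matrix.of_apply, cper_eq hn (er_strictMono ha ht)]

theorem dl_ne (l : Fin n) : dl l ≠ 0 := by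
  unfold dl
  exact mul_ne_zero two_ne_zero (pow_ne_zero _ Complex.I_ne_zero)

/-- the product of the factors of two neighbours -/
theorem dl_mul {r s : Fin n} (h : (r : ℕ) = s + 1 ∨ (s : ℕ) = r + 1) : dl r * dl s = -4 * Complex.I := by
  have hI : Complex.I ^ 3 = -Complex.I := by
    rw [pow_succ, Complex.I_sq]; ring
  unfold dl
  by_cases hr : Even (r : ℕ)
  · have hs : ¬ Even (s : ℕ) := by
      rcases h with h | h
      · rw [h, Nat.even_add_one] at hr; exact hr
      · rw [h, Nat.even_add_one]; exact not_not.2 hr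
    rw [if_pos hr, if_neg hs, hI]; ring
  · have hs : Even (s : ℕ) := by
      rcases h with h | h
      · rw [h, Nat.even_add_one] at hr; exact not_not.1 hr
      · rw [h, Nat.even_add_one]; exact hr
    rw [if_neg hr, if_pos hs, hI]; ring

/-- rescaling the rows: from the complex normalisation to the real one -/
theorem rescale {Q X : Matrix (Fin n) (Fin n) ℂ} {lam : ℂ}
    (hX : X * ((-1 / 2 : ℂ) • Q) * X.transpose = lam • jm ℂ n) :
    (Matrix.of fun r c => (dl r)⁻¹ * X r c) * Q * (Matrix.of fun r c => (dl r)⁻¹ * X r c).transpose =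
      (lam / (2 * Complex.I)) • jm ℂ n := by
  have h1 : ∀ r s, ((Matrix.of fun r c => (dl r)⁻¹ * X r c) * Q *
      (Matrix.of fun r c => (dl r)⁻¹ * X r c).transpose) r s = (dl r)⁻¹ * (dl s)⁻¹ * (X * Q * X.transpose) r s := by
    intro r s
    simp only [Matrix.mul_apply, Matrix.transpose_apply, Matrix.of_apply, Finset.mul_sum, Finset.sum_mul]
    refine Finset.sum_congr rfl fun i _ => Finset.sum_congr rfl fun j _ => ?_
    ring
  have h2 : X * Q * X.transpose = (-2 * lam) • jm ℂ n := by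
    have h3 : X * ((-1 / 2 : ℂ) • Q) * X.transpose = (-1 / 2 : ℂ) • (X * Q * X.transpose) := by
      rw [Matrix.mul_smul, Matrix.smul_mul]
    rw [h3] at hX
    calc X * Q * X.transpose = (-2 : ℂ) • ((-1 / 2 : ℂ) • (X * Q * X.transpose)) := by
          rw [smul_smul]; norm_num
      _ = (-2 * lam) • jm ℂ n := by rw [hX, smul_smul]
  ext r s
  rw [h1, h2, Matrix.smul_apply, Matrix.smul_apply, jm_apply, smul_eq_mul, smul_eq_mul]
  by_cases h : (r : ℕ) = s + 1 ∨ (s : ℕ) = r + 1
  · rw [if_pos h, ← mul_inv, dl_mul h]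
    have := Complex.I_ne_zero
    field_simp
    ring
  · rw [if_neg h, mul_zero, mul_zero, mul_zero]

/-- the real and imaginary part of `i^k` -/
def reI (k : ℕ) : ℤ := if k % 4 = 0 then 1 else if k % 4 = 2 then -1 else 0

def imI (k : ℕ) : ℤ := if k % 4 = 1 then 1 else if k % 4 = 3 then -1 else 0

theorem I_pow (k : ℕ) : Complex.I ^ k = (reI k : ℂ) + Complex.I * (imI k : ℂ) := by
  rw [← Nat.div_add_mod k 4, pow_add, pow_mul, Complex.I_pow_four, one_pow, one_mul]
  have h : (4 * (k / 4) + k % 4) % 4 = k % 4 := by omega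
  unfold reI imI
  rw [h]
  have h4 : k % 4 < 4 := Nat.mod_lt _ (by norm_num)
  interval_cases (k % 4)
  · simp
  · simp
  · simp
  · simp [pow_succ]

theorem abs_reI (k : ℕ) : |reI k| ≤ 1 := by unfold reI; split_ifs <;> simp

theorem abs_imI (k : ℕ) : |imI k| ≤ 1 := by unfold imI; split_ifs <;> simp

/-- the exponents of `i` -/
def uo (o : Option (Fin N × Fin n × Fin n)) : ℕ := o.elim 1 fun x => if Even (x.2.1 : ℕ) then 0 else 3

/-- rescaling of the variables of a polynomial, `c` the real or imaginary part -/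
noncomputable def Mre (c : ℕ → ℤ) (M : MvPolynomial (Option (Fin N × Fin n × Fin n)) ℤ) :
    MvPolynomial (Option (Fin N × Fin n × Fin n)) ℤ :=
  ∑ s ∈ M.support, MvPolynomial.monomial s (M.coeff s * (2 ^ (∑ o, s o) * c (∑ o, uo o * s o)))

theorem Mre_coeff (c : ℕ → ℤ) (M : MvPolynomial (Option (Fin N × Fin n × Fin n)) ℤ)
    (s : Option (Fin N × Fin n × Fin n) →₀ ℕ) :
    (Mre c M).coeff s = M.coeff s * (2 ^ (∑ o, s o) * c (∑ o, uo o * s o)) := by
  classical
  unfold Mre
  rw [MvPolynomial.coeff_sum]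
  simp only [MvPolynomial.coeff_monomial]
  rw [Finset.sum_ite_eq' M.support s]
  split_ifs with hs
  · rfl
  · rw [MvPolynomial.notMem_support_iff.1 hs, zero_mul]

theorem Mre_totalDegree (c : ℕ → ℤ) (M : MvPolynomial (Option (Fin N × Fin n × Fin n)) ℤ) :
    (Mre c M).totalDegree ≤ M.totalDegree := by
  refine MvPolynomial.totalDegree_le_of_support_subset ?_
  intro s hs
  rw [MvPolynomial.mem_support_iff, Mre_coeff] at hs
  rw [MvPolynomial.mem_support_iff]
  exact left_ne_zero_of_mul hs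

theorem Mre_eval (M : MvPolynomial (Option (Fin N × Fin n × Fin n)) ℤ)
    (y : Option (Fin N × Fin n × Fin n) → ℂ) :
    MvPolynomial.aeval (fun o => 2 * Complex.I ^ uo o * y o) M =
      MvPolynomial.aeval y (Mre reI M) + Complex.I * MvPolynomial.aeval y (Mre imI M) := by
  have h1 : ∀ c : ℕ → ℤ, MvPolynomial.aeval y (Mre c M) = ∑ s ∈ M.support,
      ((M.coeff s : ℤ) : ℂ) * (2 ^ (∑ o, s o) * ((c (∑ o, uo o * s o) : ℤ) : ℂ)) * ∏ o, y o ^ s o := by
    intro c
    unfold Mre
    rw [map_sum]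
    refine Finset.sum_congr rfl fun s _ => ?_
    rw [MvPolynomial.aeval_monomial, Finsupp.prod_fintype _ _ (fun o => pow_zero _)]
    simp
  rw [h1, h1, MvPolynomial.aeval_def, MvPolynomial.eval₂_eq', Finset.mul_sum, ← Finset.sum_add_distrib]
  refine Finset.sum_congr rfl fun s _ => ?_
  have h2 : ∏ o, (2 * Complex.I ^ uo o * y o) ^ s o =
      2 ^ (∑ o, s o) * Complex.I ^ (∑ o, uo (N := N) (n := n) o * s o) * ∏ o, y o ^ s o := by
    rw [← Finset.prod_pow_eq_pow_sum, ← Finset.prod_pow_eq_pow_sum, ← Finset.prod_mul_distrib,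
      ← Finset.prod_mul_distrib]
    refine Finset.prod_congr rfl fun o _ => ?_
    rw [mul_pow, mul_pow, pow_mul]
  rw [h2, I_pow]
  simp only [algebraMap_int_eq, eq_intCast]
  ring

end Pool.Agent.Y118.HP
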