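import Mathlib

/-!
# Periods of hyperelliptic curves: definitions

`F(x) = ∏ (x - e i)`, `e 0 < e 1 < … < e n`, `n = 2 g`. The integrals of `x^j dx / √|F(x)|` over the gaps
`(e l, e (l + 1))` are, up to factors `2`, `2 i`, the periods of the curve `y² = F(x)`.
-/

set_option autoImplicit false

open Polynomial

namespace Pool.Agent.Y118.HP

/-- the integral of `x^j dx / √|F(x)|` over the `l`-th gap, `F(x) = ∏ (x - e i)` -/
noncomputable def per {n : ℕ} (e : Fin (n + 1) → ℝ) (l j : Fin n) : ℝ :=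
  ∫ x in (e l.castSucc)..(e l.succ), x ^ (j : ℕ) / √|∏ i, (x - e i)|

/-- the period matrix: rows are gaps, columns are differential forms -/
noncomputable def perM {n : ℕ} (e : Fin (n + 1) → ℝ) : Matrix (Fin n) (Fin n) ℝ := Matrix.of (per e)

/-- the matrix of the Riemann-Legendre relations, with entries `(i - j)/2 * c_(i+j+2)`, `F = ∑ c_k x^k` -/
noncomputable def qm {K : Type*} [Field K] (n : ℕ) (F : K[X]) : Matrix (Fin n) (Fin n) K :=
  Matrix.of fun i j => (((i : ℕ) : K) - ((j : ℕ) : K)) / 2 * F.coeff ((i : ℕ) + (j : ℕ) + 2)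

/-- the intersection matrix: `-(-1)^r` at `(r, s)` with `|r - s| = 1`, `0` elsewhere -/
def jm (K : Type*) [Ring K] (n : ℕ) : Matrix (Fin n) (Fin n) K :=
  Matrix.of fun r s => if (r : ℕ) = s + 1 ∨ (s : ℕ) = r + 1 then -(-1) ^ (r : ℕ) else 0

end Pool.Agent.Y118.HP
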