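import Pool.Agent.Y118.HP.Real

/-!
# The Riemann-Legendre relations, I: a polynomial identity
-/

set_option autoImplicit false

open Polynomial

namespace Pool.Agent.Y118.HP

theorem SS_identity (s : ℕ) (z x : ℝ) :
    (z - x) ^ 2 * ∑ i ∈ Finset.range (s + 1), ((2 * (i : ℝ) - s) / 2) * (z ^ i * x ^ (s - i)) =
      (z - x) * ((s + 2) * (x ^ (s + 1) + z ^ (s + 1))) / 2 - (z ^ (s + 2) - x ^ (s + 2)) := by
  induction s with
  | zero => simp; ring
  | succ s ih =>
    have hG : (∑ i ∈ Finset.range (s + 1), z ^ i * x ^ (s - i)) * (z - x) = z ^ (s + 1) - x ^ (s + 1) := by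
      have := geom_sum₂_mul z x (s + 1)
      simpa using this
    have h1 : ∑ i ∈ Finset.range (s + 1 + 1), ((2 * (i : ℝ) - ((s + 1 : ℕ) : ℝ)) / 2) * (z ^ i * x ^ (s + 1 - i)) =
        x * ∑ i ∈ Finset.range (s + 1), ((2 * (i : ℝ) - s) / 2) * (z ^ i * x ^ (s - i)) -
          x / 2 * ∑ i ∈ Finset.range (s + 1), z ^ i * x ^ (s - i) + (s + 1) / 2 * z ^ (s + 1) := by
      rw [Finset.sum_range_succ, Finset.mul_sum, Finset.mul_sum, ← Finset.sum_sub_distrib]
      congr 1
      · refine Finset.sum_congr rfl fun i hi => ?_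
        have : s + 1 - i = (s - i) + 1 := by have := Finset.mem_range.1 hi; omega
        rw [this, pow_succ]; push_cast; ring
      · rw [Nat.sub_self, pow_zero]; push_cast; ring
    rw [h1]
    push_cast
    linear_combination x * ih - x / 2 * (z - x) * hG

/-- the bilinear form of the Legendre relation -/
noncomputable def QQ (n : ℕ) (F : ℝ[X]) (z x : ℝ) : ℝ :=
  ∑ i : Fin n, ∑ j : Fin n, z ^ (i : ℕ) * qm n F i j * x ^ (j : ℕ)

theorem QQ_monomial {n k : ℕ} (hk : k ≤ n + 1) (r z x : ℝ) :
    (z - x) ^ 2 * QQ n (C r * X ^ k) z x =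
      (z - x) * (derivative (C r * X ^ k : ℝ[X])).eval x / 2 + (z - x) * (derivative (C r * X ^ k : ℝ[X])).eval z / 2 -
        ((C r * X ^ k : ℝ[X]).eval z - (C r * X ^ k : ℝ[X]).eval x) := by
  unfold QQ qm
  simp only [Matrix.of_apply, coeff_C_mul_X_pow]
  rcases Nat.lt_or_ge k 2 with h | h
  · have h0 : ∀ i j : Fin n, z ^ (i : ℕ) * ((((i : ℕ) : ℝ) - ((j : ℕ) : ℝ)) / 2 *
        (if (i : ℕ) + (j : ℕ) + 2 = k then r else 0)) * x ^ (j : ℕ) = 0 := by
      intro i j
      rw [if_neg (by omega)]; ring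
    simp only [h0, Finset.sum_const_zero, mul_zero]
    interval_cases k
    · simp
    · simp; ring
  · obtain ⟨s, rfl⟩ : ∃ s, k = s + 2 := ⟨k - 2, by omega⟩
    have hs : s < n := by omega
    have h1 : ∑ i : Fin n, ∑ j : Fin n, z ^ (i : ℕ) * ((((i : ℕ) : ℝ) - ((j : ℕ) : ℝ)) / 2 *
        (if (i : ℕ) + (j : ℕ) + 2 = s + 2 then r else 0)) * x ^ (j : ℕ) =
        r * ∑ i ∈ Finset.range (s + 1), ((2 * (i : ℝ) - s) / 2) * (z ^ i * x ^ (s - i)) := by
      have h2 : ∀ i : Fin n, ∑ j : Fin n, z ^ (i : ℕ) * ((((i : ℕ) : ℝ) - ((j : ℕ) : ℝ)) / 2 *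
          (if (i : ℕ) + (j : ℕ) + 2 = s + 2 then r else 0)) * x ^ (j : ℕ) =
          if (i : ℕ) < s + 1 then r * (((2 * ((i : ℕ) : ℝ) - s) / 2) * (z ^ (i : ℕ) * x ^ (s - (i : ℕ)))) else 0 := by
        intro i
        by_cases hi : (i : ℕ) < s + 1
        · rw [if_pos hi, Finset.sum_eq_single (⟨s - (i : ℕ), by omega⟩ : Fin n)]
          · rw [if_pos (by simp only; omega)]
            simp only
            rw [Nat.cast_sub (by omega)]
            ring
          · intro j _ hj
            rw [if_neg]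
            · ring
            · intro h3
              apply hj
              ext
              simp only
              omega
          · simp
        · rw [if_neg hi]
          refine Finset.sum_eq_zero fun j _ => ?_
          rw [if_neg (by omega)]
          ring
      simp only [h2]
      rw [Fin.sum_univ_eq_sum_range (fun i => if i < s + 1 then
        r * (((2 * (i : ℝ) - s) / 2) * (z ^ i * x ^ (s - i))) else 0) n, Finset.mul_sum]
      rw [← Finset.sum_filter]
      refine Finset.sum_congr ?_ fun _ _ => rfl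
      ext i
      simp only [Finset.mem_filter, Finset.mem_range]
      omega
    rw [h1]
    have h3 := SS_identity s z x
    simp only [derivative_C_mul_X_pow, eval_mul, eval_C, eval_pow, eval_X]
    have h4 : s + 2 - 1 = s + 1 := rfl
    rw [h4]
    push_cast
    linear_combination r * h3

theorem QQ_add {n : ℕ} (F G : ℝ[X]) (z x : ℝ) : QQ n (F + G) z x = QQ n F z x + QQ n G z x := by
  unfold QQ
  rw [← Finset.sum_add_distrib]
  refine Finset.sum_congr rfl fun i _ => ?_
  rw [← Finset.sum_add_distrib]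
  refine Finset.sum_congr rfl fun j _ => ?_
  unfold qm
  simp only [Matrix.of_apply, coeff_add]
  ring

theorem QQ_identity {n : ℕ} (F : ℝ[X]) (hF : F.natDegree ≤ n + 1) (z x : ℝ) :
    (z - x) ^ 2 * QQ n F z x =
      (z - x) * (derivative F).eval x / 2 + (z - x) * (derivative F).eval z / 2 - (F.eval z - F.eval x) := by
  refine Polynomial.induction_with_natDegree_le (fun F => (z - x) ^ 2 * QQ n F z x =
      (z - x) * (derivative F).eval x / 2 + (z - x) * (derivative F).eval z / 2 - (F.eval z - F.eval x))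
      (n + 1) ?_ ?_ ?_ F hF
  · have := QQ_monomial (n := n) (k := 0) (by omega) 0 z x
    simpa using this
  · intro k r _ hk
    exact QQ_monomial hk r z x
  · intro f g _ _ hf hg
    simp only [QQ_add, derivative_add, eval_add]
    linear_combination hf + hg

end Pool.Agent.Y118.HP
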