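import Pool.Agent.Y118.HP.LegA

/-!
# The Riemann-Legendre relations, II: a differential equation
-/

set_option autoImplicit false

open Set MeasureTheory Filter Topology Polynomial

namespace Pool.Agent.Y118.HP

variable {n : ℕ}

noncomputable def FF (e : Fin (n + 1) → ℝ) : ℝ[X] := ∏ i, (X - C (e i))

theorem FF_eval (e : Fin (n + 1) → ℝ) (x : ℝ) : (FF e).eval x = ∏ i, (x - e i) := by
  unfold FF
  rw [eval_prod]
  simp

theorem FF_natDegree (e : Fin (n + 1) → ℝ) : (FF e).natDegree ≤ n + 1 := by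
  unfold FF
  rw [natDegree_finsetProd_X_sub_C_eq_card]
  simp

/-- the sign of `F` on the gap -/
theorem sign_F {e : Fin (n + 1) → ℝ} (he : StrictMono e) (l : Fin n) {x : ℝ}
    (h1 : e l.castSucc ≤ x) (h2 : x ≤ e l.succ) :
    (-1) ^ (n - (l : ℕ)) * (FF e).eval x = (x - e l.castSucc) * (e l.succ - x) * Wf e l x := by
  classical
  rw [← prod_eq_Wf e he l h1 h2, FF_eval, Finset.abs_prod]
  have hc : ((-1 : ℝ)) ^ (n - (l : ℕ)) = ∏ i : Fin (n + 1), if l.castSucc < i then (-1 : ℝ) else 1 := by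
    rw [Finset.prod_ite, Finset.prod_const, Finset.prod_const_one, mul_one]
    congr 1
    have : (Finset.univ.filter fun i : Fin (n + 1) => l.castSucc < i) = Finset.Ioi l.castSucc := by
      ext i; simp
    rw [this, Fin.card_Ioi]
    simp
  rw [hc, ← Finset.prod_mul_distrib]
  refine Finset.prod_congr rfl fun i _ => ?_
  by_cases h : l.castSucc < i
  · have h' : l.succ ≤ i := by
      rw [Fin.le_def]; rw [Fin.lt_def] at h; simp at h ⊢; omega
    have := he.monotone h'
    rw [if_pos h, abs_of_nonpos (by linarith)]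
    ring
  · have := he.monotone (not_lt.1 h)
    rw [if_neg h, abs_of_nonneg (by linarith)]
    ring

theorem sigma_sq (k : ℕ) : ((-1 : ℝ) ^ k) * (-1) ^ k = 1 := by
  rw [← mul_pow]; norm_num

/-- the integral of `1/((z-x) y)` over the gap, as a function of `z` -/
noncomputable def HH (e : Fin (n + 1) → ℝ) (l : Fin n) (z : ℝ) : ℝ :=
  ∫ θ in (0 : ℝ)..(Real.pi / 2), 2 / √(Wf e l (xs e l θ)) * (z - xs e l θ)⁻¹

noncomputable def HH' (e : Fin (n + 1) → ℝ) (l : Fin n) (z : ℝ) : ℝ :=
  ∫ θ in (0 : ℝ)..(Real.pi / 2), 2 / √(Wf e l (xs e l θ)) * (-(z - xs e l θ)⁻¹ ^ 2)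

theorem continuous_psi {e : Fin (n + 1) → ℝ} (he : StrictMono e) (l : Fin n) :
    Continuous fun θ => 2 / √(Wf e l (xs e l θ)) := by
  refine continuous_const.div (Real.continuous_sqrt.comp ((continuous_Wf e l).comp (continuous_xs e l))) ?_
  intro θ
  exact (Real.sqrt_pos.2 (Wf_pos he (xs_mem he l θ).1 (xs_mem he l θ).2)).ne'

theorem hasDerivAt_HH {e : Fin (n + 1) → ℝ} (he : StrictMono e) (l : Fin n) {z : ℝ} (hz : e l.succ < z) :
    HasDerivAt (HH e l) (HH' e l z) z := by
  have hpsi := continuous_psi he l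
  set δ := (z - e l.succ) / 2 with hδ
  have hδ0 : 0 < δ := by rw [hδ]; linarith
  have hlow : ∀ w ∈ Ioi (e l.succ + δ), ∀ θ, δ < w - xs e l θ := by
    intro w hw θ
    have := (xs_mem he l θ).2
    have : e l.succ + δ < w := hw
    linarith
  have hcont : ∀ w ∈ Ioi (e l.succ + δ), Continuous fun θ => (w - xs e l θ)⁻¹ := by
    intro w hw
    exact (continuous_const.sub (continuous_xs e l)).inv₀ fun θ => (hδ0.trans (hlow w hw θ)).ne'
  have hzmem : z ∈ Ioi (e l.succ + δ) := by
    simp only [mem_Ioi]; rw [hδ]; linarith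
  refine (intervalIntegral.hasDerivAt_integral_of_dominated_loc_of_deriv_le
    (F := fun w θ => 2 / √(Wf e l (xs e l θ)) * (w - xs e l θ)⁻¹)
    (F' := fun w θ => 2 / √(Wf e l (xs e l θ)) * (-(w - xs e l θ)⁻¹ ^ 2))
    (s := Ioi (e l.succ + δ)) (bound := fun θ => 2 / √(Wf e l (xs e l θ)) * (δ⁻¹ ^ 2))
    (Ioi_mem_nhds hzmem) ?_ ?_ ?_ ?_ ?_ ?_).2
  · filter_upwards [Ioi_mem_nhds hzmem] with w hw
    exact (hpsi.mul (hcont w hw)).aestronglyMeasurable
  · exact (hpsi.mul (hcont z hzmem)).intervalIntegrable _ _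
  · exact (hpsi.mul (((hcont z hzmem).pow 2).neg)).aestronglyMeasurable
  · refine Eventually.of_forall fun θ _ w hw => ?_
    have h1 := hlow w hw θ
    have h2 : 0 < 2 / √(Wf e l (xs e l θ)) := by
      have := Real.sqrt_pos.2 (Wf_pos he (xs_mem he l θ).1 (xs_mem he l θ).2)
      positivity
    rw [norm_mul, norm_neg, norm_pow, Real.norm_of_nonneg h2.le, norm_inv,
      Real.norm_of_nonneg (hδ0.trans h1).le]
    refine mul_le_mul_of_nonneg_left ?_ h2.le
    have h3 : (w - xs e l θ)⁻¹ ≤ δ⁻¹ := inv_anti₀ hδ0 h1.le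
    exact pow_le_pow_left₀ (inv_nonneg.2 (hδ0.trans h1).le) h3 2
  · exact (hpsi.mul continuous_const).intervalIntegrable _ _
  · refine Eventually.of_forall fun θ _ w hw => ?_
    have h1 := (hδ0.trans (hlow w hw θ)).ne'
    have h2 := ((hasDerivAt_id w).sub_const (xs e l θ)).inv h1
    refine HasDerivAt.const_mul _ (h2.congr_deriv ?_)
    simp only [id]
    rw [inv_pow]
    ring

theorem exact_alg (σ D w s L a b : ℝ) (hσ2 : σ * σ = 1) (hw : w ≠ 0) (hs : s ≠ 0) (hL : L ≠ 0) (ha : a ≠ 0)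
    (hb : b ≠ 0) : σ * (D * (L * (2 * a * b))) / (2 * (L * (a * b) * s)) * w⁻¹ +
      (L * (a * b) * s) * (-(-(L * (2 * a * b))) / w ^ 2) =
      σ * (2 / s * ((D * w / 2 + σ * ((L * (a * b)) ^ 2 * s ^ 2)) * w⁻¹ ^ 2)) := by
  field_simp
  linear_combination (-2 * L ^ 2 * s ^ 2 * a ^ 2 * b ^ 2) * hσ2

/-- the integral of an exact differential -/
theorem exact_int {e : Fin (n + 1) → ℝ} (he : StrictMono e) (l : Fin n) {z : ℝ} (hz : e l.succ < z) :
    ∫ θ in (0 : ℝ)..(Real.pi / 2), 2 / √(Wf e l (xs e l θ)) *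
      (((derivative (FF e)).eval (xs e l θ) * (z - xs e l θ) / 2 + (FF e).eval (xs e l θ)) *
        (z - xs e l θ)⁻¹ ^ 2) = 0 := by
  have hL := len_pos he l
  have hp : 0 < Real.pi := Real.pi_pos
  set σ : ℝ := (-1) ^ (n - (l : ℕ)) with hσ
  have hσ2 : σ * σ = 1 := sigma_sq _
  have hσ0 : σ ≠ 0 := by intro h; rw [h] at hσ2; simp at hσ2
  have hne : ∀ θ, z - xs e l θ ≠ 0 := fun θ => by have := (xs_mem he l θ).2; linarith
  have hinv : Continuous fun θ => (z - xs e l θ)⁻¹ :=
    (continuous_const.sub (continuous_xs e l)).inv₀ hne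
  have hF : ∀ θ, σ * (FF e).eval (xs e l θ) =
      ((e l.succ - e l.castSucc) * (Real.sin θ * Real.cos θ)) ^ 2 * Wf e l (xs e l θ) := by
    intro θ
    rw [hσ, sign_F he l (xs_mem he l θ).1 (xs_mem he l θ).2, xs_sub]
  set G : ℝ → ℝ := fun θ => √(σ * (FF e).eval (xs e l θ)) * (z - xs e l θ)⁻¹ with hG
  have hGc : Continuous G := by
    refine (Real.continuous_sqrt.comp (continuous_const.mul ?_)).mul hinv
    exact (FF e).continuous.comp (continuous_xs e l)
  have hderiv : ∀ θ ∈ Ioo (0 : ℝ) (Real.pi / 2), HasDerivAt G (σ * (2 / √(Wf e l (xs e l θ)) *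
      (((derivative (FF e)).eval (xs e l θ) * (z - xs e l θ) / 2 + (FF e).eval (xs e l θ)) *
        (z - xs e l θ)⁻¹ ^ 2))) θ := by
    intro θ hθ
    have s1 : 0 < Real.sin θ := Real.sin_pos_of_pos_of_lt_pi hθ.1 (by linarith [hθ.2])
    have c1 : 0 < Real.cos θ := Real.cos_pos_of_mem_Ioo ⟨by linarith [hθ.1], hθ.2⟩
    have hW := Wf_pos he (xs_mem he l θ).1 (xs_mem he l θ).2
    have hWs := Real.sqrt_pos.2 hW
    have hx := hasDerivAt_xs e l θ
    have hpos : 0 < σ * (FF e).eval (xs e l θ) := by rw [hF]; positivity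
    have hsq : √(σ * (FF e).eval (xs e l θ)) =
        (e l.succ - e l.castSucc) * (Real.sin θ * Real.cos θ) * √(Wf e l (xs e l θ)) := by
      rw [hF, Real.sqrt_mul (sq_nonneg _), Real.sqrt_sq (by positivity)]
    have h1 : HasDerivAt (fun θ => (FF e).eval (xs e l θ)) ((derivative (FF e)).eval (xs e l θ) *
        ((e l.succ - e l.castSucc) * (2 * Real.sin θ * Real.cos θ))) θ :=
      ((FF e).hasDerivAt _).comp θ hx
    have h2 := ((h1.const_mul σ).sqrt hpos.ne').mul ((hx.const_sub z).inv (hne θ))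
    refine h2.congr_deriv ?_
    have hFe : (FF e).eval (xs e l θ) = σ * (((e l.succ - e l.castSucc) * (Real.sin θ * Real.cos θ)) ^ 2 *
        Wf e l (xs e l θ)) := by
      rw [← hF, ← mul_assoc, hσ2, one_mul]
    have hWW : √(Wf e l (xs e l θ)) ^ 2 = Wf e l (xs e l θ) := Real.sq_sqrt hW.le
    have h3 := exact_alg σ ((derivative (FF e)).eval (xs e l θ)) (z - xs e l θ) (√(Wf e l (xs e l θ)))
      (e l.succ - e l.castSucc) (Real.sin θ) (Real.cos θ) hσ2 (hne θ) hWs.ne' hL.ne' s1.ne' c1.ne'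
    rw [hWW, ← hFe] at h3
    rw [hsq, Pi.inv_apply]
    exact h3
  have hint : Continuous fun θ => 2 / √(Wf e l (xs e l θ)) *
      (((derivative (FF e)).eval (xs e l θ) * (z - xs e l θ) / 2 + (FF e).eval (xs e l θ)) *
        (z - xs e l θ)⁻¹ ^ 2) := by
    refine (continuous_psi he l).mul (Continuous.mul (Continuous.add ?_ ?_) (hinv.pow 2))
    · exact (((derivative (FF e)).continuous.comp (continuous_xs e l)).mul
        (continuous_const.sub (continuous_xs e l))).div_const 2
    · exact (FF e).continuous.comp (continuous_xs e l)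
  have key := intervalIntegral.integral_eq_sub_of_hasDerivAt_of_le (by positivity : (0 : ℝ) ≤ Real.pi / 2)
    hGc.continuousOn hderiv ((continuous_const.mul hint).intervalIntegrable _ _)
  rw [intervalIntegral.integral_const_mul] at key
  have hG0 : G 0 = 0 := by
    simp only [hG]
    rw [hF]; simp
  have hG1 : G (Real.pi / 2) = 0 := by
    simp only [hG]
    rw [hF]; simp
  rw [hG0, hG1, sub_zero] at key
  exact (mul_eq_zero.1 key).resolve_left hσ0

/-- the differential equation -/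
theorem ode_HH {e : Fin (n + 1) → ℝ} (he : StrictMono e) (l : Fin n) {z : ℝ} (hz : e l.succ < z) :
    (FF e).eval z * HH' e l z + (derivative (FF e)).eval z / 2 * HH e l z =
      ∑ i : Fin n, ∑ j : Fin n, z ^ (i : ℕ) * qm n (FF e) i j * perT e l (j : ℕ) := by
  have hne : ∀ θ, z - xs e l θ ≠ 0 := fun θ => by have := (xs_mem he l θ).2; linarith
  have hinv : Continuous fun θ => (z - xs e l θ)⁻¹ :=
    (continuous_const.sub (continuous_xs e l)).inv₀ hne
  have hpsi := continuous_psi he l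
  have hpoly : ∀ P : ℝ[X], Continuous fun θ => P.eval (xs e l θ) := fun P =>
    P.continuous.comp (continuous_xs e l)
  have h1 : ∫ θ in (0 : ℝ)..(Real.pi / 2), ((FF e).eval z * (2 / √(Wf e l (xs e l θ)) * (-(z - xs e l θ)⁻¹ ^ 2)) +
      (derivative (FF e)).eval z / 2 * (2 / √(Wf e l (xs e l θ)) * (z - xs e l θ)⁻¹) +
      2 / √(Wf e l (xs e l θ)) *
      (((derivative (FF e)).eval (xs e l θ) * (z - xs e l θ) / 2 + (FF e).eval (xs e l θ)) *
        (z - xs e l θ)⁻¹ ^ 2)) =
      (FF e).eval z * HH' e l z + (derivative (FF e)).eval z / 2 * HH e l z := by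
    rw [intervalIntegral.integral_add, intervalIntegral.integral_add, intervalIntegral.integral_const_mul,
      intervalIntegral.integral_const_mul, exact_int he l hz, add_zero]
    · rfl
    · exact (continuous_const.mul (hpsi.mul (hinv.pow 2).neg)).intervalIntegrable _ _
    · exact (continuous_const.mul (hpsi.mul hinv)).intervalIntegrable _ _
    · exact ((continuous_const.mul (hpsi.mul (hinv.pow 2).neg)).add
        (continuous_const.mul (hpsi.mul hinv))).intervalIntegrable _ _
    · refine Continuous.intervalIntegrable (hpsi.mul (Continuous.mul (Continuous.add ?_ (hpoly _)) (hinv.pow 2))) _ _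
      exact ((hpoly _).mul (continuous_const.sub (continuous_xs e l))).div_const 2
  rw [← h1]
  have h2 : ∀ θ, ((FF e).eval z * (2 / √(Wf e l (xs e l θ)) * (-(z - xs e l θ)⁻¹ ^ 2)) +
      (derivative (FF e)).eval z / 2 * (2 / √(Wf e l (xs e l θ)) * (z - xs e l θ)⁻¹) +
      2 / √(Wf e l (xs e l θ)) *
      (((derivative (FF e)).eval (xs e l θ) * (z - xs e l θ) / 2 + (FF e).eval (xs e l θ)) *
        (z - xs e l θ)⁻¹ ^ 2)) =
      ∑ i : Fin n, ∑ j : Fin n, z ^ (i : ℕ) * qm n (FF e) i j *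
        (2 * (xs e l θ ^ (j : ℕ) / √(Wf e l (xs e l θ)))) := by
    intro θ
    have h3 := QQ_identity (n := n) (FF e) (FF_natDegree e) z (xs e l θ)
    have h4 : ∑ i : Fin n, ∑ j : Fin n, z ^ (i : ℕ) * qm n (FF e) i j *
        (2 * (xs e l θ ^ (j : ℕ) / √(Wf e l (xs e l θ)))) = 2 / √(Wf e l (xs e l θ)) * QQ n (FF e) z (xs e l θ) := by
      unfold QQ
      rw [Finset.mul_sum]
      refine Finset.sum_congr rfl fun i _ => ?_
      rw [Finset.mul_sum]
      refine Finset.sum_congr rfl fun j _ => ?_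
      ring
    rw [h4]
    have hw := hne θ
    have h5 : QQ n (FF e) z (xs e l θ) = ((z - xs e l θ) * (derivative (FF e)).eval (xs e l θ) / 2 +
        (z - xs e l θ) * (derivative (FF e)).eval z / 2 - ((FF e).eval z - (FF e).eval (xs e l θ))) *
        (z - xs e l θ)⁻¹ ^ 2 := by
      rw [← h3]
      field_simp
    rw [h5]
    field_simp
    ring
  rw [intervalIntegral.integral_congr fun θ _ => h2 θ, intervalIntegral.integral_finsetSum]
  · refine Finset.sum_congr rfl fun i _ => ?_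
    rw [intervalIntegral.integral_finsetSum]
    · refine Finset.sum_congr rfl fun j _ => ?_
      rw [intervalIntegral.integral_const_mul]
      rfl
    · intro j _
      refine Continuous.intervalIntegrable (continuous_const.mul ?_) _ _
      have : (fun θ => 2 * (xs e l θ ^ (j : ℕ) / √(Wf e l (xs e l θ)))) =
          fun θ => xs e l θ ^ (j : ℕ) * (2 / √(Wf e l (xs e l θ))) := by funext θ; ring
      rw [this]
      exact ((continuous_xs e l).pow _).mul hpsi
  · intro i _
    refine Continuous.intervalIntegrable (continuous_finsetSum _ fun j _ => continuous_const.mul ?_) _ _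
    have : (fun θ => 2 * (xs e l θ ^ (j : ℕ) / √(Wf e l (xs e l θ)))) =
        fun θ => xs e l θ ^ (j : ℕ) * (2 / √(Wf e l (xs e l θ))) := by funext θ; ring
    rw [this]
    exact ((continuous_xs e l).pow _).mul hpsi

end Pool.Agent.Y118.HP
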