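import Pool.Agent.Y118.HP.Alg7

/-!
# Relations between the real-normalised periods of almost all tuples of hyperelliptic curves
-/

set_option autoImplicit false

open Matrix Polynomial Pool.Agent.TH818.AP

namespace Pool.Agent.Y118.HP

variable {n N : ℕ}

theorem pt_map {K L : Type*} (φ : K → L) (X : Fin N → Matrix (Fin n) (Fin n) K) (lam : K) :
    (fun o => φ (pt X lam o)) = pt (fun j => (X j).map φ) (φ lam) := by
  funext o
  rcases o with _ | x
  · rfl
  · rfl

theorem gf_cast {a : Fin n → ℝ} {m : Fin (n + 1)} (c : ℚ[X]) (V : Matrix (Fin n) (Fin n) ℚ[X])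
    (s : Fin n × Fin n → ℕ) (t : ℚ) :
    ((gf a m c V s (t : ℝ) : ℝ) : ℂ) = aeval (t : ℂ) c *
      mnm ((RM a m (t : ℝ)).map (algebraMap ℝ ℂ) * V.map (aeval (t : ℂ))) s := by
  have h1 : ((t : ℚ) : ℂ) = (((t : ℚ) : ℝ) : ℂ) := by simp
  rw [h1, map_aeval_real, ← Matrix.map_mul, mnm_map]
  unfold gf
  rw [Complex.ofReal_mul]
  congr 1
  have := Polynomial.aeval_algebraMap_apply ℂ ((t : ℚ) : ℝ) c
  simpa using this.symm

set_option maxHeartbeats 1000000 in
theorem real_main (hn : Even n) (hN : 1 ≤ N) (a : Fin N → Fin n → ℝ) (ha : ∀ j, StrictMono (a j))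
    (m : Fin N → Fin (n + 1)) (f : Fin N → ℚ[X]) (hf : ∀ j, (f j).map (algebraMap ℚ ℝ) = ∏ i, (X - C (a j i)))
    (α β : Fin N → ℝ) (hαβ : ∀ j, α j < β j) (hgap : ∀ j, ∀ t ∈ Set.Icc (α j) (β j), InGap (a j) (m j) t)
    (D : ℕ) (A : ℝ) (hA : 0 ≤ A) :
    ∃ γ B C : ℝ, 0 < γ ∧ γ < 2 ∧ ∀ T : ℝ, 1 ≤ T → ∃ S : Set (Fin N → ℚ), S.Finite ∧
      (S.ncard : ℝ) ≤ C * T ^ (2 * ((N : ℝ) - 1) + γ) ∧
      ∀ t : Fin N → ℚ, (∀ j, (t j : ℝ) ∈ Set.Icc (α j) (β j) ∧ ((t j).den : ℝ) ≤ T) → t ∉ S →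
      ∀ P : MvPolynomial (Option (Fin N × Fin n × Fin n)) ℤ, P.totalDegree ≤ D →
        (∀ s, |((P.coeff s : ℤ) : ℝ)| ≤ T ^ A) →
        |MvPolynomial.aeval (pt (fun j => RM (a j) (m j) (t j : ℝ)) Real.pi) P| ≤ T ^ (-B) →
        ∀ (X : Fin N → Matrix (Fin n) (Fin n) ℂ) (lam : ℂ), lam ≠ 0 →
          (∀ j, X j * (Qp n (f j)).map (aeval (t j : ℂ)) * (X j).transpose = lam • jm ℂ n) →
          MvPolynomial.aeval (pt X lam) P = 0 := by
  classical
  obtain ⟨κ, hfin, b, w, hne, hbD, hw1, hw2, hb5⟩ := exists_basis hn D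
  choose c U V hc hUV hVU hVJ using fun j => exists_triv hn (f j) (Qp_det_ne hn (ha j) (f j) (hf j))
  have hbD1 : ∀ k, dg (b k) ≤ n * n * D + D := by
    intro k
    have h1 : dg (b k) ≤ ∑ _x : Fin n × Fin n, D := Finset.sum_le_sum fun x _ => hbD k x
    rw [Finset.sum_const, Finset.card_univ, Fintype.card_prod, Fintype.card_fin, smul_eq_mul] at h1
    omega
  have hD1le : D ≤ n * n * D + D := by omega
  set Δ : Dat n N := Dat.mk κ D (n * n * D + D) b w hw1 hw2 hD1le hbD1 f c U V hVU hVJ with hΔ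
  obtain ⟨b0, h, K, hb0, hK0, hint⟩ := Δ.exists_int α β
  set E := Δ.E with hE
  set ξ : Fin (E + 1) → ℝ := fun e => Real.pi ^ (e : ℕ) with hξd
  have hξ : GoodConst ξ := goodConst_pi E
  set g : Fin N → κ → ℝ → ℝ := fun j k => gf (a j) (m j) (c j) (V j) (b k) with hg
  have hι : 0 < Fintype.card κ := Fintype.card_pos
  set M0 : ℕ := (Fintype.card κ) ^ N * Fintype.card (Fin (E + 1)) with hM0
  set γ : ℝ := (2 * (M0 : ℝ) / ((M0 : ℝ) + 1) + 2) / 2 with hγ
  have hfrac : 2 * (M0 : ℝ) / ((M0 : ℝ) + 1) < 2 := by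
    rw [div_lt_iff₀ (by positivity)]; linarith
  have hfrac0 : 0 ≤ 2 * (M0 : ℝ) / ((M0 : ℝ) + 1) := by positivity
  have hγ1 : 2 * (M0 : ℝ) / ((M0 : ℝ) + 1) < γ := by rw [hγ]; linarith
  have hγ2 : γ < 2 := by rw [hγ]; linarith
  have hγ0 : 0 < γ := by rw [hγ]; linarith
  set A'' : ℝ := A + N * h + 1 with hA''
  have hA''0 : 0 ≤ A'' := by rw [hA'']; positivity
  obtain ⟨B, C, hmg⟩ := multi_gen hι ξ hξ N hN g α β hαβ
    (fun j l t ht => gf_analytic (ha j) (m j) (c j) (V j) (b l) (hgap j t ht))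
    (fun j => gf_indep hn (ha j) (hf j) (hαβ j) (hgap j) (hc j) (hVJ j) hb5) A'' γ hA''0 hγ1
  obtain ⟨Kc, hKc1, hKc⟩ := bound_eval c α β
  set D1 := Δ.D1 with hD1
  set K2 : ℝ := |(b0 : ℝ)| ^ N * (Kc ^ (4 * D1 + 1)) ^ N * Real.pi ^ (N * D1) with hK2
  set B' : ℝ := B + N * h + 1 with hB'
  set T0 : ℝ := max 1 (max K K2) with hT0
  have hT01 : 1 ≤ T0 := le_max_left _ _
  set C0 : ℝ := ((Fintype.piFinset fun j : Fin N => RT (α j) (β j) T0).card : ℝ) with hC0
  have hC00 : 0 ≤ C0 := by positivity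
  have hN1 : (1 : ℝ) ≤ N := by exact_mod_cast hN
  have hexp0 : 0 ≤ 2 * ((N : ℝ) - 1) + γ := by nlinarith
  refine ⟨γ, B', max C 0 + C0, hγ0, hγ2, ?_⟩
  intro T hT
  have hTx : 1 ≤ T ^ (2 * ((N : ℝ) - 1) + γ) := Real.one_le_rpow hT hexp0
  have hTp : 0 < T := by linarith
  rcases lt_or_ge T T0 with hlt | hge
  · refine ⟨(Fintype.piFinset fun j : Fin N => RT (α j) (β j) T0 : Finset (Fin N → ℚ)),
      Finset.finite_toSet _, ?_, ?_⟩
    · rw [Set.ncard_coe_finset, ← hC0]
      have h1 : 0 ≤ max C 0 := le_max_right _ _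
      nlinarith
    · intro t ht hnot
      exfalso
      apply hnot
      rw [Finset.mem_coe, Fintype.mem_piFinset]
      exact fun j => mem_RT.2 ⟨(ht j).1, (ht j).2.trans hlt.le⟩
  · obtain ⟨hSfin, hScard⟩ := hmg T hT
    refine ⟨ExcM g ξ α β A'' B T, hSfin, ?_, ?_⟩
    · refine hScard.trans ?_
      have h1 : C ≤ max C 0 + C0 := by have := le_max_left C 0; linarith
      exact mul_le_mul_of_nonneg_right h1 (by linarith)
    intro t ht hnot P hPd hPc hPsmall X lam hlam hX
    -- the values of `c`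
    have hctR : ∀ j, (aeval (t j : ℝ) (c j) : ℝ) ≠ 0 := by
      intro j0 hj0
      apply hnot
      obtain ⟨k0⟩ := hne
      set e0 : (Fin N → κ) × Fin (E + 1) := (fun _ => k0, 0) with he0
      refine ⟨ht, Pi.single e0 1, ?_, ?_, ?_⟩
      · intro h0
        have := congrFun h0 e0
        simp at this
      · intro e
        by_cases he : e = e0
        · rw [he, Pi.single_eq_same]
          simp only [Int.cast_one, abs_one]
          exact Real.one_le_rpow hT hA''0
        · rw [Pi.single_eq_of_ne he]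
          simp only [Int.cast_zero, abs_zero]
          exact (Real.rpow_pos_of_pos hTp _).le
      · have hz : ∑ e, (((Pi.single e0 1 : (Fin N → κ) × Fin (E + 1) → ℤ) e : ℤ) : ℝ) * mono g ξ t e = 0 := by
          refine Finset.sum_eq_zero fun e _ => ?_
          have : mono g ξ t e = 0 := by
            unfold mono
            rw [Finset.prod_eq_zero (Finset.mem_univ j0), zero_mul]
            simp only [hg]
            unfold gf
            rw [hj0, zero_mul]
          rw [this, mul_zero]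
        rw [hz, abs_zero]
        exact (Real.rpow_pos_of_pos hTp _).le
    have hctC : ∀ j, aeval (t j : ℂ) (c j) = (((aeval (t j : ℝ) (c j) : ℝ)) : ℂ) := by
      intro j
      have := Polynomial.aeval_algebraMap_apply ℂ ((t j : ℚ) : ℝ) (c j)
      simpa using this
    have hctC0 : ∀ j, aeval (t j : ℂ) (c j) ≠ 0 := by
      intro j
      rw [hctC]
      exact_mod_cast hctR j
    obtain ⟨c', hc'⟩ := hint P hPd (T ^ A) T hT (Real.rpow_pos_of_pos hTp _).le hPc t ht
    set Mt : ℚ := ∏ j, ((b0 : ℚ) * ((t j).den : ℚ) ^ h) with hMt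
    have hMt0 : Mt ≠ 0 := by
      refine Finset.prod_ne_zero_iff.2 fun j _ => mul_ne_zero (by exact_mod_cast hb0) (pow_ne_zero _ ?_)
      exact_mod_cast (t j).den_nz
    -- the point
    set R : Fin N → Matrix (Fin n) (Fin n) ℝ := fun j => RM (a j) (m j) (t j : ℝ) with hR
    have hpoint := Δ.multi P hPd t hctC0 (X := fun j => (R j).map (algebraMap ℝ ℂ)) (lam := (Real.pi : ℂ))
      (by exact_mod_cast Real.pi_ne_zero) (fun j => by
        have h1 := RM_legC hn (ha j) (hf j) (hgap j _ (ht j).1)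
        have h2 : (((t j : ℚ) : ℝ) : ℂ) = ((t j : ℚ) : ℂ) := by simp
        rw [h2] at h1
        exact h1)
    have hPcast : MvPolynomial.aeval (pt (fun j => (R j).map (algebraMap ℝ ℂ)) (Real.pi : ℂ)) P =
        ((MvPolynomial.aeval (pt R Real.pi) P : ℝ) : ℂ) := by
      have h1 := MvPolynomial.aeval_algebraMap_apply ℂ (pt R Real.pi) P
      have h2 : (algebraMap ℝ ℂ ∘ pt R Real.pi) = pt (fun j => (R j).map (algebraMap ℝ ℂ)) (Real.pi : ℂ) :=
        pt_map (algebraMap ℝ ℂ) R Real.pi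
      rw [h2] at h1
      exact h1
    have hreal : ∑ e, ((c' e : ℤ) : ℝ) * mono g ξ t e = (Mt : ℝ) * ((∏ j, (aeval (t j : ℝ) (c j) : ℝ) ^ (4 * D1 + 1)) *
        Real.pi ^ (N * D1) * MvPolynomial.aeval (pt R Real.pi) P) := by
      have h1 : ((∑ e, ((c' e : ℤ) : ℝ) * mono g ξ t e : ℝ) : ℂ) = (((Mt : ℝ) *
          ((∏ j, (aeval (t j : ℝ) (c j) : ℝ) ^ (4 * D1 + 1)) *
          Real.pi ^ (N * D1) * MvPolynomial.aeval (pt R Real.pi) P) : ℝ) : ℂ) := by
        push_cast
        rw [hPcast] at hpoint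
        have hctC' : ∀ j, aeval (t j : ℂ) (Δ.c j) = (((aeval (t j : ℝ) (c j) : ℝ)) : ℂ) := hctC
        simp only [hctC'] at hpoint
        have h2 : (Mt : ℂ) * ((∏ j, (((aeval (t j : ℝ) (c j) : ℝ)) : ℂ) ^ (4 * D1 + 1)) *
          (Real.pi : ℂ) ^ (N * D1) * ((MvPolynomial.aeval (pt R Real.pi) P : ℝ) : ℂ)) =
          ∑ e, ((c' e : ℤ) : ℂ) * ((mono g ξ t e : ℝ) : ℂ) := by
          rw [show (∏ j, (((aeval (t j : ℝ) (c j) : ℝ)) : ℂ) ^ (4 * D1 + 1)) *
            (Real.pi : ℂ) ^ (N * D1) * ((MvPolynomial.aeval (pt R Real.pi) P : ℝ) : ℂ) = _ from hpoint,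
            Finset.mul_sum]
          refine Finset.sum_congr rfl fun e _ => ?_
          have h3 : ((c' e : ℤ) : ℂ) = (Mt : ℂ) * ((Δ.Cf P t e : ℚ) : ℂ) := by
            have h4 := (hc' e).1
            have h5 : (((c' e : ℤ) : ℚ) : ℂ) = ((Mt * Δ.Cf P t e : ℚ) : ℂ) := by rw [h4]
            rw [← Rat.cast_mul, ← h5]
            simp
          rw [h3, mul_assoc]
          congr 2
          unfold mono
          rw [Complex.ofReal_mul, Complex.ofReal_prod]
          congr 1
          · refine Finset.prod_congr rfl fun j _ => ?_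
            simp only [hg]
            rw [gf_cast, hctC]
          · simp [hξd]
        rw [h2]
      exact_mod_cast h1
    have hsmall : |∑ e, ((c' e : ℤ) : ℝ) * mono g ξ t e| ≤ T ^ (-B) := by
      rw [hreal, abs_mul, abs_mul, abs_mul, Finset.abs_prod]
      have hM : |(Mt : ℝ)| ≤ |(b0 : ℝ)| ^ N * T ^ (N * h) := by
        rw [hMt, Rat.cast_prod, Finset.abs_prod]
        have h1 : ∀ j : Fin N, |((((b0 : ℚ) * ((t j).den : ℚ) ^ h) : ℚ) : ℝ)| ≤ |(b0 : ℝ)| * T ^ h := by
          intro j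
          push_cast
          rw [abs_mul, abs_of_nonneg (by positivity : (0 : ℝ) ≤ ((t j).den : ℝ) ^ h)]
          exact mul_le_mul_of_nonneg_left (pow_le_pow_left₀ (by positivity) (ht j).2 h) (abs_nonneg _)
        have h2 := Finset.prod_le_prod (s := (Finset.univ : Finset (Fin N))) (fun j _ => abs_nonneg _) (fun j _ => h1 j)
        rw [Finset.prod_const, Finset.card_univ, Fintype.card_fin, mul_pow, ← pow_mul, mul_comm h N] at h2
        exact h2
      have hcp : ∏ j, |(aeval (t j : ℝ) (c j) : ℝ) ^ (4 * D1 + 1)| ≤ (Kc ^ (4 * D1 + 1)) ^ N := by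
        have h1 : ∀ j : Fin N, |(aeval (t j : ℝ) (c j) : ℝ) ^ (4 * D1 + 1)| ≤ Kc ^ (4 * D1 + 1) := by
          intro j
          rw [abs_pow]
          refine pow_le_pow_left₀ (abs_nonneg _) ?_ _
          have h2 := hKc j (t j) (ht j).1
          have h3 : (aeval (t j : ℝ) (c j) : ℝ) = (((c j).eval (t j) : ℚ) : ℝ) := by
            have := Polynomial.aeval_algebraMap_apply ℝ (t j) (c j)
            simpa using this
          rw [h3]
          exact h2
        have h2 := Finset.prod_le_prod (s := (Finset.univ : Finset (Fin N))) (fun j _ => abs_nonneg _) (fun j _ => h1 j)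
        rw [Finset.prod_const, Finset.card_univ, Fintype.card_fin] at h2
        exact h2
      have hπ : |Real.pi ^ (N * D1)| = Real.pi ^ (N * D1) := abs_of_nonneg (by positivity)
      rw [hπ]
      have hKcp : (0 : ℝ) ≤ (Kc ^ (4 * D1 + 1)) ^ N := by positivity
      calc |(Mt : ℝ)| * ((∏ j, |(aeval (t j : ℝ) (c j) : ℝ) ^ (4 * D1 + 1)|) * Real.pi ^ (N * D1) *
            |MvPolynomial.aeval (pt R Real.pi) P|) ≤
          (|(b0 : ℝ)| ^ N * T ^ (N * h)) * (((Kc ^ (4 * D1 + 1)) ^ N) * Real.pi ^ (N * D1) * T ^ (-B')) := by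
            refine mul_le_mul hM ?_ (by positivity) (by positivity)
            refine mul_le_mul ?_ hPsmall (abs_nonneg _) (by positivity)
            exact mul_le_mul_of_nonneg_right hcp (by positivity)
        _ = K2 * (T ^ (N * h) * T ^ (-B')) := by rw [hK2]; ring
        _ ≤ T * (T ^ (N * h) * T ^ (-B')) := by
            refine mul_le_mul_of_nonneg_right ?_ (by positivity)
            exact ((le_max_right _ _).trans (le_max_right _ _)).trans hge
        _ = T ^ (-B) := by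
            have e1 : (T : ℝ) ^ (N * h) = T ^ (((N * h : ℕ)) : ℝ) := (Real.rpow_natCast _ _).symm
            rw [e1]
            nth_rewrite 1 [← Real.rpow_one T]
            rw [← Real.rpow_add hTp, ← Real.rpow_add hTp]
            congr 1
            rw [hB']
            push_cast
            ring
    have hc0 : c' = 0 := by
      by_contra hcne
      apply hnot
      refine ⟨ht, c', hcne, fun e => ?_, hsmall⟩
      refine (hc' e).2.trans ?_
      have hKT : K ≤ T := ((le_max_left _ _).trans (le_max_right _ _)).trans hge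
      calc K * T ^ A * T ^ (N * h) ≤ T * T ^ A * T ^ (N * h) := by
            refine mul_le_mul_of_nonneg_right (mul_le_mul_of_nonneg_right hKT (by positivity)) (by positivity)
        _ = T ^ A'' := by
            have e1 : (T : ℝ) ^ (N * h) = T ^ (((N * h : ℕ)) : ℝ) := (Real.rpow_natCast _ _).symm
            rw [e1]
            nth_rewrite 1 [← Real.rpow_one T]
            rw [← Real.rpow_add hTp, ← Real.rpow_add hTp]
            congr 1
            rw [hA'']
            push_cast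
            ring
    have hCf : ∀ e, Δ.Cf P t e = 0 := by
      intro e
      have h1 := (hc' e).1
      rw [hc0] at h1
      simp only [Pi.zero_apply, Int.cast_zero] at h1
      exact (mul_eq_zero.1 h1.symm).resolve_left hMt0
    have hfinal := Δ.multi P hPd t hctC0 hlam hX
    simp only [hCf, Rat.cast_zero, zero_mul, Finset.sum_const_zero] at hfinal
    refine (mul_eq_zero.1 hfinal).resolve_left (mul_ne_zero ?_ (pow_ne_zero _ hlam))
    exact Finset.prod_ne_zero_iff.2 fun j _ => pow_ne_zero _ (hctC0 j)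

end Pool.Agent.Y118.HP
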