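import Pool.Agent.Y118.HP.Cper

/-!
# Relations between the periods of almost all tuples of hyperelliptic curves: number field coefficients
-/

set_option autoImplicit false

open Matrix Polynomial Pool.Agent.TH818.AP NumberField

namespace Pool.Agent.Y118.HP

variable {n N : ℕ}

section aux

variable {σ : Type*}

theorem totalDegree_map_le {R S : Type*} [CommSemiring R] [CommSemiring S] (φ : R →+* S) (P : MvPolynomial σ R) :
    (P.map φ).totalDegree ≤ P.totalDegree :=
  Finset.sup_mono (MvPolynomial.support_map_subset φ P)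

theorem totalDegree_map_inj {R S : Type*} [CommSemiring R] [CommSemiring S] {φ : R →+* S}
    (hφ : Function.Injective φ) (P : MvPolynomial σ R) : (P.map φ).totalDegree = P.totalDegree := by
  unfold MvPolynomial.totalDegree
  rw [MvPolynomial.support_map_of_injective _ hφ]

theorem norm_aeval_le [Fintype σ] (P : MvPolynomial σ ℂ) {d : ℕ} (hd : P.totalDegree ≤ d) {x : σ → ℂ} {Z : ℝ}
    (hZ : 1 ≤ Z) (hx : ∀ o, ‖x o‖ ≤ Z) : ‖MvPolynomial.aeval x P‖ ≤ l1 P * Z ^ d := by
  rw [MvPolynomial.aeval_def, MvPolynomial.eval₂_eq']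
  refine (norm_sum_le _ _).trans ?_
  unfold l1
  rw [Finset.sum_mul]
  refine Finset.sum_le_sum fun s hs => ?_
  rw [norm_mul, norm_prod]
  refine mul_le_mul_of_nonneg_left ?_ (norm_nonneg _)
  have h1 : ∏ o, ‖x o ^ s o‖ ≤ ∏ o, Z ^ s o := by
    refine Finset.prod_le_prod (fun o _ => norm_nonneg _) fun o _ => ?_
    rw [norm_pow]
    exact pow_le_pow_left₀ (norm_nonneg _) (hx o) _
  refine h1.trans ?_
  rw [Finset.prod_pow_eq_pow_sum]
  refine pow_le_pow_right₀ hZ ?_
  have h2 := MvPolynomial.le_totalDegree hs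
  have h3 : (s.sum fun _ e => e) = ∑ o, s o := Finsupp.sum_fintype _ _ (fun _ => rfl)
  omega

theorem l1_le_card {P : MvPolynomial σ ℂ} {S : Finset (σ →₀ ℕ)} (hS : P.support ⊆ S) {H : ℝ}
    (hH : ∀ s, ‖P.coeff s‖ ≤ H) : l1 P ≤ S.card * H := by
  rw [l1_eq P hS]
  have := Finset.sum_le_card_nsmul S (fun s => ‖P.coeff s‖) H fun s _ => hH s
  rwa [nsmul_eq_mul] at this

theorem aeval_int_map (x : σ → ℂ) (M : MvPolynomial σ ℤ) :
    MvPolynomial.aeval x M = MvPolynomial.aeval x (M.map (Int.castRingHom ℂ)) := by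
  rw [MvPolynomial.aeval_def, MvPolynomial.aeval_def, MvPolynomial.eval₂_map]
  congr 1

end aux

/-- rational trivialisation -/
theorem exists_X0 (hn : Even n) {a : Fin n → ℝ} (ha : StrictMono a) {m : Fin (n + 1)} {f : ℚ[X]}
    (hf : f.map (algebraMap ℚ ℝ) = ∏ i, (X - C (a i))) {t : ℚ} (ht : InGap a m (t : ℝ)) :
    ∃ X0 : Matrix (Fin n) (Fin n) ℚ, X0 * ((-1 / 2 : ℚ) • (Qp n f).map (Polynomial.eval t)) * X0.transpose = jm ℚ n := by
  have hQT : ((Qp n f).map (Polynomial.eval t)).transpose = -(Qp n f).map (Polynomial.eval t) := by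
    rw [← Matrix.transpose_map, Qp_transpose]
    ext i j
    simp
  have hdet : ((Qp n f).map (Polynomial.eval t)).det ≠ 0 := by
    intro h0
    have h1 := congrArg Matrix.det (RM_leg hn ha hf ht)
    rw [Matrix.det_mul, Matrix.det_mul] at h1
    have h2 : ((Qp n f).map (aeval (t : ℝ))).det = (0 : ℝ) := by
      have e1 : (Qp n f).map (aeval (t : ℝ)) = ((Qp n f).map (Polynomial.evalRingHom t)).map (algebraMap ℚ ℝ) := by
        ext i j
        rw [Matrix.map_apply, Matrix.map_apply, Matrix.map_apply]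
        have := Polynomial.aeval_algebraMap_apply ℝ t (Qp n f i j)
        simpa using this
      rw [e1]
      have e2 := (RingHom.map_det (algebraMap ℚ ℝ) ((Qp n f).map (Polynomial.evalRingHom t))).symm
      rw [RingHom.mapMatrix_apply] at e2
      rw [e2]
      have e3 : (Qp n f).map (Polynomial.evalRingHom t) = (Qp n f).map (Polynomial.eval t) := rfl
      rw [e3, h0, map_zero]
    rw [h2, mul_zero, zero_mul, Matrix.det_smul] at h1
    exact mul_ne_zero (pow_ne_zero _ Real.pi_ne_zero) (jm_det hn) h1.symm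
  obtain ⟨U, -, hU⟩ := Pool.Agent.Y122.HPDar.darboux ((-1 / 2 : ℚ) • (Qp n f).map (Polynomial.eval t)) (jm ℚ n)
    (by rw [Matrix.transpose_smul, hQT, smul_neg])
    (fun i => by rw [Matrix.smul_apply, Matrix.map_apply, Qp_diag, eval_zero, smul_zero])
    (by rw [Matrix.det_smul]; exact mul_ne_zero (pow_ne_zero _ (by norm_num)) hdet)
    jm_transpose (fun i => jm_diag i) (jm_det hn)
  exact ⟨U, hU⟩

/-- bound for the periods -/
theorem exists_Z (hn : Even n) {a : Fin N → Fin n → ℝ} (ha : ∀ j, StrictMono (a j)) {m : Fin N → Fin (n + 1)}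
    {α β : Fin N → ℝ} (hgap : ∀ j, ∀ t ∈ Set.Icc (α j) (β j), InGap (a j) (m j) t) :
    ∃ Z : ℝ, 1 ≤ Z ∧ ∀ t : Fin N → ℝ, (∀ j, t j ∈ Set.Icc (α j) (β j)) → ∀ o,
      ‖pt (fun j => CM (a j) (m j) (t j)) (2 * Real.pi * Complex.I) o‖ ≤ Z := by
  classical
  have h1 : ∀ x : Fin N × Fin n × Fin n, ∃ C : ℝ, ∀ t ∈ Set.Icc (α x.1) (β x.1),
      ‖per (er (a x.1) (m x.1) t) x.2.1 x.2.2‖ ≤ C := fun x =>
    isCompact_Icc.exists_bound_of_continuousOn fun t ht =>
      (per_analytic (ha x.1) (m x.1) x.2.1 x.2.2 (hgap x.1 t ht)).continuousAt.continuousWithinAt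
  choose C hC using h1
  refine ⟨1 + 2 * Real.pi + 2 * ∑ x, |C x|, ?_, ?_⟩
  · have : 0 ≤ ∑ x, |C x| := Finset.sum_nonneg fun i _ => abs_nonneg _
    have := Real.pi_pos
    linarith
  · intro t ht o
    have hsum : 0 ≤ ∑ x, |C x| := Finset.sum_nonneg fun i _ => abs_nonneg _
    have hpi := Real.pi_pos
    rcases o with _ | x
    · show ‖(2 * Real.pi * Complex.I : ℂ)‖ ≤ _
      rw [norm_mul, norm_mul, Complex.norm_I, Complex.norm_real, Real.norm_of_nonneg hpi.le]
      simp only [Complex.norm_ofNat, mul_one]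
      linarith
    · show ‖CM (a x.1) (m x.1) (t x.1) x.2.1 x.2.2‖ ≤ _
      rw [CM_apply hn (ha x.1) (hgap x.1 _ (ht x.1)), norm_mul]
      have h2 : ‖dl x.2.1‖ = 2 := by
        unfold dl
        rw [norm_mul, norm_pow, Complex.norm_I, one_pow, mul_one]
        simp
      rw [h2, Complex.norm_real]
      have h3 := hC x (t x.1) (ht x.1)
      have h4 : |C x| ≤ ∑ x, |C x| := Finset.single_le_sum (f := fun x => |C x|) (fun i _ => abs_nonneg _) (Finset.mem_univ x)
      have h5 := le_abs_self (C x)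
      have h6 : ‖RM (a x.1) (m x.1) (t x.1) x.2.1 x.2.2‖ ≤ C x := h3
      linarith

set_option maxHeartbeats 1000000 in
theorem main2 (hn : Even n) (hN : 1 ≤ N) (a : Fin N → Fin n → ℝ) (ha : ∀ j, StrictMono (a j))
    (m : Fin N → Fin (n + 1)) (f : Fin N → ℚ[X]) (hf : ∀ j, (f j).map (algebraMap ℚ ℝ) = ∏ i, (X - C (a j i)))
    (α β : Fin N → ℝ) (hαβ : ∀ j, α j < β j) (hgap : ∀ j, ∀ t ∈ Set.Icc (α j) (β j), InGap (a j) (m j) t)
    (D d : ℕ) (A : ℝ) (hA : 0 ≤ A) :
    ∃ γ B C : ℝ, 0 < γ ∧ γ < 2 ∧ ∀ T : ℝ, 1 ≤ T → ∃ S : Set (Fin N → ℚ), S.Finite ∧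
      (S.ncard : ℝ) ≤ C * T ^ (2 * ((N : ℝ) - 1) + γ) ∧
      ∀ t : Fin N → ℚ, (∀ j, (t j : ℝ) ∈ Set.Icc (α j) (β j) ∧ ((t j).den : ℝ) ≤ T) → t ∉ S →
      ∀ (K : Type) [Field K] [NumberField K], Module.finrank ℚ K ≤ D →
      ∀ (φ : K →+* ℂ) (P : MvPolynomial (Option (Fin N × Fin n × Fin n)) (𝓞 K)), P.totalDegree ≤ d →
        (∀ s (ψ : K →+* ℂ), ‖ψ (algebraMap (𝓞 K) K (P.coeff s))‖ ≤ T ^ A) →
        ‖MvPolynomial.aeval (pt (fun j => CM (a j) (m j) (t j : ℝ)) (2 * Real.pi * Complex.I))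
          (P.map (φ.comp (algebraMap (𝓞 K) K)))‖ ≤ T ^ (-B) →
        ∀ x ∈ Tor (fun j => (-1 / 2 : ℂ) • (Qp n (f j)).map (aeval (t j : ℂ))),
          MvPolynomial.aeval (pt x.1 x.2) (P.map (φ.comp (algebraMap (𝓞 K) K))) = 0 := by
  classical
  obtain ⟨γ, B, C, hγ0, hγ2, hmain⟩ := real_main hn hN a ha m f hf α β hαβ hgap (d * D) (A * D + 1) (by positivity)
  obtain ⟨Z, hZ1, hZ⟩ := exists_Z hn ha hgap
  set 𝒮 := (Finsupp.finite_of_degree_le (σ := Option (Fin N × Fin n × Fin n)) d).toFinset with h𝒮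
  have hcard1 : (1 : ℝ) ≤ 𝒮.card := by
    have : 0 < 𝒮.card := Finset.card_pos.2 ⟨0, by rw [h𝒮, Set.Finite.mem_toFinset]; simp⟩
    exact_mod_cast this
  set L0 : ℝ := 𝒮.card * Z ^ d with hL0
  have hL01 : 1 ≤ L0 := one_le_mul_of_one_le_of_one_le hcard1 (one_le_pow₀ hZ1)
  set K3 : ℝ := (𝒮.card : ℝ) ^ D * 2 ^ (d * D) with hK3
  set B' : ℝ := B + A * D + 1 with hB'
  set T0 : ℝ := max 1 (max K3 (L0 ^ D)) with hT0
  have hT01 : 1 ≤ T0 := le_max_left _ _
  set C0 : ℝ := ((Fintype.piFinset fun j : Fin N => RT (α j) (β j) T0).card : ℝ) with hC0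
  have hC00 : 0 ≤ C0 := by positivity
  have hN1 : (1 : ℝ) ≤ N := by exact_mod_cast hN
  have hexp0 : 0 ≤ 2 * ((N : ℝ) - 1) + γ := by nlinarith
  refine ⟨γ, B', max C 0 + C0, hγ0, hγ2, ?_⟩
  intro T hT
  have hTx : 1 ≤ T ^ (2 * ((N : ℝ) - 1) + γ) := Real.one_le_rpow hT hexp0
  have hTp : 0 < T := by linarith
  rcases lt_or_ge T T0 with hlt | hge
  · refine ⟨(Fintype.piFinset fun j : Fin N => RT (α j) (β j) T0 : Finset (Fin N → ℚ)),
      Finset.finite_toSet _, ?_, ?_⟩
    · rw [Set.ncard_coe_finset, ← hC0]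
      have h1 : 0 ≤ max C 0 := le_max_right _ _
      nlinarith
    · intro t ht hnot
      exfalso
      apply hnot
      rw [Finset.mem_coe, Fintype.mem_piFinset]
      exact fun j => mem_RT.2 ⟨(ht j).1, (ht j).2.trans hlt.le⟩
  · obtain ⟨S, hSfin, hScard, hS⟩ := hmain T hT
    refine ⟨S, hSfin, ?_, ?_⟩
    · refine hScard.trans ?_
      have h1 : C ≤ max C 0 + C0 := by have := le_max_left C 0; linarith
      exact mul_le_mul_of_nonneg_right h1 (by linarith)
    intro t ht hnot K _ _ hKD φ P hPd hPc hPsmall x hx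
    have hTA : 1 ≤ T ^ A := Real.one_le_rpow hT hA
    set Pe : (K →+* ℂ) → MvPolynomial (Option (Fin N × Fin n × Fin n)) ℂ := fun ψ =>
      P.map (ψ.comp (algebraMap (𝓞 K) K)) with hPe
    have hPed : ∀ ψ, (Pe ψ).totalDegree ≤ d := fun ψ => (totalDegree_map_le _ P).trans hPd
    have hPes : ∀ ψ, (Pe ψ).support ⊆ 𝒮 := by
      intro ψ s hs
      rw [h𝒮, Set.Finite.mem_toFinset]
      have h1 := MvPolynomial.le_totalDegree hs
      have h2 : (s.sum fun _ e => e) = s.degree := rfl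
      have h3 := hPed ψ
      show s.degree ≤ d
      omega
    have hPel : ∀ ψ, l1 (Pe ψ) ≤ 𝒮.card * T ^ A := fun ψ => l1_le_card (hPes ψ) fun s => by
      rw [hPe, MvPolynomial.coeff_map]
      exact hPc s ψ
    obtain ⟨M, hM⟩ := exists_norm K P
    have hcardE : Fintype.card (K →+* ℂ) ≤ D := by rw [NumberField.Embeddings.card]; exact hKD
    have hMd : M.totalDegree ≤ d * D := by
      rw [← totalDegree_map_inj (φ := Int.castRingHom ℂ) (by exact Int.cast_injective) M, hM]
      refine (MvPolynomial.totalDegree_finsetProd _ _).trans ?_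
      refine (Finset.sum_le_sum fun ψ _ => hPed ψ).trans ?_
      rw [Finset.sum_const, Finset.card_univ, smul_eq_mul, mul_comm]
      exact Nat.mul_le_mul_left _ hcardE
    have hMc : ∀ s, |((M.coeff s : ℤ) : ℝ)| ≤ (𝒮.card * T ^ A) ^ D := by
      intro s
      have h1 : ‖(MvPolynomial.map (Int.castRingHom ℂ) M).coeff s‖ ≤ l1 (∏ ψ : K →+* ℂ, Pe ψ) := by
        rw [hM]; exact coeff_le_l1 _ _
      rw [MvPolynomial.coeff_map] at h1
      have h2 : ‖(Int.castRingHom ℂ) (M.coeff s)‖ = |((M.coeff s : ℤ) : ℝ)| := by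
        rw [eq_intCast, ← Complex.ofReal_intCast, Complex.norm_real, Real.norm_eq_abs]
      rw [h2] at h1
      refine h1.trans ((l1_prod_le _ _ fun ψ _ => hPel ψ).trans ?_)
      rw [Finset.card_univ]
      exact pow_le_pow_right₀ (one_le_mul_of_one_le_of_one_le hcard1 hTA) hcardE
    have hTAD : (T ^ A) ^ D = T ^ (A * D) := by
      rw [Real.rpow_mul hTp.le, Real.rpow_natCast]
    -- the two integer polynomials
    have hMreD : ∀ c : ℕ → ℤ, (Mre c M).totalDegree ≤ d * D := fun c => (Mre_totalDegree c M).trans hMd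
    have hMreC : ∀ c : ℕ → ℤ, (∀ k, |c k| ≤ 1) → ∀ s, |(((Mre c M).coeff s : ℤ) : ℝ)| ≤ T ^ (A * D + 1) := by
      intro c hc s
      rw [Mre_coeff]
      by_cases hs : s ∈ M.support
      · push_cast
        rw [abs_mul, abs_mul]
        have h1 := hMc s
        have h2 : |(c (∑ o, uo o * s o) : ℝ)| ≤ 1 := by
          have := hc (∑ o, uo o * s o)
          exact_mod_cast this
        have h3 : |(2 : ℝ) ^ (∑ o, s o)| ≤ 2 ^ (d * D) := by
          rw [abs_of_nonneg (by positivity)]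
          refine pow_le_pow_right₀ (by norm_num) ?_
          have h4 := MvPolynomial.le_totalDegree hs
          have h5 : (s.sum fun _ e => e) = ∑ o, s o := Finsupp.sum_fintype _ _ (fun _ => rfl)
          omega
        calc |((M.coeff s : ℤ) : ℝ)| * (|(2 : ℝ) ^ (∑ o, s o)| * |(c (∑ o, uo o * s o) : ℝ)|) ≤
            (𝒮.card * T ^ A) ^ D * (2 ^ (d * D) * 1) :=
              mul_le_mul h1 (mul_le_mul h3 h2 (abs_nonneg _) (by positivity)) (by positivity) (by positivity)
          _ = K3 * T ^ (A * D) := by rw [mul_pow, hTAD, hK3]; ring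
          _ ≤ T * T ^ (A * D) := mul_le_mul_of_nonneg_right
              (((le_max_left _ _).trans (le_max_right _ _)).trans hge) (by positivity)
          _ = T ^ (A * D + 1) := by rw [add_comm, Real.rpow_add hTp, Real.rpow_one]
      · rw [MvPolynomial.notMem_support_iff.1 hs, zero_mul, Int.cast_zero, abs_zero]
        positivity
    -- smallness
    set R : Fin N → Matrix (Fin n) (Fin n) ℝ := fun j => RM (a j) (m j) (t j : ℝ) with hR
    set yR := pt R Real.pi with hyR
    set y : Option (Fin N × Fin n × Fin n) → ℂ := fun o => ((yR o : ℝ) : ℂ) with hy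
    set xp := pt (fun j => CM (a j) (m j) (t j : ℝ)) (2 * Real.pi * Complex.I) with hxp
    have hxy : xp = fun o => 2 * Complex.I ^ uo o * y o := by
      funext o
      rcases o with _ | ⟨j, l, c⟩
      · show (2 * Real.pi * Complex.I : ℂ) = 2 * Complex.I ^ 1 * (Real.pi : ℂ)
        ring
      · show CM (a j) (m j) (t j : ℝ) l c = 2 * Complex.I ^ (if Even (l : ℕ) then 0 else 3) * ((R j l c : ℝ) : ℂ)
        rw [CM_apply hn (ha j) (hgap j _ (ht j).1)]
        rfl
    have hMx : MvPolynomial.aeval xp M = ∏ ψ : K →+* ℂ, MvPolynomial.aeval xp (Pe ψ) := by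
      rw [aeval_int_map, hM, map_prod]
    have hsmall : ‖MvPolynomial.aeval xp M‖ ≤ T ^ (-B) := by
      rw [hMx, norm_prod, ← Finset.mul_prod_erase Finset.univ _ (Finset.mem_univ φ)]
      have h1 : ∏ ψ ∈ Finset.univ.erase φ, ‖MvPolynomial.aeval xp (Pe ψ)‖ ≤ (L0 * T ^ A) ^ D := by
        have h2 : ∀ ψ ∈ Finset.univ.erase φ, ‖MvPolynomial.aeval xp (Pe ψ)‖ ≤ L0 * T ^ A := by
          intro ψ _
          refine (norm_aeval_le (Pe ψ) (hPed ψ) hZ1 (hZ (fun j => (t j : ℝ)) fun j => (ht j).1)).trans ?_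
          calc l1 (Pe ψ) * Z ^ d ≤ (𝒮.card * T ^ A) * Z ^ d :=
                mul_le_mul_of_nonneg_right (hPel ψ) (by positivity)
            _ = L0 * T ^ A := by rw [hL0]; ring
        have h3 := Finset.prod_le_prod (fun ψ (_ : ψ ∈ Finset.univ.erase φ) => norm_nonneg (MvPolynomial.aeval xp (Pe ψ))) h2
        refine h3.trans ?_
        rw [Finset.prod_const]
        refine pow_le_pow_right₀ (one_le_mul_of_one_le_of_one_le hL01 hTA) ?_
        exact (Finset.card_le_univ _).trans hcardE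
      calc ‖MvPolynomial.aeval xp (Pe φ)‖ * ∏ ψ ∈ Finset.univ.erase φ, ‖MvPolynomial.aeval xp (Pe ψ)‖ ≤
          T ^ (-B') * (L0 * T ^ A) ^ D :=
            mul_le_mul hPsmall h1 (Finset.prod_nonneg fun _ _ => norm_nonneg _) (by positivity)
        _ = L0 ^ D * (T ^ (-B') * T ^ (A * D)) := by rw [mul_pow, hTAD]; ring
        _ ≤ T * (T ^ (-B') * T ^ (A * D)) := mul_le_mul_of_nonneg_right
              (((le_max_right _ _).trans (le_max_right _ _)).trans hge) (by positivity)
        _ = T ^ (-B) := by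
            nth_rewrite 1 [← Real.rpow_one T]
            rw [← Real.rpow_add hTp, ← Real.rpow_add hTp]
            congr 1
            rw [hB']
            ring
    have hsplit := Mre_eval M y
    rw [← hxy] at hsplit
    have hycast : ∀ Q : MvPolynomial (Option (Fin N × Fin n × Fin n)) ℤ,
        MvPolynomial.aeval y Q = ((MvPolynomial.aeval yR Q : ℝ) : ℂ) := by
      intro Q
      exact MvPolynomial.aeval_algebraMap_apply ℂ yR Q
    rw [hycast, hycast] at hsplit
    have hre : |MvPolynomial.aeval yR (Mre reI M)| ≤ T ^ (-B) := by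
      have h1 := Complex.abs_re_le_norm (MvPolynomial.aeval xp M)
      rw [hsplit] at h1
      simp only [Complex.add_re, Complex.ofReal_re, Complex.mul_re, Complex.I_re, zero_mul, Complex.I_im,
        Complex.ofReal_im, mul_zero, sub_self, add_zero] at h1
      rw [← hsplit] at h1
      exact h1.trans hsmall
    have him : |MvPolynomial.aeval yR (Mre imI M)| ≤ T ^ (-B) := by
      have h1 := Complex.abs_im_le_norm (MvPolynomial.aeval xp M)
      rw [hsplit] at h1
      simp only [Complex.add_im, Complex.ofReal_im, Complex.mul_im, Complex.I_re, zero_mul, Complex.I_im,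
        Complex.ofReal_re, one_mul, zero_add] at h1
      rw [← hsplit] at h1
      exact h1.trans hsmall
    have hv1 := hS t ht hnot (Mre reI M) (hMreD _) (hMreC _ abs_reI) hre
    have hv2 := hS t ht hnot (Mre imI M) (hMreD _) (hMreC _ abs_imI) him
    -- vanishing of the norm on the torsor
    have hMvan : ∀ z ∈ Tor (fun j => (-1 / 2 : ℂ) • (Qp n (f j)).map (aeval (t j : ℂ))),
        MvPolynomial.aeval (pt z.1 z.2) M = 0 := by
      intro z hz
      set Y : Fin N → Matrix (Fin n) (Fin n) ℂ := fun j => Matrix.of fun r c => (dl r)⁻¹ * z.1 j r c with hY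
      set lam : ℂ := z.2 / (2 * Complex.I) with hlam
      have hI := Complex.I_ne_zero
      have hlam0 : lam ≠ 0 := div_ne_zero hz.1 (mul_ne_zero two_ne_zero hI)
      have hYt : ∀ j, Y j * (Qp n (f j)).map (aeval (t j : ℂ)) * (Y j).transpose = lam • jm ℂ n := fun j =>
        rescale (hz.2 j)
      have h1 := hv1 Y lam hlam0 hYt
      have h2 := hv2 Y lam hlam0 hYt
      have h3 := Mre_eval M (pt Y lam)
      rw [h1, h2, mul_zero, add_zero] at h3
      have h4 : pt z.1 z.2 = fun o => 2 * Complex.I ^ uo o * pt Y lam o := by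
        funext o
        rcases o with _ | ⟨j, l, c⟩
        · show z.2 = 2 * Complex.I ^ 1 * lam
          rw [hlam]; field_simp
        · show z.1 j l c = dl l * ((dl l)⁻¹ * z.1 j l c)
          rw [← mul_assoc, mul_inv_cancel₀ (dl_ne l), one_mul]
      rw [h4]
      exact h3
    -- rational trivialisation
    choose X0 hX0 using fun j => exists_X0 hn (ha j) (hf j) (hgap j _ (ht j).1)
    set X0c : Fin N → Matrix (Fin n) (Fin n) ℂ := fun j => (X0 j).map (algebraMap ℚ ℂ) with hX0c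
    have hQc : ∀ j, ((-1 / 2 : ℚ) • (Qp n (f j)).map (Polynomial.eval (t j))).map (algebraMap ℚ ℂ) =
        (-1 / 2 : ℂ) • (Qp n (f j)).map (aeval (t j : ℂ)) := by
      intro j
      ext r c
      rw [Matrix.map_apply, Matrix.smul_apply, Matrix.smul_apply, Matrix.map_apply, Matrix.map_apply]
      have := Polynomial.aeval_algebraMap_apply ℂ (t j) (Qp n (f j) r c)
      simp only [smul_eq_mul, map_mul]
      congr 1
      · simp
      · simpa using this.symm
    have hX0J : ∀ j, X0c j * ((-1 / 2 : ℂ) • (Qp n (f j)).map (aeval (t j : ℂ))) * (X0c j).transpose = jm ℂ n := by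
      intro j
      rw [← hQc, hX0c, ← Matrix.transpose_map, ← Matrix.map_mul, ← Matrix.map_mul, hX0, jm_map]
    obtain ⟨ψ, -, hψ⟩ := irr_prod hn X0c Finset.univ Pe (fun μ g hμ hg => by
      have h1 := hMvan _ (Phi_mem hX0J hμ hg)
      rw [← hM, ← aeval_int_map]
      exact h1)
    have hdense := dense_tor hn X0c (Pe φ) (fun ρ g hρ hg => by
      set g' : Fin N → Matrix (Fin n) (Fin n) ℂ := fun j => (g j).map (algebraMap ℚ ℂ) with hg'
      have h1 := hψ (ρ : ℂ) g' (by exact_mod_cast hρ) (fun j => SpS_map _ (hg j))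
      set v : K := MvPolynomial.eval (fun o => algebraMap ℚ K (Phi X0 ρ g o)) (P.map (algebraMap (𝓞 K) K)) with hv
      have h2 : ∀ χ : K →+* ℂ, MvPolynomial.aeval (Phi X0c (ρ : ℂ) g') (Pe χ) = χ v := by
        intro χ
        rw [hv, MvPolynomial.eval_map, MvPolynomial.hom_eval₂, MvPolynomial.aeval_def, hPe, MvPolynomial.eval₂_map]
        congr 1
        funext o
        have h3 := Phi_map (algebraMap ℚ ℂ) X0 ρ g o
        have h4 : χ (algebraMap ℚ K (Phi X0 ρ g o)) = algebraMap ℚ ℂ (Phi X0 ρ g o) := by simp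
        show Phi X0c (ρ : ℂ) g' o = χ (algebraMap ℚ K (Phi X0 ρ g o))
        rw [h4, h3]
        simp [hX0c, hg']
      rw [h2] at h1
      rw [h2]
      have h5 : v = 0 := (map_eq_zero ψ).1 h1
      rw [h5, map_zero])
    obtain ⟨μ, g, -, hg, hpt⟩ := exists_Phi hn hX0J hx
    rw [hpt]
    exact hdense μ g hg

end Pool.Agent.Y118.HP
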