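import Pool.Agent.Y118.HP.Conn
import Pool.Agent.W948.ZC.TR

/-!
# The relation ideal is invariant under the symplectic group
-/

set_option autoImplicit false

open Complex Set MeasureTheory Filter Topology

namespace Pool.Agent.Y118.HP

variable {n : ℕ}

/-- the matrix of the analytically continued periods -/
noncomputable def PM (a : Fin n → ℝ) (m : Fin (n + 1)) (z : ℂ) : Matrix (Fin n) (Fin n) ℂ :=
  Matrix.of fun l j => perC (ee a m z) l (j : ℕ)

/-- evaluation of a polynomial in `t` and the entries of a matrix -/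
noncomputable def ev (P : MvPolynomial (Option (Fin n × Fin n)) ℂ) (z : ℂ) (X : Matrix (Fin n) (Fin n) ℂ) : ℂ :=
  MvPolynomial.eval (fun o => o.elim z fun x => X x.1 x.2) P

/-- substitution `X ↦ g X` -/
noncomputable def sb (g : Matrix (Fin n) (Fin n) ℂ) (P : MvPolynomial (Option (Fin n × Fin n)) ℂ) :
    MvPolynomial (Option (Fin n × Fin n)) ℂ :=
  MvPolynomial.bind₁ (fun o => o.elim (MvPolynomial.X none) fun x =>
    ∑ k, MvPolynomial.C (g x.1 k) * MvPolynomial.X (some (k, x.2))) P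

theorem ev_sb (g : Matrix (Fin n) (Fin n) ℂ) (P : MvPolynomial (Option (Fin n × Fin n)) ℂ) (z : ℂ)
    (X : Matrix (Fin n) (Fin n) ℂ) : ev (sb g P) z X = ev P z (g * X) := by
  unfold ev sb
  rw [← MvPolynomial.coe_aeval_eq_eval, ← MvPolynomial.coe_aeval_eq_eval]
  simp only [RingHom.coe_coe]
  rw [MvPolynomial.aeval_bind₁]
  congr 2
  funext o
  rcases o with _ | x
  · simp
  · simp [Matrix.mul_apply]

theorem starConvex_Dm {a : Fin n → ℝ} {m : Fin (n + 1)} {t : ℝ} (h : InGap a m t) :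
    StarConvex ℝ (t : ℂ) (Dm a m) := by
  intro z hz u v hu hv huv i
  refine ⟨fun h1 => ?_, fun h1 => ?_⟩
  · have h2 := (hz i).1 h1
    have h3 : 0 < t - a i := by linarith [(h i).1 h1]
    have h4 := starConvex_ofReal_slitPlane h3 h2 hu hv huv
    have e : u • (t : ℂ) + v • z - (a i : ℂ) = u • ((t - a i : ℝ) : ℂ) + v • (z - (a i : ℂ)) := by
      have : (v : ℂ) = 1 - u := by rw [← ofReal_one, ← huv]; push_cast; ring
      simp only [real_smul]
      rw [this]; push_cast; ring
    rw [e]; exact h4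
  · have h2 := (hz i).2 h1
    have h3 : 0 < a i - t := by linarith [(h i).2 h1]
    have h4 := starConvex_ofReal_slitPlane h3 h2 hu hv huv
    have e : (a i : ℂ) - (u • (t : ℂ) + v • z) = u • ((a i - t : ℝ) : ℂ) + v • ((a i : ℂ) - z) := by
      have : (v : ℂ) = 1 - u := by rw [← ofReal_one, ← huv]; push_cast; ring
      simp only [real_smul]
      rw [this]; push_cast; ring
    rw [e]; exact h4

theorem isPreconnected_Dm {a : Fin n → ℝ} (ha : StrictMono a) (m : Fin (n + 1)) :
    IsPreconnected (Dm a m) := by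
  obtain ⟨t, ht⟩ := exists_inGap ha m
  exact ((starConvex_Dm ht).isPathConnected ht.mem_Dm).isConnected.isPreconnected

theorem differentiableOn_eval {σ : Type*} {U : Set ℂ} (f : σ → ℂ → ℂ)
    (hf : ∀ i, DifferentiableOn ℂ (f i) U) (P : MvPolynomial σ ℂ) :
    DifferentiableOn ℂ (fun z => MvPolynomial.eval (fun i => f i z) P) U := by
  induction P using MvPolynomial.induction_on with
  | C c => simp only [MvPolynomial.eval_C]; exact differentiableOn_const _
  | add p q hp hq => simp only [map_add]; exact hp.add hq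
  | mul_X p i hp => simp only [map_mul, MvPolynomial.eval_X]; exact hp.mul (hf i)

theorem differentiableOn_ev {a : Fin n → ℝ} (ha : StrictMono a) (m : Fin (n + 1))
    (P : MvPolynomial (Option (Fin n × Fin n)) ℂ) : DifferentiableOn ℂ (fun z => ev P z (PM a m z)) (Dm a m) := by
  unfold ev
  refine differentiableOn_eval (fun (o : Option (Fin n × Fin n)) z => o.elim z fun x => PM a m z x.1 x.2) ?_ P
  rintro (_ | x)
  · exact differentiableOn_id
  · exact differentiableOn_perC ha m x.1 x.2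

/-- identity theorem -/
theorem eq_zero_of_open {a : Fin n → ℝ} (ha : StrictMono a) (m : Fin (n + 1)) {f : ℂ → ℂ}
    (hf : DifferentiableOn ℂ f (Dm a m)) {V : Set ℂ} (hV : IsOpen V) {z0 : ℂ} (hz0 : z0 ∈ V)
    (hz0D : z0 ∈ Dm a m) (h : ∀ z ∈ V, f z = 0) : ∀ z ∈ Dm a m, f z = 0 := by
  have h1 := hf.analyticOnNhd (isOpen_Dm a m)
  exact h1.eqOn_zero_of_preconnected_of_eventuallyEq_zero (isPreconnected_Dm ha m) hz0D
    (by filter_upwards [hV.mem_nhds hz0] with z hz using h z hz)

/-- the relations of the periods -/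
def Id (a : Fin n → ℝ) (m : Fin (n + 1)) : Set (MvPolynomial (Option (Fin n × Fin n)) ℂ) :=
  {P | ∀ z ∈ Dm a m, ev P z (PM a m z) = 0}

theorem mem_Id_of_upper {a : Fin n → ℝ} (ha : StrictMono a) (m : Fin (n + 1))
    {P : MvPolynomial (Option (Fin n × Fin n)) ℂ} (h : ∀ z : ℂ, 0 < z.im → ev P z (PM a m z) = 0) :
    P ∈ Id a m :=
  eq_zero_of_open ha m (differentiableOn_ev ha m P) (V := {z : ℂ | 0 < z.im})
    (isOpen_lt continuous_const continuous_im) (z0 := I) (by simp) (mem_Dm_of_im a m (by simp)) h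

theorem mem_Id_of_lower {a : Fin n → ℝ} (ha : StrictMono a) (m : Fin (n + 1))
    {P : MvPolynomial (Option (Fin n × Fin n)) ℂ} (h : ∀ z : ℂ, z.im < 0 → ev P z (PM a m z) = 0) :
    P ∈ Id a m :=
  eq_zero_of_open ha m (differentiableOn_ev ha m P) (V := {z : ℂ | z.im < 0})
    (isOpen_lt continuous_im continuous_const) (z0 := -I) (by simp) (mem_Dm_of_im a m (by simp)) h

/-- the elementary nilpotent matrix -/
def Nk (k : Fin n) : Matrix (Fin n) (Fin n) ℂ :=
  Matrix.of fun l c => if c = k ∧ ((l : ℕ) + 1 = k ∨ (l : ℕ) = k + 1) then 1 else 0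

theorem Nk_mul (k : Fin n) (X : Matrix (Fin n) (Fin n) ℂ) (l j : Fin n) :
    (Nk k * X) l j = if (l : ℕ) + 1 = k ∨ (l : ℕ) = k + 1 then X k j else 0 := by
  rw [Matrix.mul_apply]
  unfold Nk
  simp only [Matrix.of_apply]
  by_cases h : (l : ℕ) + 1 = k ∨ (l : ℕ) = k + 1
  · simp [h]
  · simp [h]

theorem Nk_sq (k : Fin n) : Nk k * Nk k = 0 := by
  ext l j
  rw [Nk_mul]
  unfold Nk
  simp

/-- the unipotent matrix -/
noncomputable def Tk (k : Fin n) (s : ℂ) : Matrix (Fin n) (Fin n) ℂ := 1 + s • Nk k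

theorem Tk_mul (k : Fin n) (s s' : ℂ) : Tk k s * Tk k s' = Tk k (s + s') := by
  unfold Tk
  rw [mul_add, add_mul, add_mul, mul_one, one_mul, mul_one, smul_mul_smul_comm, Nk_sq, smul_zero, add_zero,
    add_smul, add_assoc]

theorem PM_upper {a : Fin n → ℝ} (ha : StrictMono a) (k : Fin n) {z : ℂ} (hz : 0 < z.im) :
    PM a k.succ z = Tk k (-I) * PM a k.castSucc z := by
  ext l j
  unfold Tk
  rw [add_mul, one_mul, smul_mul_assoc, Matrix.add_apply, Matrix.smul_apply, Nk_mul]
  unfold PM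
  simp only [Matrix.of_apply]
  rw [conn_upper ha k hz]
  simp only [smul_eq_mul]
  ring

theorem PM_lower {a : Fin n → ℝ} (ha : StrictMono a) (k : Fin n) {z : ℂ} (hz : z.im < 0) :
    PM a k.succ z = Tk k I * PM a k.castSucc z := by
  ext l j
  unfold Tk
  rw [add_mul, one_mul, smul_mul_assoc, Matrix.add_apply, Matrix.smul_apply, Nk_mul]
  unfold PM
  simp only [Matrix.of_apply]
  rw [conn_lower ha k hz]
  simp only [smul_eq_mul]

theorem Tk_zero (k : Fin n) : Tk k 0 = 1 := by simp [Tk]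

theorem PM_upper' {a : Fin n → ℝ} (ha : StrictMono a) (k : Fin n) {z : ℂ} (hz : 0 < z.im) :
    PM a k.castSucc z = Tk k I * PM a k.succ z := by
  rw [PM_upper ha k hz, ← mul_assoc, Tk_mul, add_neg_cancel, Tk_zero, one_mul]

theorem PM_lower' {a : Fin n → ℝ} (ha : StrictMono a) (k : Fin n) {z : ℂ} (hz : z.im < 0) :
    PM a k.castSucc z = Tk k (-I) * PM a k.succ z := by
  rw [PM_lower ha k hz, ← mul_assoc, Tk_mul, neg_add_cancel, Tk_zero, one_mul]

/-- the monoid of the matrices which preserve the relations -/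
def Mon (a : Fin n → ℝ) (m : Fin (n + 1)) : Submonoid (Matrix (Fin n) (Fin n) ℂ) where
  carrier := {g | ∀ P ∈ Id a m, sb g P ∈ Id a m}
  one_mem' := by
    intro P hP z hz
    rw [ev_sb, one_mul]
    exact hP z hz
  mul_mem' := by
    intro g h hg hh P hP
    have h1 := hh (sb g P) (hg P hP)
    intro z hz
    have h2 := h1 z hz
    rw [ev_sb, ev_sb] at h2
    rw [ev_sb, mul_assoc]
    exact h2

theorem mem_Mon {a : Fin n → ℝ} {m : Fin (n + 1)} {g : Matrix (Fin n) (Fin n) ℂ} :
    g ∈ Mon a m ↔ ∀ P ∈ Id a m, sb g P ∈ Id a m := Iff.rfl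

theorem mem_Mon' {a : Fin n → ℝ} {m : Fin (n + 1)} {g : Matrix (Fin n) (Fin n) ℂ} :
    g ∈ Mon a m ↔ ∀ P ∈ Id a m, ∀ z ∈ Dm a m, ev P z (g * PM a m z) = 0 := by
  rw [mem_Mon]
  constructor
  · intro h P hP z hz
    have := h P hP z hz
    rwa [ev_sb] at this
  · intro h P hP z hz
    rw [ev_sb]
    exact h P hP z hz

/-- monodromy around `a k`, starting at the left -/
theorem mono_left {a : Fin n → ℝ} (ha : StrictMono a) (k : Fin n) : Tk k (2 * I) ∈ Mon a k.castSucc := by
  intro P hP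
  have h1 : sb (Tk k I) P ∈ Id a k.succ := mem_Id_of_upper ha _ fun z hz => by
    rw [ev_sb, ← PM_upper' ha k hz]
    exact hP z (mem_Dm_of_im _ _ hz.ne')
  refine mem_Id_of_lower ha _ fun z hz => ?_
  have h2 := h1 z (mem_Dm_of_im _ _ hz.ne)
  rw [ev_sb, PM_lower ha k hz, ← mul_assoc, Tk_mul] at h2
  rw [ev_sb, two_mul]
  exact h2

theorem mono_right {a : Fin n → ℝ} (ha : StrictMono a) (k : Fin n) : Tk k (-(2 * I)) ∈ Mon a k.succ := by
  intro P hP
  have h1 : sb (Tk k (-I)) P ∈ Id a k.castSucc := mem_Id_of_upper ha _ fun z hz => by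
    rw [ev_sb, ← PM_upper ha k hz]
    exact hP z (mem_Dm_of_im _ _ hz.ne')
  refine mem_Id_of_lower ha _ fun z hz => ?_
  have h2 := h1 z (mem_Dm_of_im _ _ hz.ne)
  rw [ev_sb, PM_lower' ha k hz, ← mul_assoc, Tk_mul] at h2
  rw [ev_sb, two_mul, neg_add]
  exact h2

/-- a polynomial family of matrices which preserves the relations for infinitely many parameters -/
theorem poly_family {a : Fin n → ℝ} {m : Fin (n + 1)} (M : Matrix (Fin n) (Fin n) (Polynomial ℂ))
    {S : Set ℂ} (hS : S.Infinite) (h : ∀ s ∈ S, M.map (Polynomial.eval s) ∈ Mon a m) (s : ℂ) :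
    M.map (Polynomial.eval s) ∈ Mon a m := by
  rw [mem_Mon']
  intro P hP z hz
  set p : Polynomial ℂ := MvPolynomial.eval₂ Polynomial.C
    (fun o => o.elim (Polynomial.C z) fun x => (M * (PM a m z).map Polynomial.C) x.1 x.2) P with hp
  have hev : ∀ s, p.eval s = ev P z (M.map (Polynomial.eval s) * PM a m z) := by
    intro s
    have h1 := MvPolynomial.eval₂_comp_left (Polynomial.evalRingHom s) (Polynomial.C)
      (fun o : Option (Fin n × Fin n) => o.elim (Polynomial.C z) fun x => (M * (PM a m z).map Polynomial.C) x.1 x.2) P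
    rw [← hp] at h1
    have h2 : (Polynomial.evalRingHom s) p = p.eval s := rfl
    rw [← h2, h1]
    unfold ev
    rw [MvPolynomial.eval]
    congr 1
    · ext c
      simp
    · funext o
      rcases o with _ | x
      · simp
      · simp [Matrix.mul_apply, Polynomial.eval_finsetSum]
  have hp0 : p = 0 := by
    apply Polynomial.eq_zero_of_infinite_isRoot
    refine hS.mono fun s hs => ?_
    show p.eval s = 0
    rw [hev]
    exact mem_Mon'.1 (h s hs) P hP z hz
  rw [← hev, hp0, Polynomial.eval_zero]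

theorem Tk_poly (k : Fin n) (s : ℂ) :
    ((1 : Matrix (Fin n) (Fin n) (Polynomial ℂ)) + (Polynomial.X : Polynomial ℂ) • (Nk k).map Polynomial.C).map
      (Polynomial.eval s) = Tk k s := by
  ext l j
  unfold Tk
  simp only [Matrix.map_apply, Matrix.add_apply, Matrix.smul_apply, smul_eq_mul, Polynomial.eval_add,
    Polynomial.eval_mul, Polynomial.eval_X, Polynomial.eval_C]
  congr 1
  rw [Matrix.one_apply, Matrix.one_apply]
  split_ifs <;> simp

theorem Tk_pow (k : Fin n) (s : ℂ) (r : ℕ) : Tk k s ^ r = Tk k (r * s) := by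
  induction r with
  | zero => simp [Tk_zero]
  | succ r ih => rw [pow_succ, ih, Tk_mul]; congr 1; push_cast; ring

theorem infinite_mul {c : ℂ} (hc : c ≠ 0) : (Set.range fun r : ℕ => (r : ℂ) * c).Infinite := by
  refine Set.infinite_range_of_injective fun r r' h => ?_
  have := mul_right_cancel₀ hc h
  exact_mod_cast this

theorem Tk_mem_left {a : Fin n → ℝ} (ha : StrictMono a) (k : Fin n) (s : ℂ) : Tk k s ∈ Mon a k.castSucc := by
  rw [← Tk_poly]
  refine poly_family _ (infinite_mul (c := 2 * I) (by simp)) ?_ s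
  rintro _ ⟨r, rfl⟩
  rw [Tk_poly, ← Tk_pow]
  exact pow_mem (mono_left ha k) r

theorem Tk_mem_right {a : Fin n → ℝ} (ha : StrictMono a) (k : Fin n) (s : ℂ) : Tk k s ∈ Mon a k.succ := by
  rw [← Tk_poly]
  refine poly_family _ (infinite_mul (c := -(2 * I)) (by simp)) ?_ s
  rintro _ ⟨r, rfl⟩
  rw [Tk_poly, ← Tk_pow]
  exact pow_mem (mono_right ha k) r

theorem Id_succ {a : Fin n → ℝ} (ha : StrictMono a) (k : Fin n) : Id a k.castSucc = Id a k.succ := by
  ext P
  constructor
  · intro hP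
    refine mem_Id_of_upper ha _ fun z hz => ?_
    rw [PM_upper ha k hz]
    exact mem_Mon'.1 (Tk_mem_left ha k (-I)) P hP z (mem_Dm_of_im _ _ hz.ne')
  · intro hP
    refine mem_Id_of_upper ha _ fun z hz => ?_
    rw [PM_upper' ha k hz]
    exact mem_Mon'.1 (Tk_mem_right ha k I) P hP z (mem_Dm_of_im _ _ hz.ne')

theorem Id_eq {a : Fin n → ℝ} (ha : StrictMono a) (m : Fin (n + 1)) : Id a m = Id a 0 := by
  induction m using Fin.induction with
  | zero => rfl
  | succ k ih => rw [← Id_succ ha k, ih]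

theorem Mon_eq {a : Fin n → ℝ} (ha : StrictMono a) (m m' : Fin (n + 1)) : Mon a m = Mon a m' := by
  ext g
  rw [mem_Mon, mem_Mon, Id_eq ha m, Id_eq ha m']

theorem Tk_mem {a : Fin n → ℝ} (ha : StrictMono a) (m : Fin (n + 1)) (k : Fin n) (s : ℂ) :
    Tk k s ∈ Mon a m := by
  rw [Mon_eq ha m k.castSucc]
  exact Tk_mem_left ha k s

end Pool.Agent.Y118.HP
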