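import Pool.Agent.Y118.HP.Main1

/-!
# Geometry of the torsor: irreducibility, density of the rational points
-/

set_option autoImplicit false

open Matrix Polynomial

namespace Pool.Agent.Y118.HP

variable {n N : ℕ}

/-- the points `(X, lam)` with `X_j Q_j X_jᵀ = lam J` for all `j` -/
def Tor {K : Type*} [Field K] (Q : Fin N → Matrix (Fin n) (Fin n) K) :
    Set ((Fin N → Matrix (Fin n) (Fin n) K) × K) :=
  {x | x.2 ≠ 0 ∧ ∀ j, x.1 j * Q j * (x.1 j).transpose = x.2 • jm K n}

/-- the parametrisation -/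
def Phi {K : Type*} [CommRing K] (X0 : Fin N → Matrix (Fin n) (Fin n) K) (μ : K)
    (g : Fin N → Matrix (Fin n) (Fin n) K) : Option (Fin N × Fin n × Fin n) → K :=
  pt (fun j => μ • (g j * X0 j)) (μ ^ 2)

theorem Phi_map {K L : Type*} [CommRing K] [CommRing L] (φ : K →+* L) (X0 : Fin N → Matrix (Fin n) (Fin n) K) (μ : K)
    (g : Fin N → Matrix (Fin n) (Fin n) K) (o : Option (Fin N × Fin n × Fin n)) :
    φ (Phi X0 μ g o) = Phi (fun j => (X0 j).map φ) (φ μ) (fun j => (g j).map φ) o := by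
  unfold Phi
  rcases o with _ | x
  · simp [pt]
  · simp [pt, Matrix.mul_apply]

/-- points of the parametrisation are on the torsor -/
theorem Phi_mem {Q X0 : Fin N → Matrix (Fin n) (Fin n) ℂ}
    (hX0 : ∀ j, X0 j * Q j * (X0 j).transpose = jm ℂ n) {μ : ℂ} (hμ : μ ≠ 0) {g : Fin N → Matrix (Fin n) (Fin n) ℂ}
    (hg : ∀ j, g j ∈ SpS ℂ n) : ((fun j => μ • (g j * X0 j)), μ ^ 2) ∈ Tor Q := by
  refine ⟨pow_ne_zero _ hμ, fun j => ?_⟩
  have h1 : g j * jm ℂ n * (g j).transpose = jm ℂ n := hg j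
  simp only
  rw [Matrix.transpose_smul, Matrix.smul_mul, Matrix.mul_smul, Matrix.smul_mul, smul_smul, Matrix.transpose_mul]
  have h2 : g j * X0 j * Q j * ((X0 j).transpose * (g j).transpose) =
      g j * (X0 j * Q j * (X0 j).transpose) * (g j).transpose := by simp only [Matrix.mul_assoc]
  rw [h2, hX0, h1, sq]

/-- every point of the torsor is in the parametrisation -/
theorem exists_Phi (hn : Even n) {Q X0 : Fin N → Matrix (Fin n) (Fin n) ℂ}
    (hX0 : ∀ j, X0 j * Q j * (X0 j).transpose = jm ℂ n)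
    {x : (Fin N → Matrix (Fin n) (Fin n) ℂ) × ℂ} (hx : x ∈ Tor Q) :
    ∃ (μ : ℂ) (g : Fin N → Matrix (Fin n) (Fin n) ℂ), μ ≠ 0 ∧ (∀ j, g j ∈ SpS ℂ n) ∧ pt x.1 x.2 = Phi X0 μ g := by
  obtain ⟨hx2, hx1⟩ := hx
  obtain ⟨μ, hμ⟩ := IsAlgClosed.exists_pow_nat_eq x.2 (by norm_num : 0 < 2)
  have hμ0 : μ ≠ 0 := by rintro rfl; apply hx2; rw [← hμ]; norm_num
  have hdet : ∀ j, IsUnit (X0 j).det := by
    intro j
    rw [isUnit_iff_ne_zero]
    intro h0
    have := congrArg Matrix.det (hX0 j)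
    rw [Matrix.det_mul, Matrix.det_mul, h0, zero_mul, zero_mul] at this
    exact jm_det hn this.symm
  refine ⟨μ, fun j => μ⁻¹ • (x.1 j * (X0 j)⁻¹), hμ0, fun j => ?_, ?_⟩
  · have hinv := nonsing_inv_mul (X0 j) (hdet j)
    have hinv' := mul_nonsing_inv (X0 j) (hdet j)
    have hQ : (X0 j)⁻¹ * jm ℂ n * ((X0 j)⁻¹).transpose = Q j := by
      have hT : (X0 j).transpose * ((X0 j)⁻¹).transpose = 1 := by
        rw [← Matrix.transpose_mul, hinv, Matrix.transpose_one]
      calc (X0 j)⁻¹ * jm ℂ n * ((X0 j)⁻¹).transpose =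
          (X0 j)⁻¹ * (X0 j * Q j * (X0 j).transpose) * ((X0 j)⁻¹).transpose := by rw [hX0]
        _ = ((X0 j)⁻¹ * X0 j) * Q j * ((X0 j).transpose * ((X0 j)⁻¹).transpose) := by simp only [Matrix.mul_assoc]
        _ = Q j := by rw [hinv, hT, one_mul, mul_one]
    show μ⁻¹ • (x.1 j * (X0 j)⁻¹) * jm ℂ n * (μ⁻¹ • (x.1 j * (X0 j)⁻¹)).transpose = jm ℂ n
    rw [Matrix.transpose_smul, Matrix.smul_mul, Matrix.mul_smul, Matrix.smul_mul, smul_smul, Matrix.transpose_mul]
    have h2 : x.1 j * (X0 j)⁻¹ * jm ℂ n * (((X0 j)⁻¹).transpose * (x.1 j).transpose) =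
        x.1 j * ((X0 j)⁻¹ * jm ℂ n * ((X0 j)⁻¹).transpose) * (x.1 j).transpose := by simp only [Matrix.mul_assoc]
    rw [h2, hQ, hx1, smul_smul, ← hμ]
    have : μ⁻¹ * μ⁻¹ * μ ^ 2 = 1 := by field_simp
    rw [this, one_smul]
  · unfold Phi
    congr 1
    · funext j
      rw [Matrix.smul_mul, Matrix.mul_assoc, nonsing_inv_mul (X0 j) (hdet j), mul_one, smul_smul,
        mul_inv_cancel₀ hμ0, one_smul]
    · exact hμ.symm

/-- irreducibility -/
theorem irr (hn : Even n) (X0 : Fin N → Matrix (Fin n) (Fin n) ℂ)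
    (P Q : MvPolynomial (Option (Fin N × Fin n × Fin n)) ℂ)
    (h : ∀ (μ : ℂ) (g : Fin N → Matrix (Fin n) (Fin n) ℂ), μ ≠ 0 → (∀ j, g j ∈ SpS ℂ n) →
      MvPolynomial.aeval (Phi X0 μ g) P * MvPolynomial.aeval (Phi X0 μ g) Q = 0) :
    (∀ (μ : ℂ) (g : Fin N → Matrix (Fin n) (Fin n) ℂ), μ ≠ 0 → (∀ j, g j ∈ SpS ℂ n) →
      MvPolynomial.aeval (Phi X0 μ g) P = 0) ∨
    (∀ (μ : ℂ) (g : Fin N → Matrix (Fin n) (Fin n) ℂ), μ ≠ 0 → (∀ j, g j ∈ SpS ℂ n) →
      MvPolynomial.aeval (Phi X0 μ g) Q = 0) := by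
  classical
  by_contra hcon
  push Not at hcon
  obtain ⟨⟨μ0, g0, hμ0, hg0, hP0⟩, ⟨μ1, g1, hμ1, hg1, hQ1⟩⟩ := hcon
  have hpath : ∀ j, ∃ G : Matrix (Fin n) (Fin n) ℂ[X], G.map (Polynomial.eval 0) = 1 ∧
      G.map (Polynomial.eval 1) = g1 j * (g0 j)⁻¹ ∧ ∀ s, G.map (Polynomial.eval s) ∈ SpS ℂ n := fun j =>
    exists_path hn _ (SpS_mul (hg1 j) (SpS_inv hn (hg0 j)).1)
  choose G hG0 hG1 hGS using hpath
  -- polynomial path
  set μs : ℂ[X] := C μ0 + X * C (μ1 - μ0) with hμs
  set gs : Fin N → Matrix (Fin n) (Fin n) ℂ[X] := fun j => G j * (g0 j).map C with hgs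
  set X0s : Fin N → Matrix (Fin n) (Fin n) ℂ[X] := fun j => (X0 j).map C with hX0s
  set Ps : ℂ[X] := MvPolynomial.aeval (Phi X0s μs gs) P with hPs
  set Qs : ℂ[X] := MvPolynomial.aeval (Phi X0s μs gs) Q with hQs
  have hgse : ∀ s j, (gs j).map (Polynomial.evalRingHom s) = (G j).map (Polynomial.eval s) * g0 j := by
    intro s j
    simp only [hgs]
    rw [Matrix.map_mul]
    congr 1
    ext a b
    simp
  have hX0e : ∀ s j, (X0s j).map (Polynomial.evalRingHom s) = X0 j := by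
    intro s j
    ext a b
    simp [hX0s]
  have hev : ∀ (R : MvPolynomial (Option (Fin N × Fin n × Fin n)) ℂ) (s : ℂ),
      (MvPolynomial.aeval (Phi X0s μs gs) R : ℂ[X]).eval s =
        MvPolynomial.aeval (Phi X0 (μs.eval s) (fun j => (G j).map (Polynomial.eval s) * g0 j)) R := by
    intro R s
    have h1 := MvPolynomial.comp_aeval_apply (f := Phi X0s μs gs) (Polynomial.aeval s : ℂ[X] →ₐ[ℂ] ℂ) R
    rw [Polynomial.coe_aeval_eq_eval] at h1
    rw [h1]
    congr 2
    funext o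
    have h2 := Phi_map (Polynomial.evalRingHom s) X0s μs gs o
    simp only [hX0e, hgse] at h2
    exact h2
  have hPs0 : Ps ≠ 0 := by
    intro h0
    apply hP0
    have h1 := hev P 0
    rw [← hPs, h0, eval_zero] at h1
    have h2 : μs.eval 0 = μ0 := by simp [hμs]
    have h3 : (fun j => (G j).map (Polynomial.eval 0) * g0 j) = g0 := by
      funext j; rw [hG0, one_mul]
    rw [h2, h3] at h1
    exact h1.symm
  have hQs0 : Qs ≠ 0 := by
    intro h0
    apply hQ1
    have h1 := hev Q 1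
    rw [← hQs, h0, eval_zero] at h1
    have h2 : μs.eval 1 = μ1 := by simp [hμs]
    have h3 : (fun j => (G j).map (Polynomial.eval 1) * g0 j) = g1 := by
      funext j; rw [hG1, Matrix.mul_assoc, (SpS_inv hn (hg0 j)).2, mul_one]
    rw [h2, h3] at h1
    exact h1.symm
  have hμs0 : μs ≠ 0 := by
    intro h0
    apply hμ0
    have : μs.eval 0 = μ0 := by simp [hμs]
    rw [← this, h0, eval_zero]
  have hne : Ps * Qs * μs ≠ 0 := mul_ne_zero (mul_ne_zero hPs0 hQs0) hμs0
  obtain ⟨s, hs⟩ : ∃ s : ℂ, (Ps * Qs * μs).eval s ≠ 0 := by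
    by_contra hall
    push Not at hall
    exact hne (Polynomial.funext fun s => by rw [hall s, eval_zero])
  rw [eval_mul, eval_mul] at hs
  have h1 := h (μs.eval s) (fun j => (G j).map (Polynomial.eval s) * g0 j) (right_ne_zero_of_mul hs)
    (fun j => SpS_mul (hGS j s) (hg0 j))
  rw [← hev, ← hev] at h1
  exact left_ne_zero_of_mul hs h1

/-- irreducibility, products -/
theorem irr_prod (hn : Even n) (X0 : Fin N → Matrix (Fin n) (Fin n) ℂ) {ι : Type*} (s : Finset ι)
    (P : ι → MvPolynomial (Option (Fin N × Fin n × Fin n)) ℂ)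
    (h : ∀ (μ : ℂ) (g : Fin N → Matrix (Fin n) (Fin n) ℂ), μ ≠ 0 → (∀ j, g j ∈ SpS ℂ n) →
      MvPolynomial.aeval (Phi X0 μ g) (∏ i ∈ s, P i) = 0) :
    ∃ i ∈ s, ∀ (μ : ℂ) (g : Fin N → Matrix (Fin n) (Fin n) ℂ), μ ≠ 0 → (∀ j, g j ∈ SpS ℂ n) →
      MvPolynomial.aeval (Phi X0 μ g) (P i) = 0 := by
  classical
  induction s using Finset.induction_on with
  | empty =>
    exfalso
    have := h 1 (fun _ => 1) one_ne_zero (fun _ => SpS_one)
    rw [Finset.prod_empty, map_one] at this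
    exact one_ne_zero this
  | insert i s hi ih =>
    rcases irr hn X0 (P i) (∏ i ∈ s, P i) (fun μ g hμ hg => by
      have := h μ g hμ hg
      rw [Finset.prod_insert hi, map_mul] at this
      exact this) with h1 | h1
    · exact ⟨i, Finset.mem_insert_self _ _, h1⟩
    · obtain ⟨k, hk, hk2⟩ := ih h1
      exact ⟨k, Finset.mem_insert_of_mem hk, hk2⟩

/-- density of the rational points -/
theorem dense_tor (hn : Even n) (X0 : Fin N → Matrix (Fin n) (Fin n) ℂ)
    (P : MvPolynomial (Option (Fin N × Fin n × Fin n)) ℂ)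
    (h : ∀ (ρ : ℚ) (g : Fin N → Matrix (Fin n) (Fin n) ℚ), ρ ≠ 0 → (∀ j, g j ∈ SpS ℚ n) →
      MvPolynomial.aeval (Phi X0 (ρ : ℂ) (fun j => (g j).map (algebraMap ℚ ℂ))) P = 0) :
    ∀ (μ : ℂ) (g : Fin N → Matrix (Fin n) (Fin n) ℂ), (∀ j, g j ∈ SpS ℂ n) →
      MvPolynomial.aeval (Phi X0 μ g) P = 0 := by
  classical
  -- all `μ`
  have h1 : ∀ (μ : ℂ) (g : Fin N → Matrix (Fin n) (Fin n) ℚ), (∀ j, g j ∈ SpS ℚ n) →
      MvPolynomial.aeval (Phi X0 μ (fun j => (g j).map (algebraMap ℚ ℂ))) P = 0 := by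
    intro μ g hg
    set X0s : Fin N → Matrix (Fin n) (Fin n) ℂ[X] := fun j => (X0 j).map C with hX0s
    set gs : Fin N → Matrix (Fin n) (Fin n) ℂ[X] := fun j => ((g j).map (algebraMap ℚ ℂ)).map C with hgs
    have hev : ∀ s : ℂ, (MvPolynomial.aeval (Phi X0s X gs) P : ℂ[X]).eval s =
        MvPolynomial.aeval (Phi X0 s (fun j => (g j).map (algebraMap ℚ ℂ))) P := by
      intro s
      have h1 := MvPolynomial.comp_aeval_apply (f := Phi X0s X gs) (Polynomial.aeval s : ℂ[X] →ₐ[ℂ] ℂ) P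
      rw [Polynomial.coe_aeval_eq_eval] at h1
      rw [h1]
      congr 2
      funext o
      have h2 := Phi_map (Polynomial.evalRingHom s) X0s X gs o
      have h3 : (fun j => (X0s j).map (Polynomial.evalRingHom s)) = X0 := by
        funext j; ext a b; simp [hX0s]
      have h4 : (fun j => (gs j).map (Polynomial.evalRingHom s)) = fun j => (g j).map (algebraMap ℚ ℂ) := by
        funext j; ext a b; simp [hgs]
      rw [h3, h4] at h2
      simpa using h2
    have hz : (MvPolynomial.aeval (Phi X0s X gs) P : ℂ[X]) = 0 := by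
      refine Polynomial.eq_zero_of_infinite_isRoot _ ?_
      have hinf : (((fun q : ℚ => (q : ℂ)) '' {q : ℚ | q ≠ 0})).Infinite := by
        refine Set.Infinite.image (fun a _ b _ hab => by exact_mod_cast hab) ?_
        have : {q : ℚ | q ≠ 0} = ({0} : Set ℚ)ᶜ := by ext; simp
        rw [this]
        exact (Set.finite_singleton (0 : ℚ)).infinite_compl
      refine hinf.mono ?_
      rintro _ ⟨q, hq, rfl⟩
      show (MvPolynomial.aeval (Phi X0s X gs) P : ℂ[X]).eval (q : ℂ) = 0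
      rw [hev]
      exact h q g hq hg
    rw [← hev, hz, eval_zero]
  -- one matrix at a time
  have h2 : ∀ (A : Finset (Fin N)) (μ : ℂ) (g : Fin N → Matrix (Fin n) (Fin n) ℂ), (∀ j ∈ A, g j ∈ SpS ℂ n) →
      (∀ j, j ∉ A → ∃ q ∈ SpS ℚ n, g j = q.map (algebraMap ℚ ℂ)) → MvPolynomial.aeval (Phi X0 μ g) P = 0 := by
    intro A
    induction A using Finset.induction_on with
    | empty =>
      intro μ g _ hg2
      choose q hq hgq using fun j => hg2 j (Finset.notMem_empty j)
      have : g = fun j => (q j).map (algebraMap ℚ ℂ) := by funext j; exact hgq j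
      rw [this]
      exact h1 μ q hq
    | insert j0 A hj0 ih =>
      intro μ g hg1 hg2
      -- polynomial in the entries of `g j0`
      set Xv : Matrix (Fin n) (Fin n) (MvPolynomial (Fin n × Fin n) ℂ) :=
        Matrix.of fun l c => MvPolynomial.X (l, c) with hXv
      set gv : Fin N → Matrix (Fin n) (Fin n) (MvPolynomial (Fin n × Fin n) ℂ) := fun j =>
        if j = j0 then Xv else (g j).map MvPolynomial.C with hgv
      set X0v : Fin N → Matrix (Fin n) (Fin n) (MvPolynomial (Fin n × Fin n) ℂ) := fun j =>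
        (X0 j).map MvPolynomial.C with hX0v
      set Pv : MvPolynomial (Fin n × Fin n) ℂ := MvPolynomial.aeval (Phi X0v (MvPolynomial.C μ) gv) P with hPv
      have hev : ∀ h : Matrix (Fin n) (Fin n) ℂ, evM Pv h =
          MvPolynomial.aeval (Phi X0 μ (fun j => if j = j0 then h else g j)) P := by
        intro h
        have h3 := MvPolynomial.comp_aeval_apply (f := Phi X0v (MvPolynomial.C μ) gv)
          (MvPolynomial.aeval (fun x : Fin n × Fin n => h x.1 x.2) : MvPolynomial (Fin n × Fin n) ℂ →ₐ[ℂ] ℂ) P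
        have h4 : evM Pv h = MvPolynomial.aeval (fun x : Fin n × Fin n => h x.1 x.2) Pv := by
          unfold evM
          rw [MvPolynomial.aeval_eq_eval]
        rw [h4, hPv, h3]
        congr 2
        funext o
        have h5 := Phi_map (MvPolynomial.aeval (fun x : Fin n × Fin n => h x.1 x.2) :
          MvPolynomial (Fin n × Fin n) ℂ →ₐ[ℂ] ℂ).toRingHom X0v (MvPolynomial.C μ) gv o
        have e1 : (fun j => (X0v j).map (MvPolynomial.aeval (fun x : Fin n × Fin n => h x.1 x.2) :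
            MvPolynomial (Fin n × Fin n) ℂ →ₐ[ℂ] ℂ).toRingHom) = X0 := by
          funext j; ext a b; simp [hX0v]
        have e2 : (fun j => (gv j).map (MvPolynomial.aeval (fun x : Fin n × Fin n => h x.1 x.2) :
            MvPolynomial (Fin n × Fin n) ℂ →ₐ[ℂ] ℂ).toRingHom) = fun j => if j = j0 then h else g j := by
          funext j
          simp only [hgv]
          split_ifs
          · ext a b; simp [hXv]
          · ext a b; simp
        rw [e1, e2] at h5
        simpa using h5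
      have hP0 := dense_rat hn Pv (fun q hq => by
        rw [hev]
        refine ih μ _ (fun j hj => ?_) (fun j hj => ?_)
        · have : j ≠ j0 := by rintro rfl; exact hj0 hj
          rw [if_neg this]
          exact hg1 j (Finset.mem_insert_of_mem hj)
        · by_cases hjj : j = j0
          · rw [if_pos hjj]; exact ⟨q, hq, rfl⟩
          · rw [if_neg hjj]
            exact hg2 j (by rw [Finset.mem_insert]; tauto)) (g j0) (hg1 j0 (Finset.mem_insert_self _ _))
      rw [hev] at hP0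
      have : (fun j => if j = j0 then g j0 else g j) = g := by
        funext j
        split_ifs with hj
        · rw [hj]
        · rfl
      rw [this] at hP0
      exact hP0
  intro μ g hg
  exact h2 Finset.univ μ g (fun j _ => hg j) (fun j hj => absurd (Finset.mem_univ j) hj)

end Pool.Agent.Y118.HP
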